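import Mathlib

set_option autoImplicit false
set_option linter.unusedSectionVars false
set_option maxHeartbeats 1000000

noncomputable section

open Topology Filter

namespace Pool.Agent.Helper911


/-! ======= TARGETS ======= -/

private lemma norm_int_le {p : ℕ} [Fact p.Prime] {C : Type*} [NormedField C] [NormedAlgebra ℚ_[p] C]
    (m : ℤ) : ‖(m : C)‖ ≤ 1 := by
  have : (m : C) = algebraMap ℚ_[p] C (m : ℚ_[p]) := by simp
  rw [this, norm_algebraMap']
  exact Padic.norm_int_le_one m

private lemma norm_fact {p : ℕ} [Fact p.Prime] {C : Type*} [NormedField C] [NormedAlgebra ℚ_[p] C]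
    (j : ℕ) : (p : ℝ)⁻¹ ^ j ≤ ‖(j.factorial : C)‖ := by
  have h1 : (j.factorial : C) = algebraMap ℚ_[p] C (j.factorial : ℚ_[p]) := by simp
  rw [h1, norm_algebraMap']
  have hp : p.Prime := Fact.out
  have h2 : ‖(j.factorial : ℚ_[p])‖ = (p : ℝ) ^ (-(padicValNat p j.factorial : ℤ)) := by
    have := Padic.norm_eq_zpow_neg_valuation (p := p) (x := (j.factorial : ℚ_[p]))
      (by exact_mod_cast j.factorial_ne_zero)
    rw [this]
    simp [Padic.valuation_natCast]
  have h3 : padicValNat p j.factorial ≤ j := by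
    have h := sub_one_mul_padicValNat_factorial (p := p) j
    have h4 : 1 * padicValNat p j.factorial ≤ (p - 1) * padicValNat p j.factorial :=
      Nat.mul_le_mul_right _ (by have := hp.two_le; omega)
    omega
  rw [h2, zpow_neg, zpow_natCast, ← inv_pow]
  apply pow_le_pow_of_le_one
  · positivity
  · apply inv_le_one_of_one_le₀
    exact_mod_cast hp.one_lt.le
  · exact h3

/-- TARGET.
Proof. `κ` is a continuous additive character of `ℤ_[p]`; let `r = κ 1 - 1`, `‖r‖ ≤ p^(-2)`. By Mahler's theorem (`Mathlib/NumberTheory/Padics/AddChar.lean`, `MahlerBasis.lean`), or directly (both sides are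
continuous and agree on the dense subset `ℕ`, by the binomial theorem; the series converges uniformly), `κ x = ∑_j choose(x, j) r^j = ∑_j (r^j / j!) x (x-1) ... (x-j+1)`. Here `‖r^j / j!‖ ≤ p^(-2j) p^(j/(p-1)) ≤ p^(-j) → 0`. The polynomial
`x (x-1) ... (x-j+1)` has integer coefficients `s(j,i)`, so with `c i = ∑_j (r^j / j!) s(j,i)` (convergent in the complete ultrametric field `C`; the norm of `C` is ultrametric since it extends that of `ℚ_[p]`,
`IsUltrametricDist.isUltrametricDist_of_forall_norm_natCast_le_one`) we get `κ x = ∑_i c i x^i` and the tail `i ≥ I+1` has norm `≤ A ‖x‖^(I+1)` as `‖x‖ ≤ 1` and the `c i` are bounded. (It may be easier to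
split each polynomial: `x (x-1) ... (x-j+1) = P_j(x) + x^(I+1) R_j(x)` with integer polynomials, `deg P_j ≤ I`.) -/
theorem mahler_taylor {p : ℕ} [Fact p.Prime] {C : Type*} [NormedField C] [NormedAlgebra ℚ_[p] C]
    [CompleteSpace C] (κ : ℤ_[p] → C) (hκ : Continuous κ) (hadd : ∀ x y, κ (x + y) = κ x * κ y)
    (h0 : κ 0 = 1) (h1 : ‖κ 1 - 1‖ ≤ (p : ℝ)⁻¹ ^ 2) (I : ℕ) :
    ∃ (c : ℕ → C) (A : ℝ), ∀ x : ℤ_[p],
      ‖κ x - ∑ i ∈ Finset.range (I + 1), c i * (algebraMap ℚ_[p] C (x : ℚ_[p])) ^ i‖
        ≤ A * ‖x‖ ^ (I + 1) := by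
  have hp : p.Prime := Fact.out
  have hp1 : (1 : ℝ) < p := by exact_mod_cast hp.one_lt
  have hq0 : 0 < (p : ℝ)⁻¹ := by positivity
  have hq1 : (p : ℝ)⁻¹ < 1 := inv_lt_one_of_one_lt₀ hp1
  set r : C := κ 1 - 1 with hr
  -- characteristic zero
  have hfne : ∀ j : ℕ, (j.factorial : C) ≠ 0 := by
    intro j h
    have := norm_fact (p := p) (C := C) j
    rw [h, norm_zero] at this
    have h' : 0 < (p : ℝ)⁻¹ ^ j := by positivity
    linarith
  set a : ℕ → C := fun j => r ^ j / (j.factorial : C) with ha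
  have han : ∀ j, ‖a j‖ ≤ (p : ℝ)⁻¹ ^ j := by
    intro j
    rw [ha]
    simp only
    rw [norm_div, norm_pow, div_le_iff₀ (norm_pos_iff.mpr (hfne j))]
    calc ‖r‖ ^ j ≤ ((p : ℝ)⁻¹ ^ 2) ^ j := pow_le_pow_left₀ (norm_nonneg _) h1 j
      _ = (p : ℝ)⁻¹ ^ j * (p : ℝ)⁻¹ ^ j := by ring
      _ ≤ (p : ℝ)⁻¹ ^ j * ‖(j.factorial : C)‖ :=
        mul_le_mul_of_nonneg_left (norm_fact j) (by positivity)
  have hgeo : Summable (fun j : ℕ => (p : ℝ)⁻¹ ^ j) := summable_geometric_of_lt_one hq0.le hq1
  set s : ℕ → ℕ → ℤ := fun j i => (descPochhammer ℤ j).coeff i with hs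
  have hsum : ∀ i, Summable (fun j => a j * (s j i : C)) := by
    intro i
    apply Summable.of_norm_bounded hgeo
    intro j
    rw [norm_mul]
    calc ‖a j‖ * ‖(s j i : C)‖ ≤ (p : ℝ)⁻¹ ^ j * 1 :=
        mul_le_mul (han j) (norm_int_le (p := p) _) (norm_nonneg _) (by positivity)
      _ = _ := mul_one _
  refine ⟨fun i => ∑' j, a j * (s j i : C), ∑' j : ℕ, (p : ℝ)⁻¹ ^ j, ?_⟩
  -- naturals
  have hnat : ∀ n : ℕ, κ (n : ℤ_[p]) = (1 + r) ^ n := by
    intro n
    induction n with
    | zero => simp [h0]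
    | succ n ih =>
      rw [Nat.cast_succ, hadd, ih, pow_succ]
      congr 1
      rw [hr]; ring
  have hclosed : IsClosed {x : ℤ_[p] | ‖κ x - ∑ i ∈ Finset.range (I + 1),
      (∑' j, a j * (s j i : C)) * (algebraMap ℚ_[p] C (x : ℚ_[p])) ^ i‖
        ≤ (∑' j : ℕ, (p : ℝ)⁻¹ ^ j) * ‖x‖ ^ (I + 1)} := by
    apply isClosed_le
    · apply Continuous.norm
      apply hκ.sub
      apply continuous_finsetSum
      intro i _
      apply Continuous.mul continuous_const
      apply Continuous.pow
      exact (continuous_algebraMap ℚ_[p] C).comp continuous_subtype_val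
    · fun_prop
  have hdense : DenseRange (Nat.cast : ℕ → ℤ_[p]) := PadicInt.denseRange_natCast
  intro x
  have hmem : ∀ x : ℤ_[p], x ∈ {x : ℤ_[p] | ‖κ x - ∑ i ∈ Finset.range (I + 1),
      (∑' j, a j * (s j i : C)) * (algebraMap ℚ_[p] C (x : ℚ_[p])) ^ i‖
        ≤ (∑' j : ℕ, (p : ℝ)⁻¹ ^ j) * ‖x‖ ^ (I + 1)} := by
    intro x
    refine hdense.induction_on x hclosed ?_
    intro n
    simp only [Set.mem_ofPred_eq]
    -- the two series
    have e1 : κ (n : ℤ_[p]) = ∑' j, a j * (((descPochhammer ℤ j).eval (n : ℤ) : ℤ) : C) := by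
      rw [hnat, add_comm, add_pow]
      rw [tsum_eq_sum (s := Finset.range (n + 1))]
      · apply Finset.sum_congr rfl
        intro j hj
        rw [descPochhammer_eval_eq_descFactorial]
        rw [ha]
        simp only [one_pow, mul_one]
        rw [Int.cast_natCast, Nat.descFactorial_eq_factorial_mul_choose]
        have := hfne j
        push_cast
        field_simp
      · intro j hj
        rw [descPochhammer_eval_eq_descFactorial]
        have : n < j := by
          simpa using hj
        rw [Nat.descFactorial_of_lt this]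
        simp
    have e2 : (∑ i ∈ Finset.range (I + 1),
      (∑' j, a j * (s j i : C)) * (algebraMap ℚ_[p] C (((n : ℤ_[p])) : ℚ_[p])) ^ i)
       = ∑' j, a j * ((∑ i ∈ Finset.range (I + 1), s j i * (n : ℤ) ^ i : ℤ) : C) := by
      have : (algebraMap ℚ_[p] C (((n : ℤ_[p])) : ℚ_[p])) = (n : C) := by simp
      rw [this]
      rw [show (fun j => a j * ((∑ i ∈ Finset.range (I + 1), s j i * (n : ℤ) ^ i : ℤ) : C))
        = fun j => ∑ i ∈ Finset.range (I + 1), (a j * (s j i : C)) * (n : C) ^ i from ?_]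
      · rw [Summable.tsum_finsetSum]
        · apply Finset.sum_congr rfl
          intro i _
          rw [tsum_mul_right]
        · intro i _
          exact (hsum i).mul_right _
      · funext j
        push_cast
        rw [Finset.mul_sum]
        apply Finset.sum_congr rfl
        intro i _
        ring
    have hs1 : Summable (fun j => a j * (((descPochhammer ℤ j).eval (n : ℤ) : ℤ) : C)) := by
      apply Summable.of_norm_bounded hgeo
      intro j
      rw [norm_mul]
      calc _ ≤ (p : ℝ)⁻¹ ^ j * 1 :=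
          mul_le_mul (han j) (norm_int_le (p := p) _) (norm_nonneg _) (by positivity)
        _ = _ := mul_one _
    have hs2 : Summable (fun j =>
        a j * ((∑ i ∈ Finset.range (I + 1), s j i * (n : ℤ) ^ i : ℤ) : C)) := by
      apply Summable.of_norm_bounded hgeo
      intro j
      rw [norm_mul]
      calc _ ≤ (p : ℝ)⁻¹ ^ j * 1 :=
          mul_le_mul (han j) (norm_int_le (p := p) _) (norm_nonneg _) (by positivity)
        _ = _ := mul_one _
    rw [e1, e2, ← hs1.tsum_sub hs2, ← tsum_mul_right]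
    apply tsum_of_norm_bounded ((hgeo.mul_right _).hasSum)
    intro j
    rw [← mul_sub, norm_mul]
    apply mul_le_mul (han j) _ (norm_nonneg _) (by positivity)
    -- divisibility
    have hdiv : ((n : ℤ) ^ (I + 1)) ∣ ((descPochhammer ℤ j).eval (n : ℤ)
        - ∑ i ∈ Finset.range (I + 1), s j i * (n : ℤ) ^ i) := by
      rw [Polynomial.eval_eq_sum_range' (n := j + 1 + (I + 1)) (by
        have := descPochhammer_natDegree ℤ j
        omega)]
      have hsub : Finset.range (I + 1) ⊆ Finset.range (j + 1 + (I + 1)) := by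
        intro i hi
        simp only [Finset.mem_range] at hi ⊢
        omega
      rw [← Finset.sum_sdiff hsub, add_sub_cancel_right]
      apply Finset.dvd_sum
      intro i hi
      simp only [Finset.mem_sdiff, Finset.mem_range, not_lt] at hi
      exact Dvd.dvd.mul_left (pow_dvd_pow _ hi.2) _
    obtain ⟨m, hm⟩ := hdiv
    rw [← Int.cast_sub, hm]
    push_cast
    rw [norm_mul, norm_pow]
    have hn : ‖(n : C)‖ = ‖(n : ℤ_[p])‖ := by
      have : (n : C) = algebraMap ℚ_[p] C (n : ℚ_[p]) := by simp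
      rw [this, norm_algebraMap', PadicInt.norm_def]
      simp
    rw [hn]
    calc _ ≤ ‖(n : ℤ_[p])‖ ^ (I + 1) * 1 :=
        mul_le_mul_of_nonneg_left (norm_int_le (p := p) _) (by positivity)
      _ = _ := mul_one _
  exact hmem x
end Pool.Agent.Helper911
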