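import Mathlib
import Pool.Agent.Helper911_T3.PA

set_option autoImplicit false
set_option linter.unusedSectionVars false
set_option maxHeartbeats 1000000

noncomputable section

open Topology Filter

namespace Pool.Agent.Helper911


theorem char_taylor_norm_nat {p : ℕ} [Fact p.Prime] (N : ℕ) :
    (p : ℝ)⁻¹ ^ N ≤ ‖((N + 1 : ℕ) : ℤ_[p])‖ := by
  have hp : (1 : ℝ) < p := by exact_mod_cast (Fact.out : p.Prime).one_lt
  have hN : ((N + 1 : ℕ) : ℤ_[p]) ≠ 0 := by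
    exact_mod_cast (Nat.succ_ne_zero N)
  have hv : ((N + 1 : ℕ) : ℤ_[p]).valuation = padicValNat p (N + 1) := by
    have h1 := PadicInt.valuation_coe ((N + 1 : ℕ) : ℤ_[p])
    rw [PadicInt.coe_natCast, Padic.valuation_natCast] at h1
    exact_mod_cast h1.symm
  rw [PadicInt.norm_eq_zpow_neg_valuation hN, hv, zpow_neg, zpow_natCast, inv_pow]
  have h2 : padicValNat p (N + 1) ≤ N := Nat.lt_succ_iff.1 (Nat.padicValNat_lt_self (Nat.succ_ne_zero N))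
  exact inv_anti₀ (by positivity) (pow_le_pow_right₀ hp.le h2)

theorem char_taylor_exp_nat {p : ℕ} [Fact p.Prime] (M : ℕ) (hM : 2 ≤ M) (m : ℕ) :
    ‖(1 + (p : ℤ_[p]) ^ M) ^ m - 1 - (p : ℤ_[p]) ^ M * (m : ℤ_[p])‖ ≤
      (p : ℝ)⁻¹ ^ (M + 1) * ‖(m : ℤ_[p])‖ := by
  have hp : (1 : ℝ) < p := by exact_mod_cast (Fact.out : p.Prime).one_lt
  rcases Nat.eq_zero_or_pos m with h0 | h0
  · subst h0; simp
  · obtain ⟨k, rfl⟩ : ∃ k, m = k + 1 := ⟨m - 1, by omega⟩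
    have e1 : (1 + (p : ℤ_[p]) ^ M) ^ (k + 1) - 1 - (p : ℤ_[p]) ^ M * ((k + 1 : ℕ) : ℤ_[p]) =
        ∑ n ∈ Finset.range k, ((p : ℤ_[p]) ^ M) ^ (n + 2) * ((k + 1).choose (n + 2) : ℤ_[p]) := by
      rw [add_comm (1 : ℤ_[p]), add_pow, Finset.sum_range_succ', Finset.sum_range_succ']
      simp
    rw [e1]
    refine IsUltrametricDist.norm_sum_le_of_forall_le_of_nonneg (by positivity) ?_
    intro n _
    have h1 : ((n : ℤ_[p]) + 2) * ((k + 1).choose (n + 2) : ℤ_[p]) =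
        ((k : ℤ_[p]) + 1) * (k.choose (n + 1) : ℤ_[p]) := by
      have := Nat.add_one_mul_choose_eq k (n + 1)
      have h2 : ((k + 1) * k.choose (n + 1) : ℕ) = (k + 1).choose (n + 2) * (n + 2) := by
        exact this
      have h3 := congrArg (fun x : ℕ => (x : ℤ_[p])) h2
      push_cast at h3
      rw [mul_comm, ← h3]
    have h2 : ‖((n + 2 : ℕ) : ℤ_[p])‖ * ‖((k + 1).choose (n + 2) : ℤ_[p])‖ ≤ ‖((k + 1 : ℕ) : ℤ_[p])‖ := by
      rw [← norm_mul]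
      push_cast
      rw [h1, norm_mul]
      exact mul_le_of_le_one_right (norm_nonneg _) (PadicInt.norm_le_one _)
    have h3 : (p : ℝ)⁻¹ ^ (n + 1) ≤ ‖((n + 2 : ℕ) : ℤ_[p])‖ := char_taylor_norm_nat (n + 1)
    have h4 : (p : ℝ)⁻¹ ^ (n + 1) * ‖((k + 1).choose (n + 2) : ℤ_[p])‖ ≤ ‖((k + 1 : ℕ) : ℤ_[p])‖ :=
      (mul_le_mul_of_nonneg_right h3 (norm_nonneg _)).trans h2
    have h5 : ‖((p : ℤ_[p]) ^ M) ^ (n + 2)‖ ≤ (p : ℝ)⁻¹ ^ (M + 1) * (p : ℝ)⁻¹ ^ (n + 1) := by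
      rw [← pow_mul, norm_pow, PadicInt.norm_p, ← pow_add]
      refine pow_le_pow_of_le_one (by positivity) (inv_le_one_of_one_le₀ hp.le) ?_
      nlinarith
    calc ‖((p : ℤ_[p]) ^ M) ^ (n + 2) * ((k + 1).choose (n + 2) : ℤ_[p])‖
        = ‖((p : ℤ_[p]) ^ M) ^ (n + 2)‖ * ‖((k + 1).choose (n + 2) : ℤ_[p])‖ := norm_mul _ _
      _ ≤ (p : ℝ)⁻¹ ^ (M + 1) * (p : ℝ)⁻¹ ^ (n + 1) * ‖((k + 1).choose (n + 2) : ℤ_[p])‖ :=
          mul_le_mul_of_nonneg_right h5 (norm_nonneg _)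
      _ = (p : ℝ)⁻¹ ^ (M + 1) * ((p : ℝ)⁻¹ ^ (n + 1) * ‖((k + 1).choose (n + 2) : ℤ_[p])‖) := by ring
      _ ≤ (p : ℝ)⁻¹ ^ (M + 1) * ‖((k + 1 : ℕ) : ℤ_[p])‖ :=
          mul_le_mul_of_nonneg_left h4 (by positivity)

/-- the exponential `x ↦ (1 + p ^ M) ^ x` -/
theorem char_taylor_exp (p : ℕ) [Fact p.Prime] (M : ℕ) (hM : 2 ≤ M) :
    ∃ E : ℤ_[p] → ℤ_[p], Continuous E ∧ (∀ x y, E (x + y) = E x * E y) ∧ E 0 = 1 ∧
      E 1 = 1 + (p : ℤ_[p]) ^ M ∧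
      ∀ x, ‖E x - 1 - (p : ℤ_[p]) ^ M * x‖ ≤ (p : ℝ)⁻¹ ^ (M + 1) * ‖x‖ := by
  have hp : (1 : ℝ) < p := by exact_mod_cast (Fact.out : p.Prime).one_lt
  have hr : Tendsto (((p : ℤ_[p]) ^ M) ^ ·) atTop (𝓝 0) := by
    rw [tendsto_pow_atTop_nhds_zero_iff_norm_lt_one, norm_pow, PadicInt.norm_p]
    exact pow_lt_one₀ (by positivity) (inv_lt_one_of_one_lt₀ hp) (by omega)
  obtain ⟨κ, hκ⟩ : ∃ κ : AddChar ℤ_[p] ℤ_[p], κ = PadicInt.addChar_of_value_at_one _ hr := ⟨_, rfl⟩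
  have hc : Continuous κ := by
    rw [hκ]; exact PadicInt.continuous_addChar_of_value_at_one hr
  have h1 : κ 1 = 1 + (p : ℤ_[p]) ^ M := by
    rw [hκ]; exact PadicInt.addChar_of_value_at_one_def hr
  refine ⟨κ, hc, fun x y => AddChar.map_add_eq_mul κ x y, AddChar.map_zero_eq_one κ, h1, ?_⟩
  intro x
  refine PadicInt.denseRange_natCast.induction_on x ?_ ?_
  · exact isClosed_le (by fun_prop) (by fun_prop)
  · intro m
    have h2 : κ (m : ℤ_[p]) = (1 + (p : ℤ_[p]) ^ M) ^ m := by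
      have := AddChar.map_nsmul_eq_pow κ m 1
      rw [nsmul_eq_mul, mul_one] at this
      rw [this, h1]
    rw [h2]
    exact char_taylor_exp_nat M hM m

theorem char_taylor_le {p : ℕ} [Fact p.Prime] (M : ℕ) (E : ℤ_[p] → ℤ_[p])
    (hE : ∀ x, ‖E x - 1 - (p : ℤ_[p]) ^ M * x‖ ≤ (p : ℝ)⁻¹ ^ (M + 1) * ‖x‖) (x : ℤ_[p]) :
    ‖E x - 1‖ ≤ (p : ℝ)⁻¹ ^ M * ‖x‖ := by
  have hp : (1 : ℝ) < p := by exact_mod_cast (Fact.out : p.Prime).one_lt
  have e : E x - 1 = (E x - 1 - (p : ℤ_[p]) ^ M * x) + (p : ℤ_[p]) ^ M * x := by ring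
  rw [e]
  refine (PadicInt.nonarchimedean _ _).trans (max_le ?_ ?_)
  · refine (hE x).trans (mul_le_mul_of_nonneg_right ?_ (norm_nonneg _))
    exact pow_le_pow_of_le_one (by positivity) (inv_le_one_of_one_le₀ hp.le) (Nat.le_succ M)
  · rw [norm_mul, norm_pow, PadicInt.norm_p]

theorem char_taylor_ge {p : ℕ} [Fact p.Prime] (M : ℕ) (E : ℤ_[p] → ℤ_[p])
    (hE : ∀ x, ‖E x - 1 - (p : ℤ_[p]) ^ M * x‖ ≤ (p : ℝ)⁻¹ ^ (M + 1) * ‖x‖) (x : ℤ_[p]) :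
    (p : ℝ)⁻¹ ^ M * ‖x‖ ≤ ‖E x - 1‖ := by
  have hp : (1 : ℝ) < p := by exact_mod_cast (Fact.out : p.Prime).one_lt
  by_cases hx : x = 0
  · subst hx; simp
  have hxn : 0 < ‖x‖ := norm_pos_iff.2 hx
  have h1 : ‖(p : ℤ_[p]) ^ M * x‖ = (p : ℝ)⁻¹ ^ M * ‖x‖ := by
    rw [norm_mul, norm_pow, PadicInt.norm_p]
  have h2 : (p : ℝ)⁻¹ ^ (M + 1) * ‖x‖ < (p : ℝ)⁻¹ ^ M * ‖x‖ := by
    refine mul_lt_mul_of_pos_right ?_ hxn
    exact pow_lt_pow_right_of_lt_one₀ (by positivity) (inv_lt_one_of_one_lt₀ hp) (Nat.lt_succ_self M)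
  by_contra hcon
  rw [not_le] at hcon
  have e : (p : ℤ_[p]) ^ M * x = (E x - 1) + (-(E x - 1 - (p : ℤ_[p]) ^ M * x)) := by ring
  have h3 : ‖(p : ℤ_[p]) ^ M * x‖ < (p : ℝ)⁻¹ ^ M * ‖x‖ := by
    rw [e]
    refine (PadicInt.nonarchimedean _ _).trans_lt (max_lt hcon ?_)
    rw [norm_neg]
    exact (hE x).trans_lt h2
  rw [h1] at h3
  exact lt_irrefl _ h3

theorem char_taylor_surj {p : ℕ} [Fact p.Prime] (M : ℕ) (hM : 2 ≤ M) (E : ℤ_[p] → ℤ_[p])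
    (hadd : ∀ x y, E (x + y) = E x * E y)
    (hE : ∀ x, ‖E x - 1 - (p : ℤ_[p]) ^ M * x‖ ≤ (p : ℝ)⁻¹ ^ (M + 1) * ‖x‖) (y : ℤ_[p]) :
    ∃ x, E x = 1 + (p : ℤ_[p]) ^ M * y := by
  have hp : (1 : ℝ) < p := by exact_mod_cast (Fact.out : p.Prime).one_lt
  have hpi : (p : ℝ)⁻¹ < 1 := inv_lt_one_of_one_lt₀ hp
  have hR : ∀ x, ∃ r, E x - 1 - (p : ℤ_[p]) ^ M * x = (p : ℤ_[p]) ^ M * r := by
    intro x
    have h1 : ‖E x - 1 - (p : ℤ_[p]) ^ M * x‖ ≤ (p : ℝ) ^ (-(M : ℤ)) := by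
      refine (hE x).trans ?_
      rw [zpow_neg, zpow_natCast, ← inv_pow]
      calc (p : ℝ)⁻¹ ^ (M + 1) * ‖x‖ ≤ (p : ℝ)⁻¹ ^ M * 1 := by
            refine mul_le_mul ?_ (PadicInt.norm_le_one x) (norm_nonneg _) (by positivity)
            exact pow_le_pow_of_le_one (by positivity) hpi.le (Nat.le_succ M)
        _ = (p : ℝ)⁻¹ ^ M := mul_one _
    rw [PadicInt.norm_le_pow_iff_mem_span_pow, Ideal.mem_span_singleton'] at h1
    obtain ⟨r, hr⟩ := h1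
    exact ⟨r, by rw [← hr]; ring⟩
  choose R hR using hR
  have hlip : ∀ x x', ‖R x - R x'‖ ≤ (p : ℝ)⁻¹ * ‖x - x'‖ := by
    intro x x'
    have h1 : (p : ℤ_[p]) ^ M * (R x - R x') =
        (E (x - x') - 1 - (p : ℤ_[p]) ^ M * (x - x')) + (E x' - 1) * (E (x - x') - 1) := by
      have h2 : E x = E (x - x') * E x' := by rw [← hadd]; congr 1; ring
      rw [mul_sub, ← hR, ← hR, h2]
      ring
    have h2 : ‖(p : ℤ_[p]) ^ M * (R x - R x')‖ ≤ (p : ℝ)⁻¹ ^ (M + 1) * ‖x - x'‖ := by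
      rw [h1]
      refine (PadicInt.nonarchimedean _ _).trans (max_le (hE _) ?_)
      rw [norm_mul]
      have h3 : ‖E x' - 1‖ ≤ (p : ℝ)⁻¹ ^ 1 := by
        refine (char_taylor_le M E hE x').trans ?_
        calc (p : ℝ)⁻¹ ^ M * ‖x'‖ ≤ (p : ℝ)⁻¹ ^ 1 * 1 := by
              refine mul_le_mul ?_ (PadicInt.norm_le_one _) (norm_nonneg _) (by positivity)
              exact pow_le_pow_of_le_one (by positivity) hpi.le (by omega)
          _ = (p : ℝ)⁻¹ ^ 1 := mul_one _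
      calc ‖E x' - 1‖ * ‖E (x - x') - 1‖ ≤ (p : ℝ)⁻¹ ^ 1 * ((p : ℝ)⁻¹ ^ M * ‖x - x'‖) :=
            mul_le_mul h3 (char_taylor_le M E hE _) (norm_nonneg _) (by positivity)
        _ = (p : ℝ)⁻¹ ^ (M + 1) * ‖x - x'‖ := by ring
    rw [norm_mul, norm_pow, PadicInt.norm_p, pow_succ, mul_assoc] at h2
    exact le_of_mul_le_mul_left h2 (by positivity)
  have hC : ContractingWith (⟨(p : ℝ)⁻¹, by positivity⟩ : NNReal) (fun x => y - R x) := by
    refine ⟨by exact_mod_cast hpi, LipschitzWith.of_dist_le_mul fun x x' => ?_⟩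
    rw [dist_eq_norm, dist_eq_norm]
    have e : (y - R x) - (y - R x') = -(R x - R x') := by ring
    rw [e, norm_neg]
    exact hlip x x'
  obtain ⟨x, hx⟩ : ∃ x, y - R x = x :=
    ⟨ContractingWith.fixedPoint _ hC, ContractingWith.fixedPoint_isFixedPt hC⟩
  refine ⟨x, ?_⟩
  have h1 := hR x
  have h2 : y = x + R x := by linear_combination hx
  rw [h2]
  linear_combination h1

open Polynomial in
/-- `f` vanishes to order `n` at `0` -/
def char_taylor_Ap {p : ℕ} [Fact p.Prime] {C : Type*} [NormedField C] (n : ℕ) (f : ℤ_[p] → C) :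
    Prop := ∃ A : ℝ, ∀ x, ‖f x‖ ≤ A * ‖x‖ ^ n

theorem char_taylor_Ap.add {p : ℕ} [Fact p.Prime] {C : Type*} [NormedField C] {n : ℕ}
    {f g : ℤ_[p] → C} (hf : char_taylor_Ap n f) (hg : char_taylor_Ap n g) :
    char_taylor_Ap n (fun x => f x + g x) := by
  obtain ⟨A, hA⟩ := hf
  obtain ⟨B, hB⟩ := hg
  refine ⟨A + B, fun x => (norm_add_le _ _).trans ?_⟩
  rw [add_mul]
  exact add_le_add (hA x) (hB x)

theorem char_taylor_Ap.mul {p : ℕ} [Fact p.Prime] {C : Type*} [NormedField C] {n : ℕ}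
    {f g : ℤ_[p] → C} (hf : char_taylor_Ap n f) (hg : Continuous g) :
    char_taylor_Ap n (fun x => f x * g x) := by
  obtain ⟨A, hA⟩ := hf
  obtain ⟨B, hB⟩ := isCompact_univ.exists_bound_of_continuousOn (f := g) hg.continuousOn
  refine ⟨A * B, fun x => ?_⟩
  rw [norm_mul]
  have h1 := hA x
  have h2 := hB x (Set.mem_univ x)
  calc ‖f x‖ * ‖g x‖ ≤ (A * ‖x‖ ^ n) * B :=
        mul_le_mul h1 h2 (norm_nonneg _) ((norm_nonneg _).trans h1)
    _ = A * B * ‖x‖ ^ n := by ring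

theorem char_taylor_Ap.congr {p : ℕ} [Fact p.Prime] {C : Type*} [NormedField C] {n : ℕ}
    {f g : ℤ_[p] → C} (hf : char_taylor_Ap n f) (h : ∀ x, g x = f x) : char_taylor_Ap n g := by
  obtain ⟨A, hA⟩ := hf
  exact ⟨A, fun x => by rw [h]; exact hA x⟩

theorem char_taylor_Ap.pow_sub {p : ℕ} [Fact p.Prime] {C : Type*} [NormedField C] {n : ℕ}
    {f g : ℤ_[p] → C} (h : char_taylor_Ap n (fun x => f x - g x)) (hf : Continuous f)
    (hg : Continuous g) (j : ℕ) : char_taylor_Ap n (fun x => f x ^ j - g x ^ j) := by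
  induction j with
  | zero => exact ⟨0, fun x => by simp⟩
  | succ j ih =>
    refine ((ih.mul hf).add (h.mul (hg.pow j))).congr fun x => ?_
    simp only [Pi.pow_apply]
    ring

theorem char_taylor_inv {p : ℕ} [Fact p.Prime] {C : Type*} [NormedField C] [NormedAlgebra ℚ_[p] C]
    (I : ℕ) (Y : ℤ_[p] → C) (hY : Continuous Y) (D : Polynomial C) (hD0 : D.eval 0 ≠ 0)
    (hD : char_taylor_Ap (I + 1) (fun x : ℤ_[p] => Y x -
      algebraMap ℚ_[p] C (x : ℚ_[p]) * D.eval (algebraMap ℚ_[p] C (x : ℚ_[p])))) (t : ℕ) :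
    ∀ j : ℕ, j + t = I + 1 → ∀ Q : Polynomial C, ∃ P : Polynomial C,
      char_taylor_Ap (I + 1) (fun x : ℤ_[p] => algebraMap ℚ_[p] C (x : ℚ_[p]) ^ j *
        Q.eval (algebraMap ℚ_[p] C (x : ℚ_[p])) - P.eval (Y x)) := by
  have hcx : Continuous (fun x : ℤ_[p] => algebraMap ℚ_[p] C (x : ℚ_[p])) :=
    (algebraMap_isometry ℚ_[p] C).continuous.comp continuous_subtype_val
  have hcQ : ∀ Q : Polynomial C, Continuous (fun x : ℤ_[p] => Q.eval (algebraMap ℚ_[p] C (x : ℚ_[p]))) :=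
    fun Q => Q.continuous.comp hcx
  induction t with
  | zero =>
    intro j hj Q
    refine ⟨0, ?_⟩
    have h1 : char_taylor_Ap (I + 1) (fun x : ℤ_[p] => algebraMap ℚ_[p] C (x : ℚ_[p]) ^ (I + 1)) := by
      refine ⟨1, fun x => ?_⟩
      rw [norm_pow, norm_algebraMap', one_mul]
      exact le_refl _
    refine (h1.mul (hcQ Q)).congr fun x => ?_
    have : j = I + 1 := by omega
    rw [this]; simp
  | succ t ih =>
    intro j hj Q
    obtain ⟨R, hR⟩ : ∃ R : Polynomial C, R = (D ^ j).divX := ⟨_, rfl⟩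
    have hDj : D ^ j = R * Polynomial.X + Polynomial.C (D.eval 0 ^ j) := by
      rw [hR, ← Polynomial.eval_pow, ← Polynomial.coeff_zero_eq_eval_zero]
      exact (Polynomial.divX_mul_X_add (D ^ j)).symm
    obtain ⟨q, hq⟩ : ∃ q : C, q = Q.eval 0 * (D.eval 0 ^ j)⁻¹ := ⟨_, rfl⟩
    have hQ : Q = Q.divX * Polynomial.X + Polynomial.C (Q.eval 0) := by
      rw [← Polynomial.coeff_zero_eq_eval_zero]
      exact (Polynomial.divX_mul_X_add Q).symm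
    obtain ⟨P, hP⟩ := ih (j + 1) (by omega) (Q.divX - Polynomial.C q * R)
    refine ⟨Polynomial.C q * Polynomial.X ^ j + P, ?_⟩
    have h2 := (hD.pow_sub hY (hcx.mul (hcQ D)) j).mul (g := fun _ => -q) continuous_const
    refine (hP.add h2).congr fun x => ?_
    obtain ⟨X, hX⟩ : ∃ X : C, X = algebraMap ℚ_[p] C (x : ℚ_[p]) := ⟨_, rfl⟩
    simp only [← hX]
    have h3 : D.eval X ^ j = R.eval X * X + D.eval 0 ^ j := by
      rw [← Polynomial.eval_pow, hDj]; simp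
    have h4 : Q.eval X = Q.divX.eval X * X + Q.eval 0 := by
      conv_lhs => rw [hQ]
      simp
    have h5 : q * D.eval 0 ^ j = Q.eval 0 := by
      rw [hq, inv_mul_cancel_right₀ (pow_ne_zero j hD0)]
    simp only [Polynomial.eval_add, Polynomial.eval_mul, Polynomial.eval_C, Polynomial.eval_pow,
      Polynomial.eval_X, Polynomial.eval_sub]
    rw [h4, mul_pow, h3]
    linear_combination (-X ^ j) * h5

theorem char_taylor_trunc {C : Type*} [NormedField C] (I : ℕ) (P : Polynomial C) :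
    ∃ B : ℝ, ∀ y : C, ‖y‖ ≤ 1 →
      ‖P.eval y - ∑ i ∈ Finset.range (I + 1), P.coeff i * y ^ i‖ ≤ B * ‖y‖ ^ (I + 1) := by
  have h1 : Polynomial.X ^ (I + 1) ∣ P - ∑ i ∈ Finset.range (I + 1), Polynomial.C (P.coeff i) * Polynomial.X ^ i := by
    rw [Polynomial.X_pow_dvd_iff]
    intro d hd
    rw [Polynomial.coeff_sub, Polynomial.finsetSum_coeff, Finset.sum_eq_single d]
    · simp
    · intro b _ hb
      rw [Polynomial.coeff_C_mul, Polynomial.coeff_X_pow, if_neg (Ne.symm hb), mul_zero]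
    · intro h
      exact absurd (Finset.mem_range.2 hd) h
  obtain ⟨R, hR⟩ := h1
  refine ⟨∑ i ∈ Finset.range (R.natDegree + 1), ‖R.coeff i‖, fun y hy => ?_⟩
  have h2 := congrArg (Polynomial.eval y) hR
  simp only [Polynomial.eval_sub, Polynomial.eval_finsetSum, Polynomial.eval_mul, Polynomial.eval_C,
    Polynomial.eval_pow, Polynomial.eval_X] at h2
  rw [h2, norm_mul, norm_pow, mul_comm]
  refine mul_le_mul_of_nonneg_right ?_ (by positivity)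
  rw [Polynomial.eval_eq_sum_range]
  refine (norm_sum_le _ _).trans (Finset.sum_le_sum fun i _ => ?_)
  rw [norm_mul, norm_pow]
  exact mul_le_of_le_one_right (norm_nonneg _) (pow_le_one₀ (norm_nonneg _) hy)

theorem char_taylor {p : ℕ} [Fact p.Prime] {C : Type*} [NormedField C] [NormedAlgebra ℚ_[p] C]
    [CompleteSpace C] (ξ : ℚ_[p]ˣ →* Cˣ) (hξ : Continuous ξ) (I : ℕ) :
    ∃ (M0 : ℕ) (c : ℕ → C) (A : ℝ), ∀ y : ℚ_[p], ‖y‖ ≤ (p : ℝ) ^ (-(M0 : ℤ)) → ∀ u : ℚ_[p]ˣ,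
      (u : ℚ_[p]) = 1 + y →
      ‖((ξ u : Cˣ) : C) - ∑ i ∈ Finset.range (I + 1), c i * (algebraMap ℚ_[p] C y) ^ i‖
        ≤ A * ‖y‖ ^ (I + 1) := by
  have hp : (1 : ℝ) < p := by exact_mod_cast (Fact.out : p.Prime).one_lt
  have hpi : (p : ℝ)⁻¹ < 1 := inv_lt_one_of_one_lt₀ hp
  have hpi0 : 0 < (p : ℝ)⁻¹ := by positivity
  obtain ⟨M, hM2, hMξ⟩ : ∃ M : ℕ, 2 ≤ M ∧ ∀ u : ℚ_[p]ˣ, (u : ℚ_[p]) = 1 + (p : ℚ_[p]) ^ M →
      ‖((ξ u : Cˣ) : C) - 1‖ ≤ (p : ℝ)⁻¹ ^ 2 := by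
    have hne : ∀ n : ℕ, (1 : ℚ_[p]) + (p : ℚ_[p]) ^ (n + 1) ≠ 0 := by
      intro n h
      have h1 : (p : ℚ_[p]) ^ (n + 1) = -1 := by linear_combination h
      have h2 := congrArg norm h1
      rw [norm_pow, Padic.norm_p, norm_neg, norm_one] at h2
      have h3 : (p : ℝ)⁻¹ ^ (n + 1) < 1 := pow_lt_one₀ hpi0.le hpi (Nat.succ_ne_zero n)
      exact absurd h2 h3.ne
    have ht : Tendsto (fun n : ℕ => Units.mk0 ((1 : ℚ_[p]) + (p : ℚ_[p]) ^ (n + 1)) (hne n)) atTop (𝓝 1) := by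
      rw [Units.isEmbedding_val₀.tendsto_nhds_iff]
      have h1 : Tendsto (fun n : ℕ => (p : ℚ_[p]) ^ n) atTop (𝓝 0) := by
        rw [tendsto_pow_atTop_nhds_zero_iff_norm_lt_one, Padic.norm_p]
        exact hpi
      have h2 : Tendsto (fun n : ℕ => (1 : ℚ_[p]) + (p : ℚ_[p]) ^ (n + 1)) atTop (𝓝 (1 + 0)) :=
        tendsto_const_nhds.add ((tendsto_add_atTop_iff_nat 1).2 h1)
      rw [add_zero] at h2
      exact h2
    have h3 := ((Units.continuous_val.comp hξ).tendsto 1).comp ht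
    simp only [Function.comp_apply, map_one, Units.val_one] at h3
    obtain ⟨N, hN⟩ := Metric.tendsto_atTop.1 h3 ((p : ℝ)⁻¹ ^ 2) (by positivity)
    refine ⟨N + 2, by omega, fun u hu => ?_⟩
    have h4 := hN (N + 1) (by omega)
    have h5 : u = Units.mk0 ((1 : ℚ_[p]) + (p : ℚ_[p]) ^ (N + 1 + 1)) (hne (N + 1)) := Units.ext hu
    rw [h5]
    rw [dist_eq_norm] at h4
    exact h4.le
  obtain ⟨E, hEc, hadd, hE0, hE1, hE⟩ := char_taylor_exp p M hM2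
  have hEinv : ∀ x, (E x : ℚ_[p]) * (E (-x) : ℚ_[p]) = 1 := by
    intro x
    rw [← PadicInt.coe_mul, ← hadd, add_neg_cancel, hE0, PadicInt.coe_one]
  obtain ⟨Eu, hEu, hEui⟩ : ∃ Eu : ℤ_[p] → ℚ_[p]ˣ, (∀ x, ((Eu x : ℚ_[p]ˣ) : ℚ_[p]) = E x) ∧
      ∀ x, (((Eu x)⁻¹ : ℚ_[p]ˣ) : ℚ_[p]) = E (-x) :=
    ⟨fun x => ⟨(E x : ℚ_[p]), (E (-x) : ℚ_[p]), hEinv x, by rw [mul_comm]; exact hEinv x⟩,
      fun x => rfl, fun x => rfl⟩
  have hEuc : Continuous Eu := by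
    rw [Units.continuous_iff]
    refine ⟨?_, ?_⟩
    · have : (Units.val ∘ Eu) = fun x => (E x : ℚ_[p]) := funext hEu
      rw [this]
      exact continuous_subtype_val.comp hEc
    · have : (fun x => (((Eu x)⁻¹ : ℚ_[p]ˣ) : ℚ_[p])) = fun x => (E (-x) : ℚ_[p]) := funext hEui
      rw [this]
      exact continuous_subtype_val.comp (hEc.comp continuous_neg)
  have hEua : ∀ x y, Eu (x + y) = Eu x * Eu y := by
    intro x y
    apply Units.ext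
    rw [Units.val_mul, hEu, hEu, hEu, hadd, PadicInt.coe_mul]
  have hEu0 : Eu 0 = 1 := by
    apply Units.ext
    rw [hEu, hE0, Units.val_one, PadicInt.coe_one]
  have hEu1 : ((Eu 1 : ℚ_[p]ˣ) : ℚ_[p]) = 1 + (p : ℚ_[p]) ^ M := by
    rw [hEu, hE1, PadicInt.coe_add, PadicInt.coe_one, PadicInt.coe_pow, PadicInt.coe_natCast]
  obtain ⟨e, A₁, he⟩ := mahler_taylor (fun x => ((ξ (Eu x) : Cˣ) : C))
    (Units.continuous_val.comp (hξ.comp hEuc))
    (fun x y => by rw [hEua, map_mul, Units.val_mul]) (by simp only [hEu0, map_one, Units.val_one])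
    (hMξ _ hEu1) I
  have hYn : ∀ x : ℤ_[p], ‖algebraMap ℚ_[p] C (E x : ℚ_[p]) - 1‖ = ‖E x - 1‖ := by
    intro x
    rw [← map_one (algebraMap ℚ_[p] C), ← map_sub, norm_algebraMap', PadicInt.norm_def,
      PadicInt.coe_sub, PadicInt.coe_one]
  have hcE : Continuous (fun x : ℤ_[p] => algebraMap ℚ_[p] C (E x : ℚ_[p])) :=
    (algebraMap_isometry ℚ_[p] C).continuous.comp (continuous_subtype_val.comp hEc)
  obtain ⟨d, A₂, hd⟩ := mahler_taylor (fun x => algebraMap ℚ_[p] C (E x : ℚ_[p])) hcE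
    (fun x y => by rw [hadd, PadicInt.coe_mul, map_mul])
    (by rw [hE0, PadicInt.coe_one, map_one])
    (by
      rw [hYn, hE1, add_sub_cancel_left, norm_pow, PadicInt.norm_p]
      exact pow_le_pow_of_le_one hpi0.le hpi.le hM2) (I + 1)
  have hd0 : d 0 = 1 := by
    have h1 := hd 0
    rw [norm_zero, zero_pow (Nat.succ_ne_zero _), mul_zero, Finset.sum_range_succ'] at h1
    simp only [PadicInt.coe_zero, map_zero, hE0, PadicInt.coe_one, map_one] at h1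
    rw [Finset.sum_eq_zero (fun i _ => by rw [zero_pow (Nat.succ_ne_zero i), mul_zero])] at h1
    rw [pow_zero, mul_one, zero_add] at h1
    have h2 := norm_le_zero_iff.1 h1
    exact (sub_eq_zero.1 h2).symm
  obtain ⟨D, hD⟩ : ∃ D : Polynomial C, D = ∑ i ∈ Finset.range (I + 1),
    Polynomial.C (d (i + 1)) * Polynomial.X ^ i := ⟨_, rfl⟩
  have hDe : ∀ x : ℤ_[p], (algebraMap ℚ_[p] C (E x : ℚ_[p]) - 1) -
      algebraMap ℚ_[p] C (x : ℚ_[p]) * D.eval (algebraMap ℚ_[p] C (x : ℚ_[p])) =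
      algebraMap ℚ_[p] C (E x : ℚ_[p]) -
        ∑ i ∈ Finset.range (I + 1 + 1), d i * (algebraMap ℚ_[p] C (x : ℚ_[p])) ^ i := by
    intro x
    rw [Finset.sum_range_succ', hd0, hD, Polynomial.eval_finsetSum, Finset.mul_sum]
    simp only [Polynomial.eval_mul, Polynomial.eval_C, Polynomial.eval_pow, Polynomial.eval_X]
    have : ∀ i ∈ Finset.range (I + 1), algebraMap ℚ_[p] C (x : ℚ_[p]) *
        (d (i + 1) * algebraMap ℚ_[p] C (x : ℚ_[p]) ^ i) =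
        d (i + 1) * algebraMap ℚ_[p] C (x : ℚ_[p]) ^ (i + 1) := fun i _ => by ring
    rw [Finset.sum_congr rfl this]
    ring
  have hAp2 : ∀ x : ℤ_[p], ‖(algebraMap ℚ_[p] C (E x : ℚ_[p]) - 1) -
      algebraMap ℚ_[p] C (x : ℚ_[p]) * D.eval (algebraMap ℚ_[p] C (x : ℚ_[p]))‖ ≤
      |A₂| * ‖x‖ ^ (I + 2) := by
    intro x
    rw [hDe]
    exact (hd x).trans (mul_le_mul_of_nonneg_right (le_abs_self _) (by positivity))
  have hx1 : ∀ x : ℤ_[p], ‖x‖ ≤ 1 := PadicInt.norm_le_one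
  have hcx : Continuous (fun x : ℤ_[p] => algebraMap ℚ_[p] C (x : ℚ_[p])) :=
    (algebraMap_isometry ℚ_[p] C).continuous.comp continuous_subtype_val
  have hD0 : D.eval 0 ≠ 0 := by
    intro h0
    have h1 : D = D.divX * Polynomial.X := by
      conv_lhs => rw [← Polynomial.divX_mul_X_add D, Polynomial.coeff_zero_eq_eval_zero, h0]
      simp
    obtain ⟨B, hB⟩ := isCompact_univ.exists_bound_of_continuousOn
      (f := fun x : ℤ_[p] => D.divX.eval (algebraMap ℚ_[p] C (x : ℚ_[p])))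
      (D.divX.continuous.comp hcx).continuousOn
    obtain ⟨T, hT⟩ : ∃ T : ℝ, T = |A₂| + |B| := ⟨_, rfl⟩
    have hT0 : 0 ≤ T := by rw [hT]; positivity
    have h2 : ∀ x : ℤ_[p], (p : ℝ)⁻¹ ^ M * ‖x‖ ≤ T * ‖x‖ ^ 2 := by
      intro x
      refine (char_taylor_ge M E hE x).trans ?_
      rw [← hYn]
      have h3 : (algebraMap ℚ_[p] C (E x : ℚ_[p]) - 1) = ((algebraMap ℚ_[p] C (E x : ℚ_[p]) - 1) -
          algebraMap ℚ_[p] C (x : ℚ_[p]) * D.eval (algebraMap ℚ_[p] C (x : ℚ_[p]))) +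
          algebraMap ℚ_[p] C (x : ℚ_[p]) ^ 2 * D.divX.eval (algebraMap ℚ_[p] C (x : ℚ_[p])) := by
        have h4 : D.eval (algebraMap ℚ_[p] C (x : ℚ_[p])) =
            D.divX.eval (algebraMap ℚ_[p] C (x : ℚ_[p])) * algebraMap ℚ_[p] C (x : ℚ_[p]) := by
          conv_lhs => rw [h1]
          simp
        rw [h4]; ring
      rw [h3]
      refine (norm_add_le _ _).trans ?_
      rw [hT, add_mul]
      refine add_le_add ((hAp2 x).trans (mul_le_mul_of_nonneg_left ?_ (abs_nonneg _))) ?_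
      · exact pow_le_pow_of_le_one (norm_nonneg _) (hx1 x) (by omega)
      · rw [norm_mul, norm_pow, norm_algebraMap', mul_comm]
        exact mul_le_mul_of_nonneg_right ((hB x (Set.mem_univ x)).trans (le_abs_self _)) (by positivity)
    obtain ⟨k, hk⟩ := exists_pow_lt_of_lt_one (show (0 : ℝ) < (p : ℝ)⁻¹ ^ M / (T + 1) by positivity) hpi
    have h5 := h2 ((p : ℤ_[p]) ^ k)
    rw [norm_pow, PadicInt.norm_p, sq, ← mul_assoc] at h5
    have h6 := le_of_mul_le_mul_right h5 (by positivity)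
    rw [lt_div_iff₀ (by positivity)] at hk
    nlinarith [pow_pos hpi0 k]
  obtain ⟨Q, hQ⟩ : ∃ Q : Polynomial C, Q = ∑ i ∈ Finset.range (I + 1),
    Polynomial.C (e i) * Polynomial.X ^ i := ⟨_, rfl⟩
  obtain ⟨P, A₃, hP⟩ := char_taylor_inv I (fun x : ℤ_[p] => algebraMap ℚ_[p] C (E x : ℚ_[p]) - 1)
    (hcE.sub continuous_const) D hD0 ⟨|A₂|, fun x => (hAp2 x).trans (mul_le_mul_of_nonneg_left
      (pow_le_pow_of_le_one (norm_nonneg _) (hx1 x) (Nat.le_succ _)) (abs_nonneg _))⟩ (I + 1) 0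
    (by omega) Q
  obtain ⟨B, hB⟩ := char_taylor_trunc I P
  refine ⟨M, P.coeff, (|A₁| + |A₃|) * ((p : ℝ) ^ M) ^ (I + 1) + B, ?_⟩
  intro y hy u hu
  obtain ⟨y', hy'⟩ : ∃ y' : ℤ_[p], y = (p : ℚ_[p]) ^ M * (y' : ℚ_[p]) := by
    have hpM : (p : ℚ_[p]) ^ M ≠ 0 := pow_ne_zero _ (by exact_mod_cast (Fact.out : p.Prime).ne_zero)
    refine ⟨⟨y / (p : ℚ_[p]) ^ M, ?_⟩, ?_⟩
    · rw [norm_div, norm_pow, Padic.norm_p, div_le_one (by positivity), inv_pow]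
      rw [zpow_neg, zpow_natCast] at hy
      exact hy
    · change y = (p : ℚ_[p]) ^ M * (y / (p : ℚ_[p]) ^ M)
      field_simp
  obtain ⟨x, hx⟩ := char_taylor_surj M hM2 E hadd hE y'
  have hxy : (E x : ℚ_[p]) = 1 + y := by
    rw [hx, hy', PadicInt.coe_add, PadicInt.coe_one, PadicInt.coe_mul, PadicInt.coe_pow,
      PadicInt.coe_natCast]
  have hux : Eu x = u := by
    apply Units.ext
    rw [hEu, hxy, hu]
  have hYy : algebraMap ℚ_[p] C (E x : ℚ_[p]) - 1 = algebraMap ℚ_[p] C y := by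
    rw [hxy, map_add, map_one, add_sub_cancel_left]
  have hyx : (p : ℝ)⁻¹ ^ M * ‖x‖ ≤ ‖y‖ := by
    have h1 := char_taylor_ge M E hE x
    rw [← hYn x, hYy, norm_algebraMap'] at h1
    exact h1
  have hxn : ‖x‖ ≤ (p : ℝ) ^ M * ‖y‖ := by
    rw [inv_pow, inv_mul_le_iff₀ (by positivity)] at hyx
    exact hyx
  have hxI : ‖x‖ ^ (I + 1) ≤ ((p : ℝ) ^ M) ^ (I + 1) * ‖y‖ ^ (I + 1) := by
    rw [← mul_pow]
    exact pow_le_pow_left₀ (norm_nonneg _) hxn _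
  have hy1 : ‖algebraMap ℚ_[p] C y‖ ≤ 1 := by
    rw [norm_algebraMap']
    refine hy.trans ?_
    rw [zpow_neg, zpow_natCast]
    exact inv_le_one_of_one_le₀ (one_le_pow₀ hp.le)
  have k1 := he x
  have k2 := hP x
  have k3 := hB (algebraMap ℚ_[p] C y) hy1
  simp only [hYy, pow_zero, one_mul] at k2
  rw [norm_algebraMap'] at k3
  have k4 : Q.eval (algebraMap ℚ_[p] C (x : ℚ_[p])) =
      ∑ i ∈ Finset.range (I + 1), e i * (algebraMap ℚ_[p] C (x : ℚ_[p])) ^ i := by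
    rw [hQ, Polynomial.eval_finsetSum]
    simp only [Polynomial.eval_mul, Polynomial.eval_C, Polynomial.eval_pow, Polynomial.eval_X]
  rw [← k4, hux] at k1
  have k5 : ((ξ u : Cˣ) : C) - ∑ i ∈ Finset.range (I + 1), P.coeff i * (algebraMap ℚ_[p] C y) ^ i =
      (((ξ u : Cˣ) : C) - Q.eval (algebraMap ℚ_[p] C (x : ℚ_[p]))) +
      (Q.eval (algebraMap ℚ_[p] C (x : ℚ_[p])) - P.eval (algebraMap ℚ_[p] C y)) +
      (P.eval (algebraMap ℚ_[p] C y) -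
        ∑ i ∈ Finset.range (I + 1), P.coeff i * (algebraMap ℚ_[p] C y) ^ i) := by ring
  rw [k5]
  refine (norm_add₃_le).trans ?_
  have k6 : ‖((ξ u : Cˣ) : C) - Q.eval (algebraMap ℚ_[p] C (x : ℚ_[p]))‖ ≤ |A₁| * ‖x‖ ^ (I + 1) :=
    k1.trans (mul_le_mul_of_nonneg_right (le_abs_self _) (by positivity))
  have k7 : ‖Q.eval (algebraMap ℚ_[p] C (x : ℚ_[p])) - P.eval (algebraMap ℚ_[p] C y)‖ ≤
      |A₃| * ‖x‖ ^ (I + 1) :=
    k2.trans (mul_le_mul_of_nonneg_right (le_abs_self _) (by positivity))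
  have k8 : (|A₁| + |A₃|) * ‖x‖ ^ (I + 1) ≤
      (|A₁| + |A₃|) * (((p : ℝ) ^ M) ^ (I + 1) * ‖y‖ ^ (I + 1)) :=
    mul_le_mul_of_nonneg_left hxI (by positivity)
  calc _ ≤ |A₁| * ‖x‖ ^ (I + 1) + |A₃| * ‖x‖ ^ (I + 1) + B * ‖y‖ ^ (I + 1) :=
        add_le_add (add_le_add k6 k7) k3
    _ ≤ ((|A₁| + |A₃|) * ((p : ℝ) ^ M) ^ (I + 1) + B) * ‖y‖ ^ (I + 1) := by linarith
end Pool.Agent.Helper911
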