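import Mathlib
import Pool.Agent.Helper911_T3.PB

set_option autoImplicit false
set_option linter.unusedSectionVars false
set_option maxHeartbeats 1000000

noncomputable section

open Topology Filter

namespace Pool.Agent.Helper911


/-! ======= MORE GIVEN (proved elsewhere, you may use them) ======= -/

/-! ======= TARGETS ======= -/

theorem moment_bound_conv {C : Type*} [NormedField C] (I : ℕ) (e c : ℕ → C) (A K : ℝ)
    (hA : 0 ≤ A) (he : ∀ i, ‖e i‖ ≤ A) (hK : ∑ j ∈ Finset.range (I + 1), ‖c j‖ ≤ K) :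
    ∃ g : ℕ → C, (∀ k, ‖g k‖ ≤ (I + 1) * A * K) ∧ ∀ T : C, ‖T‖ ≤ 1 →
      ‖(∑ i ∈ Finset.range (I + 1), e i * T ^ i) * (∑ j ∈ Finset.range (I + 1), c j * T ^ j) -
        ∑ k ∈ Finset.range (I + 1), g k * T ^ k‖ ≤ (I + 1) * A * K * ‖T‖ ^ (I + 1) := by
  classical
  have hsum : ∑ x ∈ Finset.range (I + 1) ×ˢ Finset.range (I + 1), ‖e x.1‖ * ‖c x.2‖ ≤
      (I + 1) * A * K := by
    rw [Finset.sum_product]
    have h1 : ∀ i ∈ Finset.range (I + 1), ∑ j ∈ Finset.range (I + 1), ‖e i‖ * ‖c j‖ ≤ A * K := by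
      intro i _
      rw [← Finset.mul_sum]
      exact mul_le_mul (he i) hK (Finset.sum_nonneg fun j _ => norm_nonneg _) hA
    refine (Finset.sum_le_sum h1).trans ?_
    rw [Finset.sum_const, Finset.card_range, nsmul_eq_mul]
    push_cast
    apply le_of_eq
    ring
  refine ⟨fun k => ∑ x ∈ (Finset.range (I + 1) ×ˢ Finset.range (I + 1)).filter
    (fun x : ℕ × ℕ => x.1 + x.2 = k), e x.1 * c x.2, ?_, ?_⟩
  · intro k
    refine (norm_sum_le _ _).trans (le_trans ?_ hsum)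
    refine (Finset.sum_le_sum_of_subset_of_nonneg (Finset.filter_subset _ _)
      (fun x _ _ => norm_nonneg _)).trans ?_
    exact Finset.sum_le_sum fun x _ => (norm_mul _ _).le
  · intro T hT
    have e1 : (∑ i ∈ Finset.range (I + 1), e i * T ^ i) * (∑ j ∈ Finset.range (I + 1), c j * T ^ j)
        = ∑ x ∈ Finset.range (I + 1) ×ˢ Finset.range (I + 1),
          e x.1 * c x.2 * T ^ (x.1 + x.2) := by
      rw [Finset.sum_mul_sum, Finset.sum_product]
      refine Finset.sum_congr rfl fun i _ => Finset.sum_congr rfl fun j _ => ?_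
      rw [pow_add]
      ring
    have e2 : ∑ k ∈ Finset.range (I + 1), (∑ x ∈ (Finset.range (I + 1) ×ˢ
        Finset.range (I + 1)).filter (fun x : ℕ × ℕ => x.1 + x.2 = k), e x.1 * c x.2) * T ^ k =
        ∑ x ∈ (Finset.range (I + 1) ×ˢ Finset.range (I + 1)).filter (fun x : ℕ × ℕ => x.1 + x.2 < I + 1),
          e x.1 * c x.2 * T ^ (x.1 + x.2) := by
      rw [← Finset.sum_fiberwise_of_maps_to (t := Finset.range (I + 1)) (g := fun x : ℕ × ℕ => x.1 + x.2)]
      · refine Finset.sum_congr rfl fun k hk => ?_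
        rw [Finset.sum_mul, Finset.filter_filter]
        have hk' := Finset.mem_range.1 hk
        have h3 : (Finset.range (I + 1) ×ˢ Finset.range (I + 1)).filter
            (fun x : ℕ × ℕ => x.1 + x.2 = k) = (Finset.range (I + 1) ×ˢ Finset.range (I + 1)).filter
            (fun x : ℕ × ℕ => x.1 + x.2 < I + 1 ∧ x.1 + x.2 = k) := by
          apply Finset.filter_congr
          intro x _
          constructor
          · intro h; exact ⟨by omega, h⟩
          · intro h; exact h.2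
        rw [h3]
        refine Finset.sum_congr rfl fun x hx => ?_
        rw [(Finset.mem_filter.1 hx).2.2]
      · intro x hx
        exact Finset.mem_range.2 (Finset.mem_filter.1 hx).2
    rw [e1, e2, ← Finset.sum_filter_add_sum_filter_not
      (Finset.range (I + 1) ×ˢ Finset.range (I + 1)) (fun x : ℕ × ℕ => x.1 + x.2 < I + 1),
      add_sub_cancel_left]
    calc ‖∑ x ∈ (Finset.range (I + 1) ×ˢ Finset.range (I + 1)).filter
          (fun x : ℕ × ℕ => ¬ x.1 + x.2 < I + 1), e x.1 * c x.2 * T ^ (x.1 + x.2)‖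
        ≤ ∑ x ∈ (Finset.range (I + 1) ×ˢ Finset.range (I + 1)).filter
          (fun x : ℕ × ℕ => ¬ x.1 + x.2 < I + 1), ‖e x.1 * c x.2 * T ^ (x.1 + x.2)‖ := norm_sum_le _ _
      _ ≤ ∑ x ∈ (Finset.range (I + 1) ×ˢ Finset.range (I + 1)).filter
          (fun x : ℕ × ℕ => ¬ x.1 + x.2 < I + 1), ‖e x.1‖ * ‖c x.2‖ * ‖T‖ ^ (I + 1) := by
          refine Finset.sum_le_sum fun x hx => ?_
          rw [norm_mul, norm_mul, norm_pow]
          refine mul_le_mul_of_nonneg_left ?_ (by positivity)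
          exact pow_le_pow_of_le_one (norm_nonneg _) hT (not_lt.1 (Finset.mem_filter.1 hx).2)
      _ ≤ ∑ x ∈ Finset.range (I + 1) ×ˢ Finset.range (I + 1),
          ‖e x.1‖ * ‖c x.2‖ * ‖T‖ ^ (I + 1) :=
          Finset.sum_le_sum_of_subset_of_nonneg (Finset.filter_subset _ _)
            (fun x _ _ => by positivity)
      _ = (∑ x ∈ Finset.range (I + 1) ×ˢ Finset.range (I + 1), ‖e x.1‖ * ‖c x.2‖) *
          ‖T‖ ^ (I + 1) := by rw [Finset.sum_mul]
      _ ≤ _ := mul_le_mul_of_nonneg_right hsum (by positivity)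

theorem moment_bound_norm {p : ℕ} [Fact p.Prime] {C : Type*} [NormedField C]
    [NormedAlgebra ℚ_[p] C] (x : ℚ_[p]) : ‖algebraMap ℚ_[p] C x‖ = ‖x‖ := norm_algebraMap' C x

theorem moment_bound_prod {p : ℕ} [Fact p.Prime] {C : Type*} [NormedField C]
    [NormedAlgebra ℚ_[p] C] [CompleteSpace C] {S : Type*} (ξ : S → (ℚ_[p]ˣ →* Cˣ))
    (hξ : ∀ s, Continuous (ξ s)) (I : ℕ) (S' : Finset S) :
    ∃ (M0 : ℕ) (A : ℝ), 0 ≤ A ∧ ∀ d : S → ℚ_[p], (∀ s, ‖d s‖ ≤ 1) →
      ∃ e : ℕ → C, (∀ i, ‖e i‖ ≤ A) ∧ ∀ T : ℚ_[p], ‖T‖ ≤ (p : ℝ) ^ (-(M0 : ℤ)) →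
        ∀ u : S → ℚ_[p]ˣ, (∀ s, (u s : ℚ_[p]) = 1 + T * d s) →
        ‖∏ s ∈ S', ((ξ s (u s) : Cˣ) : C) -
          ∑ i ∈ Finset.range (I + 1), e i * (algebraMap ℚ_[p] C T) ^ i‖ ≤ A * ‖T‖ ^ (I + 1) := by
  classical
  have hp1 : (1 : ℝ) ≤ p := by exact_mod_cast (Fact.out : p.Prime).one_lt.le
  have hp0 : (0 : ℝ) < p := by linarith
  have hple : ∀ M : ℕ, (p : ℝ) ^ (-(M : ℤ)) ≤ 1 := fun M =>
    zpow_le_one_of_nonpos₀ hp1 (by omega)
  induction S' using Finset.induction_on with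
  | empty =>
    refine ⟨0, 1, zero_le_one, fun d _ => ⟨fun i => if i = 0 then 1 else 0, ?_, ?_⟩⟩
    · intro i
      by_cases h : i = 0 <;> simp [h]
    · intro T _ u _
      have h1 : ∑ i ∈ Finset.range (I + 1), (if i = 0 then (1 : C) else 0) *
          (algebraMap ℚ_[p] C T) ^ i = 1 := by
        rw [Finset.sum_eq_single 0]
        · simp
        · intro b _ hb
          simp [hb]
        · intro h
          exact absurd (Finset.mem_range.2 (Nat.succ_pos I)) h
      rw [h1]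
      simp only [Finset.prod_empty, sub_self, norm_zero]
      positivity
  | insert s S' hs ih =>
    obtain ⟨M0, A, hA, ih⟩ := ih
    obtain ⟨M1, c, A1, h1⟩ := char_taylor (ξ s) (hξ s) I
    set K : ℝ := ∑ j ∈ Finset.range (I + 1), ‖c j‖ with hK
    have hK0 : 0 ≤ K := Finset.sum_nonneg fun j _ => norm_nonneg _
    refine ⟨max M0 M1, A * (K + |A1|) + (I + 1) * A * |A1| + (I + 1) * A * K,
      by positivity, fun d hd => ?_⟩
    obtain ⟨e, he, h2⟩ := ih d hd
    have hc' : ∑ j ∈ Finset.range (I + 1), ‖c j * (algebraMap ℚ_[p] C (d s)) ^ j‖ ≤ K := by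
      refine Finset.sum_le_sum fun j _ => ?_
      rw [norm_mul, norm_pow, moment_bound_norm]
      exact mul_le_of_le_one_right (norm_nonneg _) (pow_le_one₀ (norm_nonneg _) (hd s))
    obtain ⟨g, hg, h3⟩ := moment_bound_conv I e (fun j => c j * (algebraMap ℚ_[p] C (d s)) ^ j)
      A K hA he hc'
    refine ⟨g, fun k => (hg k).trans ?_, ?_⟩
    · have : 0 ≤ A * (K + |A1|) + (I + 1) * A * |A1| := by positivity
      linarith
    · intro T hT u hu
      have hT0 : ‖T‖ ≤ (p : ℝ) ^ (-(M0 : ℤ)) := hT.trans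
        (zpow_le_zpow_right₀ hp1 (by
          have : ((M0 : ℕ) : ℤ) ≤ ((max M0 M1 : ℕ) : ℤ) := by exact_mod_cast le_max_left _ _
          omega))
      have hT1 : ‖T‖ ≤ (p : ℝ) ^ (-(M1 : ℤ)) := hT.trans
        (zpow_le_zpow_right₀ hp1 (by
          have : ((M1 : ℕ) : ℤ) ≤ ((max M0 M1 : ℕ) : ℤ) := by exact_mod_cast le_max_right _ _
          omega))
      have hT2 : ‖T‖ ≤ 1 := hT0.trans (hple M0)
      have hTC : ‖algebraMap ℚ_[p] C T‖ = ‖T‖ := moment_bound_norm T
      have hTd : ‖T * d s‖ ≤ ‖T‖ := by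
        rw [norm_mul]
        exact mul_le_of_le_one_right (norm_nonneg _) (hd s)
      rw [Finset.prod_insert hs, mul_comm]
      have b1 := h2 T hT0 u hu
      have b2 := h1 (T * d s) (hTd.trans hT1) (u s) (hu s)
      have b3 := h3 (algebraMap ℚ_[p] C T) (by rw [hTC]; exact hT2)
      rw [hTC] at b3
      set X : C := ∏ s ∈ S', ((ξ s (u s) : Cˣ) : C) with hX
      set Y : C := ((ξ s (u s) : Cˣ) : C) with hY
      set P : C := ∑ i ∈ Finset.range (I + 1), e i * (algebraMap ℚ_[p] C T) ^ i with hP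
      set R : C := ∑ k ∈ Finset.range (I + 1), g k * (algebraMap ℚ_[p] C T) ^ k with hR
      have hQ : ∑ i ∈ Finset.range (I + 1), c i * (algebraMap ℚ_[p] C (T * d s)) ^ i =
          ∑ j ∈ Finset.range (I + 1), c j * (algebraMap ℚ_[p] C (d s)) ^ j *
            (algebraMap ℚ_[p] C T) ^ j := by
        refine Finset.sum_congr rfl fun j _ => ?_
        rw [map_mul, mul_pow]
        ring
      rw [hQ] at b2
      set Q : C := ∑ j ∈ Finset.range (I + 1), c j * (algebraMap ℚ_[p] C (d s)) ^ j *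
            (algebraMap ℚ_[p] C T) ^ j with hQdef
      have hpw : 0 ≤ ‖T‖ ^ (I + 1) := by positivity
      have b2' : ‖Y - Q‖ ≤ |A1| * ‖T‖ ^ (I + 1) := by
        refine b2.trans ?_
        have h5 : ‖T * d s‖ ^ (I + 1) ≤ ‖T‖ ^ (I + 1) := pow_le_pow_left₀ (norm_nonneg _) hTd _
        calc A1 * ‖T * d s‖ ^ (I + 1) ≤ |A1| * ‖T * d s‖ ^ (I + 1) :=
              mul_le_mul_of_nonneg_right (le_abs_self _) (by positivity)
          _ ≤ |A1| * ‖T‖ ^ (I + 1) := mul_le_mul_of_nonneg_left h5 (abs_nonneg _)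
      have hpw1 : ‖T‖ ^ (I + 1) ≤ 1 := pow_le_one₀ (norm_nonneg _) hT2
      have nQ : ‖Q‖ ≤ K := by
        refine (norm_sum_le _ _).trans (le_trans ?_ hc')
        refine Finset.sum_le_sum fun j _ => ?_
        rw [norm_mul _ (algebraMap ℚ_[p] C T ^ j), norm_pow, hTC]
        exact mul_le_of_le_one_right (norm_nonneg _) (pow_le_one₀ (norm_nonneg _) hT2)
      have nP : ‖P‖ ≤ (I + 1) * A := by
        refine (norm_sum_le _ _).trans ?_
        have h5 : ∀ i ∈ Finset.range (I + 1), ‖e i * (algebraMap ℚ_[p] C T) ^ i‖ ≤ A := by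
          intro i _
          rw [norm_mul, norm_pow, hTC]
          exact (mul_le_of_le_one_right (norm_nonneg _)
            (pow_le_one₀ (norm_nonneg _) hT2)).trans (he i)
        refine (Finset.sum_le_sum h5).trans ?_
        rw [Finset.sum_const, Finset.card_range, nsmul_eq_mul]
        push_cast
        exact le_rfl
      have nY : ‖Y‖ ≤ K + |A1| := by
        have h5 : Y = Q + (Y - Q) := by ring
        rw [h5]
        refine (norm_add_le _ _).trans (add_le_add nQ (b2'.trans ?_))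
        exact mul_le_of_le_one_right (abs_nonneg _) hpw1
      have hdec : X * Y - R = (X - P) * Y + P * (Y - Q) + (P * Q - R) := by ring
      rw [hdec]
      refine (norm_add_le _ _).trans ?_
      have f1 : ‖(X - P) * Y + P * (Y - Q)‖ ≤
          A * ‖T‖ ^ (I + 1) * (K + |A1|) + (I + 1) * A * (|A1| * ‖T‖ ^ (I + 1)) := by
        refine (norm_add_le _ _).trans (add_le_add ?_ ?_)
        · rw [norm_mul]
          exact mul_le_mul b1 nY (norm_nonneg _) (by positivity)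
        · rw [norm_mul]
          exact mul_le_mul nP b2' (norm_nonneg _) (by positivity)
      have f2 : (A * (K + |A1|) + (I + 1) * A * |A1| + (I + 1) * A * K) * ‖T‖ ^ (I + 1) =
          A * ‖T‖ ^ (I + 1) * (K + |A1|) + (I + 1) * A * (|A1| * ‖T‖ ^ (I + 1)) +
          (I + 1) * A * K * ‖T‖ ^ (I + 1) := by ring
      rw [f2]
      exact add_le_add f1 b3

/-- TARGET.
Proof. The norm of `C` is ultrametric (it extends that of `ℚ_[p]`). Let `M0`, `c^s_i`, `A_s` be from `char_taylor` for the `ξ s` (take the maximum of the `M0`'s). For fixed `d` and `T` with `‖T‖ ≤ p^(-M0) ≤ 1`: `ξ s (1 + T d_s) = ∑_{i ≤ I} c^s_i (T d_s)^i + O(‖T‖^(I+1))`, with constants independent of `d`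
(`‖d_s‖ ≤ 1`), so the product over `s` (induction over the finite set `S`, all factors bounded by constants independent of `d`, `T`) is `∑_{i ≤ I} e_i T^i + O(‖T‖^(I+1))` with `e_i ∈ C` depending on `d` (not on `T`), bounded, and a constant `A ≥ 0` in the error term independent of `d` (expand and drop the terms of degree `> I`, which are
`O(‖T‖^(I+1))` as `‖T‖ ≤ 1`). Apply it to `T = t v`, `v ∈ J` (`‖t v‖ ≤ ‖v‖ ≤ p^(-M0)`): `∑_v a v (∑_{i ≤ I} e_i (t v)^i) = ∑_i e_i t^i ∑_v a v v^i = 0`, and the error terms give `B A ‖t v‖^(I+1) ≤ B A ‖t‖^(I+1)` (if `J` is empty the sum is `0`; note the case `B < 0` only occurs when `J` is empty: then the left side is `0`, and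
you need `0 ≤ B * A * ..`: choose the statement's reading with `J` nonempty or handle `J = ∅` separately; if `J = ∅` and `B < 0` the inequality can fail, so first replace... see the remark).
REMARK: to avoid the degenerate case an extra hypothesis `0 ≤ B` has been added. -/
theorem moment_bound {p : ℕ} [Fact p.Prime] {C : Type*} [NormedField C] [NormedAlgebra ℚ_[p] C]
    [CompleteSpace C] {S : Type*} [Fintype S] (ξ : S → (ℚ_[p]ˣ →* Cˣ)) (hξ : ∀ s, Continuous (ξ s))
    (I : ℕ) :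
    ∃ (M0 : ℕ) (A : ℝ), 0 ≤ A ∧ ∀ (J : Finset ℚ_[p]) (a : ℚ_[p] → C) (B : ℝ),
      (∀ v ∈ J, ‖v‖ ≤ (p : ℝ) ^ (-(M0 : ℤ))) → (∀ v ∈ J, ‖a v‖ ≤ B) → 0 ≤ B →
      (∀ i ≤ I, ∑ v ∈ J, a v * (algebraMap ℚ_[p] C v) ^ i = 0) →
      ∀ (d : S → ℚ_[p]) (t : ℚ_[p]), (∀ s, ‖d s‖ ≤ 1) → ‖t‖ ≤ 1 →
      ∀ u : S → ℚ_[p] → ℚ_[p]ˣ, (∀ s, ∀ v ∈ J, (u s v : ℚ_[p]) = 1 + t * v * d s) →
        ‖∑ v ∈ J, a v * ∏ s, ((ξ s (u s v) : Cˣ) : C)‖ ≤ B * A * ‖t‖ ^ (I + 1) := by
  classical
  obtain ⟨M0, A, hA, h⟩ := moment_bound_prod ξ hξ I (Finset.univ : Finset S)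
  refine ⟨M0, A, hA, ?_⟩
  intro J a B hJ ha hB hmom d t hd ht u hu
  obtain ⟨e, -, he⟩ := h d hd
  have hult : IsUltrametricDist C := by
    refine IsUltrametricDist.isUltrametricDist_of_forall_norm_natCast_le_one fun n => ?_
    have h1 : ((n : ℕ) : C) = algebraMap ℚ_[p] C (n : ℚ_[p]) := by simp
    rw [h1, moment_bound_norm]
    exact_mod_cast Padic.norm_int_le_one (p := p) (n : ℤ)
  have hzero : ∑ v ∈ J, a v * ∑ i ∈ Finset.range (I + 1),
      e i * (algebraMap ℚ_[p] C (t * v)) ^ i = 0 := by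
    have h1 : ∀ v ∈ J, a v * ∑ i ∈ Finset.range (I + 1),
        e i * (algebraMap ℚ_[p] C (t * v)) ^ i =
        ∑ i ∈ Finset.range (I + 1), e i * (algebraMap ℚ_[p] C t) ^ i *
          (a v * (algebraMap ℚ_[p] C v) ^ i) := by
      intro v _
      rw [Finset.mul_sum]
      refine Finset.sum_congr rfl fun i _ => ?_
      rw [map_mul, mul_pow]
      ring
    rw [Finset.sum_congr rfl h1, Finset.sum_comm]
    refine Finset.sum_eq_zero fun i hi => ?_
    rw [← Finset.mul_sum, hmom i (Nat.lt_succ_iff.1 (Finset.mem_range.1 hi)), mul_zero]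
  have hdec : ∑ v ∈ J, a v * ∏ s, ((ξ s (u s v) : Cˣ) : C) =
      ∑ v ∈ J, a v * (∏ s, ((ξ s (u s v) : Cˣ) : C) - ∑ i ∈ Finset.range (I + 1),
        e i * (algebraMap ℚ_[p] C (t * v)) ^ i) := by
    simp only [mul_sub]
    rw [Finset.sum_sub_distrib, hzero, sub_zero]
  rw [hdec]
  refine IsUltrametricDist.norm_sum_le_of_forall_le_of_nonneg (by positivity) fun v hv => ?_
  rw [norm_mul]
  have hv1 : ‖v‖ ≤ 1 := (hJ v hv).trans
    (zpow_le_one_of_nonpos₀ (by exact_mod_cast (Fact.out : p.Prime).one_lt.le) (by omega))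
  have htv : ‖t * v‖ ≤ ‖v‖ := by
    rw [norm_mul]
    exact mul_le_of_le_one_left (norm_nonneg _) ht
  have htv2 : ‖t * v‖ ≤ ‖t‖ := by
    rw [norm_mul]
    exact mul_le_of_le_one_right (norm_nonneg _) hv1
  have h2 := he (t * v) (htv.trans (hJ v hv)) (fun s => u s v) (fun s => hu s v hv)
  calc _ ≤ B * (A * ‖t * v‖ ^ (I + 1)) := mul_le_mul (ha v hv) h2 (norm_nonneg _) hB
    _ ≤ B * (A * ‖t‖ ^ (I + 1)) := by
        apply mul_le_mul_of_nonneg_left _ hB
        apply mul_le_mul_of_nonneg_left _ hA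
        exact pow_le_pow_left₀ (norm_nonneg _) htv2 _
    _ = B * A * ‖t‖ ^ (I + 1) := by ring
end Pool.Agent.Helper911
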