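import Mathlib

set_option autoImplicit false
set_option linter.unusedSectionVars false
set_option maxHeartbeats 1000000

noncomputable section

open Topology Filter

namespace Pool.Agent.Helper911


/-! ======= TARGETS ======= -/

/-- the unit `p^(M0+k)` -/
private noncomputable def mexU (p : ℕ) [Fact p.Prime] (M0 k : ℕ) : ℚ_[p]ˣ :=
  Units.mk0 ((p : ℚ_[p]) ^ (M0 + k))
    (pow_ne_zero _ (Nat.cast_ne_zero.2 (Fact.out : p.Prime).ne_zero))

private lemma mexU_norm (p : ℕ) [Fact p.Prime] (M0 k : ℕ) :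
    ‖((mexU p M0 k : ℚ_[p]ˣ) : ℚ_[p])‖ ≤ (p : ℝ) ^ (-(M0 : ℤ)) := by
  have hp1 : (1 : ℝ) ≤ p := by exact_mod_cast (Fact.out : p.Prime).one_le
  have : ((mexU p M0 k : ℚ_[p]ˣ) : ℚ_[p]) = (p : ℚ_[p]) ^ (M0 + k) := rfl
  rw [this, Padic.norm_p_pow]
  exact zpow_le_zpow_right₀ hp1 (by push_cast; omega)

private lemma mexU_inj (p : ℕ) [Fact p.Prime] (M0 : ℕ) : Function.Injective (mexU p M0) := by
  intro a b h
  have h1 : (p : ℚ_[p]) ^ (M0 + a) = (p : ℚ_[p]) ^ (M0 + b) := congrArg Units.val h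
  have h2 := congrArg norm h1
  rw [Padic.norm_p_pow, Padic.norm_p_pow] at h2
  have hp1 : (1 : ℝ) < p := by exact_mod_cast (Fact.out : p.Prime).one_lt
  have h3 := zpow_right_injective₀ (by linarith) hp1.ne' h2
  push_cast at h3
  omega

/-- TARGET. -/
theorem moment_exists {p : ℕ} [Fact p.Prime] {C : Type*} [NormedField C] [NormedAlgebra ℚ_[p] C]
    (ξ : ℚ_[p]ˣ →* Cˣ) (I M0 : ℕ)
    (hno : ∀ (J : Finset ℚ_[p]ˣ) (a : ℚ_[p]ˣ → C), (∀ v ∈ J, ‖(v : ℚ_[p])‖ ≤ (p : ℝ) ^ (-(M0 : ℤ))) →
      (∀ i ≤ I, ∑ v ∈ J, a v * (algebraMap ℚ_[p] C (v : ℚ_[p])) ^ i = 0) →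
      ∑ v ∈ J, a v * ((ξ v : Cˣ) : C) = 0) :
    ∃ j : ℕ, ∀ x : ℚ_[p]ˣ, ((ξ x : Cˣ) : C) = (algebraMap ℚ_[p] C (x : ℚ_[p])) ^ j := by
  classical
  set ι := algebraMap ℚ_[p] C with hι
  have hιinj : Function.Injective ι := (algebraMap ℚ_[p] C).injective
  let vv : Fin (I + 1) → ℚ_[p]ˣ := fun k => mexU p M0 k
  have hvvinj : Function.Injective vv := fun a b h => Fin.ext (mexU_inj p M0 h)
  let nd : Fin (I + 1) → C := fun k => ι (vv k)
  have hndinj : Function.Injective nd := fun a b h => hvvinj (Units.ext (hιinj h))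
  let Pl : Polynomial C := Lagrange.interpolate Finset.univ nd (fun k => ((ξ (vv k) : Cˣ) : C))
  have hPlev : ∀ x : C, Pl.eval x =
      ∑ k, ((ξ (vv k) : Cˣ) : C) * (Lagrange.basis Finset.univ nd k).eval x := by
    intro x
    simp only [Pl, Lagrange.interpolate_apply, Polynomial.eval_finsetSum, Polynomial.eval_mul,
      Polynomial.eval_C]
  -- the values of `ξ` on small units
  have hval : ∀ v : ℚ_[p]ˣ, ‖(v : ℚ_[p])‖ ≤ (p : ℝ) ^ (-(M0 : ℤ)) →
      ((ξ v : Cˣ) : C) = Pl.eval (ι v) := by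
    intro v hv
    let Lk : Fin (I + 1) → C := fun k => (Lagrange.basis Finset.univ nd k).eval (ι v)
    let J : Finset ℚ_[p]ˣ := insert v (Finset.univ.image vv)
    let a : ℚ_[p]ˣ → C := fun w => (if w = v then 1 else 0) - ∑ k, if w = vv k then Lk k else 0
    have hsum : ∀ F : ℚ_[p]ˣ → C, ∑ w ∈ J, a w * F w = F v - ∑ k, Lk k * F (vv k) := by
      intro F
      simp only [a, sub_mul, Finset.sum_sub_distrib, Finset.sum_mul]
      congr 1
      · rw [Finset.sum_eq_single v]
        · simp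
        · intro b _ hb
          simp [hb]
        · intro h
          exact absurd (Finset.mem_insert_self _ _) h
      · rw [Finset.sum_comm]
        refine Finset.sum_congr rfl fun k _ => ?_
        rw [Finset.sum_eq_single (vv k)]
        · simp
        · intro b _ hb
          simp [hb]
        · intro h
          exact absurd (Finset.mem_insert_of_mem (Finset.mem_image_of_mem _ (Finset.mem_univ _))) h
    have h := hno J a ?_ ?_
    · rw [hsum] at h
      rw [hPlev, sub_eq_zero.1 h]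
      exact Finset.sum_congr rfl fun k _ => mul_comm _ _
    · intro w hw
      rcases Finset.mem_insert.1 hw with rfl | hw
      · exact hv
      · obtain ⟨k, -, rfl⟩ := Finset.mem_image.1 hw
        exact mexU_norm p M0 k
    · intro i hi
      rw [hsum]
      have hq := Lagrange.eq_interpolate (s := (Finset.univ : Finset (Fin (I + 1)))) (v := nd)
        (f := (Polynomial.X ^ i : Polynomial C)) (hndinj.injOn) (by
          rw [Polynomial.degree_X_pow, Finset.card_univ, Fintype.card_fin]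
          exact_mod_cast Nat.lt_succ_of_le hi)
      have hq2 := congrArg (Polynomial.eval (ι v)) hq
      simp only [Lagrange.interpolate_apply, Polynomial.eval_finsetSum, Polynomial.eval_mul,
        Polynomial.eval_C, Polynomial.eval_pow, Polynomial.eval_X] at hq2
      rw [hq2, sub_eq_zero]
      exact Finset.sum_congr rfl fun k _ => mul_comm _ _
  -- a non-zero coefficient
  have hPl0 : Pl ≠ 0 := by
    intro h0
    have := hval (mexU p M0 0) (mexU_norm p M0 0)
    rw [h0, Polynomial.eval_zero] at this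
    exact (ξ (mexU p M0 0)).ne_zero this
  obtain ⟨j, hj⟩ : ∃ j, Pl.coeff j ≠ 0 := by
    by_contra hcon
    push Not at hcon
    exact hPl0 (Polynomial.ext (by simpa using hcon))
  have hsmall : ∀ y : ℚ_[p]ˣ, ‖(y : ℚ_[p])‖ ≤ 1 → ((ξ y : Cˣ) : C) = (ι y) ^ j := by
    intro y hy
    have heq : Pl.comp (Polynomial.C (ι y) * Polynomial.X) =
        Polynomial.C ((ξ y : Cˣ) : C) * Pl := by
      refine Polynomial.eq_of_infinite_eval_eq _ _ ?_
      refine Set.Infinite.mono (s := Set.range fun k => ι (mexU p M0 k)) ?_ ?_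
      · rintro _ ⟨k, rfl⟩
        simp only [Set.mem_ofPred_eq, Polynomial.eval_comp, Polynomial.eval_mul, Polynomial.eval_C,
          Polynomial.eval_X]
        rw [← hval _ (mexU_norm p M0 k)]
        have h2 := hval (y * mexU p M0 k) (by
          rw [Units.val_mul, norm_mul]
          calc _ ≤ 1 * ‖((mexU p M0 k : ℚ_[p]ˣ) : ℚ_[p])‖ :=
                mul_le_mul_of_nonneg_right hy (norm_nonneg _)
            _ ≤ _ := by rw [one_mul]; exact mexU_norm p M0 k)
        rw [Units.val_mul, map_mul, map_mul, Units.val_mul] at h2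
        exact h2.symm
      · refine Set.infinite_range_of_injective ?_
        intro a b h
        exact mexU_inj p M0 (Units.ext (hιinj h))
    have hc := congrArg (fun q : Polynomial C => q.coeff j) heq
    simp only [Polynomial.comp_C_mul_X_coeff, Polynomial.coeff_C_mul] at hc
    exact mul_right_cancel₀ hj (by rw [← hc, mul_comm])
  refine ⟨j, fun x => ?_⟩
  by_cases hx : ‖(x : ℚ_[p])‖ ≤ 1
  · exact hsmall x hx
  · push Not at hx
    have h := hsmall x⁻¹ (by
      rw [Units.val_inv_eq_inv_val, norm_inv]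
      exact inv_le_one_of_one_le₀ hx.le)
    rw [map_inv, Units.val_inv_eq_inv_val, Units.val_inv_eq_inv_val, map_inv₀, inv_pow] at h
    exact inv_injective h
end Pool.Agent.Helper911
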