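import Mathlib

set_option autoImplicit false
set_option linter.unusedSectionVars false
set_option maxHeartbeats 1000000

noncomputable section

open Topology Filter

namespace Pool.Agent.Helper911


/-! ======= TARGETS ======= -/

/-- the difference of the pairings -/
private def DD {n : ℕ} (c : Fin n → ℝ) (m : Fin n → ℤ) : ℝ := ∑ j, c j * (m j : ℝ)

private theorem DD_pos {n : ℕ} (ν : Fin n → ℝ) (u w : Equiv.Perm (Fin n)) (hn : 0 < n)
    (hE : ∀ l : Fin n → ℤ, StrictMono l → ∑ j, l j = 0 →
      ∑ j, ν (w j) * (l j : ℝ) < ∑ j, ν (u j) * (l j : ℝ)) (m : Fin n → ℤ) (hm : StrictMono m) :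
    0 < DD (fun j => ν (u j) - ν (w j)) m := by
  have hl : StrictMono (fun j => (n : ℤ) * m j - ∑ k, m k) := by
    intro a b hab
    have h1 := hm hab
    have h2 : (0 : ℤ) < n := by exact_mod_cast hn
    have := mul_lt_mul_of_pos_left h1 h2
    simpa using this
  have hs : ∑ j, ((n : ℤ) * m j - ∑ k, m k) = 0 := by
    rw [Finset.sum_sub_distrib, ← Finset.mul_sum, Finset.sum_const, Finset.card_univ,
      Fintype.card_fin, nsmul_eq_mul]
    ring
  have h := hE _ hl hs
  have hu : ∑ j, ν (u j) = ∑ j, ν (w j) := by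
    rw [Equiv.sum_comp u ν, Equiv.sum_comp w ν]
  have e : ∀ v : Equiv.Perm (Fin n), ∑ j, ν (v j) * (((n : ℤ) * m j - ∑ k, m k : ℤ) : ℝ) =
      n * ∑ j, ν (v j) * (m j : ℝ) - (∑ k, (m k : ℝ)) * ∑ j, ν (v j) := by
    intro v
    rw [Finset.mul_sum, Finset.mul_sum, ← Finset.sum_sub_distrib]
    refine Finset.sum_congr rfl fun j _ => ?_
    push_cast
    ring
  rw [e, e, hu] at h
  have h3 : (n : ℝ) * ∑ j, ν (w j) * (m j : ℝ) < n * ∑ j, ν (u j) * (m j : ℝ) := by linarith
  have h4 : (0 : ℝ) < n := by exact_mod_cast hn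
  have h5 := lt_of_mul_lt_mul_left h3 h4.le
  have h6 : DD (fun j => ν (u j) - ν (w j)) m =
      ∑ j, ν (u j) * (m j : ℝ) - ∑ j, ν (w j) * (m j : ℝ) := by
    rw [DD, ← Finset.sum_sub_distrib]
    refine Finset.sum_congr rfl fun j _ => ?_
    ring
  rw [h6]
  linarith

private theorem DD_add {n : ℕ} (c : Fin n → ℝ) (L : ℕ) (a b : Fin n → ℤ) :
    DD c (fun j => (L : ℤ) * a j + b j) = L * DD c a + DD c b := by
  rw [DD, DD, DD, Finset.mul_sum, ← Finset.sum_add_distrib]
  refine Finset.sum_congr rfl fun j _ => ?_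
  push_cast
  ring

private theorem nonneg_of_forall {x y : ℝ} (h : ∀ N : ℕ, 0 < (N : ℝ) * x + y) : 0 ≤ x := by
  by_contra hx
  push Not at hx
  obtain ⟨N, hN⟩ := exists_nat_gt (y / (-x))
  have h1 := h N
  rw [div_lt_iff₀ (by linarith)] at hN
  linarith

/-- tail sums -/
private noncomputable def BB {n : ℕ} (c : Fin n → ℝ) (k : ℕ) : ℝ :=
  DD c (fun j => if k ≤ j.val then 1 else 0)

private theorem BB_diff {n : ℕ} (c : Fin n → ℝ) (j : Fin n) :
    c j = BB c j.val - BB c (j.val + 1) := by
  rw [BB, BB, DD, DD, ← Finset.sum_sub_distrib, Finset.sum_eq_single j]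
  · simp
  · intro k _ hk
    have hk' : k.val ≠ j.val := fun h => hk (Fin.ext h)
    by_cases h1 : j.val ≤ k.val
    · rw [if_pos h1, if_pos (by omega)]; ring
    · rw [if_neg h1, if_neg (by omega)]; ring
  · intro h; exact absurd (Finset.mem_univ _) h

private theorem BB_ge {n : ℕ} (c : Fin n → ℝ) (k : ℕ) (hk : n ≤ k) : BB c k = 0 := by
  rw [BB, DD]
  refine Finset.sum_eq_zero fun j _ => ?_
  rw [if_neg (by have := j.isLt; omega)]
  simp

private theorem BB_zero {n : ℕ} (c : Fin n → ℝ) (hc : ∑ j, c j = 0) : BB c 0 = 0 := by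
  rw [BB, DD, ← hc]
  refine Finset.sum_congr rfl fun j _ => ?_
  simp

/-- TARGET.
Proof. Put `μ j = ν (u j)` and `μw j = ν (w j)` for `w ∈ E`. For `k : Fin n` let `B w k = ∑_{j ≥ k} (μ j - μw j)`; `B w 0 = 0` (index of value 0) because `∑ μ j = ∑ ν = ∑ μw j`. For a function `l` with gaps `δ k = l k - l (k-1)`, `k ≥ 1`, summation by parts gives `∑ (μ j - μw j) l j = ∑_{k ≥ 1} δ k * B w k` (as `B w 0 = 0`).
For all positive integers `δ k` divisible by `n` there is a strictly increasing `l` with sum `0` with these gaps. So, letting one gap go to infinity, the hypothesis gives `B w k ≥ 0` for all `w ∈ E`, `k ≥ 1`.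
For `w1 = u * swap i i'`: `∑ (μ j - ν (w1 j)) l j = (μ i' - μ i) (l i' - l i)`. Put `K = μ i' - μ i`. Consider `l` with gap `δ i' = n` and all the other gaps `n L`, `L` a large positive integer. Claim: `D w := ∑ (μ j - μw j) l j ≥ K n` for `w ∈ E`, when `L` is large; this is the assertion. If `B w k > 0` for some `k ≠ i'` then `D w ≥ n L B w k ≥ K n`
for `L` large (`E` is finite). Otherwise `B w k = 0` for all `k ≠ i'`, so `μ j = μw j` for all `j ≠ i, i'` and `μw i' = μ i' - t`, `μw i = μ i + t` with `t = B w i'`, and `D w = n t`. `t > 0` by the hypothesis (`D w > 0`). Since `μw = ν ∘ w` and `μ = ν ∘ u` are rearrangements of each other (as multisets) and agree outside `{i, i'}`, the multisets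
`{μ i, μ i'}` and `{μ i + t, μ i' - t}` are equal, so as `t ≠ 0`, `μ i' - t = μ i`, that is `t = K`. -/
theorem near_wall {n : ℕ} (ν : Fin n → ℝ) (u : Equiv.Perm (Fin n)) (i i' : Fin n)
    (hi : (i : ℕ) + 1 = (i' : ℕ)) (E : Finset (Equiv.Perm (Fin n)))
    (hE : ∀ l : Fin n → ℤ, StrictMono l → ∑ j, l j = 0 → ∀ w ∈ E,
      ∑ j, ν (w j) * (l j : ℝ) < ∑ j, ν (u j) * (l j : ℝ)) :
    ∃ l : Fin n → ℤ, StrictMono l ∧ ∑ j, l j = 0 ∧ ∀ w ∈ E,
      ∑ j, ν (w j) * (l j : ℝ) ≤ ∑ j, ν ((u * Equiv.swap i i') j) * (l j : ℝ) := by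
  classical
  have hn : 0 < n := lt_of_le_of_lt (Nat.zero_le _) i.isLt
  have hii : i ≠ i' := fun h => by rw [h] at hi; omega
  set c : Equiv.Perm (Fin n) → Fin n → ℝ := fun w j => ν (u j) - ν (w j) with hcdef
  have hpos : ∀ w ∈ E, ∀ m : Fin n → ℤ, StrictMono m → 0 < DD (c w) m := fun w hw m hm =>
    DD_pos ν u w hn (fun l h1 h2 => hE l h1 h2 w hw) m hm
  have hsum : ∀ w, ∑ j, c w j = 0 := by
    intro w
    simp only [hcdef]
    rw [Finset.sum_sub_distrib, Equiv.sum_comp u ν, Equiv.sum_comp w ν, sub_self]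
  -- the index set of the large gaps
  set S : Finset ℕ := (Finset.range n).filter (fun k => 1 ≤ k ∧ k ≠ i'.val) with hS
  set a : Fin n → ℤ := fun j => ∑ k ∈ S, if k ≤ j.val then 1 else 0 with ha
  set b : Fin n → ℤ := fun j => if i'.val ≤ j.val then 1 else 0 with hb
  have hDa : ∀ w, DD (c w) a = ∑ k ∈ S, BB (c w) k := by
    intro w
    simp only [DD, BB, ha]
    rw [Finset.sum_comm]
    refine Finset.sum_congr rfl fun j _ => ?_
    rw [← Finset.mul_sum]
    push_cast
    rfl
  have hDb : ∀ w, DD (c w) b = BB (c w) i'.val := fun w => rfl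
  have hBnn : ∀ w ∈ E, ∀ k, 0 ≤ BB (c w) k := by
    intro w hw k
    refine nonneg_of_forall (y := DD (c w) (fun j => (j.val : ℤ))) fun N => ?_
    rw [BB, ← DD_add]
    refine hpos w hw _ ?_
    intro x y hxy
    have hxy' : x.val < y.val := hxy
    have h2 : (if k ≤ x.val then (1 : ℤ) else 0) ≤ if k ≤ y.val then 1 else 0 := by
      split_ifs <;> omega
    have h3 : (N : ℤ) * (if k ≤ x.val then (1 : ℤ) else 0) ≤
        (N : ℤ) * (if k ≤ y.val then (1 : ℤ) else 0) :=
      mul_le_mul_of_nonneg_left h2 (by positivity)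
    have h4 : ((x.val : ℕ) : ℤ) < ((y.val : ℕ) : ℤ) := by exact_mod_cast hxy'
    change (N : ℤ) * (if k ≤ x.val then (1 : ℤ) else 0) + ((x.val : ℕ) : ℤ) <
      (N : ℤ) * (if k ≤ y.val then (1 : ℤ) else 0) + ((y.val : ℕ) : ℤ)
    linarith
  have hmono : ∀ L : ℕ, 1 ≤ L → StrictMono (fun j => (L : ℤ) * a j + b j) := by
    intro L hL x y hxy
    have hxy' : x.val < y.val := hxy
    have hterm : ∀ k : ℕ, (if k ≤ x.val then (1 : ℤ) else 0) ≤ if k ≤ y.val then 1 else 0 := by
      intro k
      split_ifs <;> omega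
    have hale : a x ≤ a y := Finset.sum_le_sum fun k _ => hterm k
    have hble : b x ≤ b y := hterm _
    have hL' : (0 : ℤ) < L := by exact_mod_cast hL
    by_cases hy : y.val = i'.val
    · have h1 : b x = 0 := by simp only [hb]; rw [if_neg (by omega)]
      have h2 : b y = 1 := by simp only [hb]; rw [if_pos (by omega)]
      have h3 := mul_le_mul_of_nonneg_left hale hL'.le
      change (L : ℤ) * a x + b x < (L : ℤ) * a y + b y
      rw [h1, h2]
      linarith
    · have h1 : a x < a y := by
        refine Finset.sum_lt_sum (fun k _ => hterm k) ⟨y.val, ?_, ?_⟩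
        · rw [hS, Finset.mem_filter, Finset.mem_range]
          exact ⟨y.isLt, by omega, hy⟩
        · rw [if_neg (by omega), if_pos le_rfl]
          norm_num
      have h3 := mul_lt_mul_of_pos_left h1 hL'
      change (L : ℤ) * a x + b x < (L : ℤ) * a y + b y
      linarith
  set κ : ℝ := ν (u i') - ν (u i) with hκ
  -- the main inequality
  have hmain : ∀ w ∈ E, ∀ᶠ L : ℕ in atTop, κ ≤ (L : ℝ) * DD (c w) a + DD (c w) b := by
    intro w hw
    have hann : 0 ≤ DD (c w) a := by
      rw [hDa]
      exact Finset.sum_nonneg fun k _ => hBnn w hw k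
    rcases hann.eq_or_lt with h0 | h0
    · -- all tail sums vanish except one
      have hB0 : ∀ k, k ≠ i'.val → BB (c w) k = 0 := by
        intro k hk
        by_cases hk0 : k = 0
        · rw [hk0]; exact BB_zero _ (hsum w)
        · by_cases hkn : n ≤ k
          · exact BB_ge _ _ hkn
          · rw [hDa] at h0
            exact (Finset.sum_eq_zero_iff_of_nonneg (fun k _ => hBnn w hw k)).1 h0.symm k (by
              rw [hS, Finset.mem_filter, Finset.mem_range]
              exact ⟨by omega, by omega, hk⟩)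
      set t : ℝ := BB (c w) i'.val with ht
      have hct : c w i' = t := by
        rw [BB_diff (c w) i', hB0 (i'.val + 1) (by omega), sub_zero]
      have hci : c w i = -t := by
        rw [BB_diff (c w) i, hB0 i.val (by omega), zero_sub, hi]
      have hcj : ∀ j, j ≠ i → j ≠ i' → c w j = 0 := by
        intro j h1 h2
        have h1' : j.val ≠ i.val := fun h => h1 (Fin.ext h)
        have h2' : j.val ≠ i'.val := fun h => h2 (Fin.ext h)
        rw [BB_diff (c w) j, hB0 j.val h2', hB0 (j.val + 1) (by omega), sub_zero]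
      have htpos : 0 < t := by
        have h1 := hpos w hw _ (hmono 1 le_rfl)
        rw [DD_add, ← h0, hDb] at h1
        linarith
      have hsq : ∑ j, (ν (u j) ^ 2 - ν (w j) ^ 2) = 0 := by
        rw [Finset.sum_sub_distrib, Equiv.sum_comp u (fun j => ν j ^ 2),
          Equiv.sum_comp w (fun j => ν j ^ 2), sub_self]
      have hsq2 : ∑ j, (ν (u j) ^ 2 - ν (w j) ^ 2) =
          (ν (u i) ^ 2 - ν (w i) ^ 2) + (ν (u i') ^ 2 - ν (w i') ^ 2) := by
        refine (Finset.sum_subset (Finset.subset_univ ({i, i'} : Finset (Fin n))) ?_).symm.trans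
          (Finset.sum_pair hii)
        intro j _ hj
        rw [Finset.mem_insert, Finset.mem_singleton, not_or] at hj
        have h1 : ν (u j) - ν (w j) = 0 := hcj j hj.1 hj.2
        have h2 : ν (u j) = ν (w j) := by linarith
        rw [h2, sub_self]
      have hwi : ν (w i) = ν (u i) + t := by
        have : ν (u i) - ν (w i) = -t := hci
        linarith
      have hwi' : ν (w i') = ν (u i') - t := by
        have : ν (u i') - ν (w i') = t := hct
        linarith
      rw [hsq, hwi, hwi'] at hsq2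
      have h5 : t * (κ - t) = 0 := by rw [hκ]; linarith
      have h6 : κ = t := by
        rcases mul_eq_zero.1 h5 with h | h
        · exact absurd h htpos.ne'
        · linarith
      refine Eventually.of_forall fun L => ?_
      rw [← h0, hDb, ← ht, h6]
      simp
    · have h1 : Tendsto (fun L : ℕ => (L : ℝ) * DD (c w) a + DD (c w) b) atTop atTop :=
        tendsto_atTop_add_const_right _ _ (tendsto_natCast_atTop_atTop.atTop_mul_const h0)
      exact h1.eventually_ge_atTop κ
  obtain ⟨L, hL, hL1⟩ := (((Finset.eventually_all E).2 hmain).and (eventually_ge_atTop 1)).exists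
  -- normalisation of the sum
  set mm : Fin n → ℤ := fun j => (L : ℤ) * a j + b j with hmm
  have hmst : StrictMono mm := hmono L hL1
  have hn' : (0 : ℤ) < n := by exact_mod_cast hn
  refine ⟨fun j => (n : ℤ) * mm j - ∑ k, mm k, ?_, ?_, ?_⟩
  · intro x y hxy
    have h1 := mul_lt_mul_of_pos_left (hmst hxy) hn'
    simpa using h1
  · rw [Finset.sum_sub_distrib, ← Finset.mul_sum, Finset.sum_const, Finset.card_univ,
      Fintype.card_fin, nsmul_eq_mul]
    ring
  · intro w hw
    have e : ∀ v : Equiv.Perm (Fin n), ∑ j, ν (v j) * (((n : ℤ) * mm j - ∑ k, mm k : ℤ) : ℝ) =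
        n * ∑ j, ν (v j) * (mm j : ℝ) - (∑ k, (mm k : ℝ)) * ∑ j, ν j := by
      intro v
      rw [← Equiv.sum_comp v ν, Finset.mul_sum, Finset.mul_sum, ← Finset.sum_sub_distrib]
      refine Finset.sum_congr rfl fun j _ => ?_
      push_cast
      ring
    rw [e, e]
    have hsw : ∑ j, ν (u j) * (mm j : ℝ) - ∑ j, ν ((u * Equiv.swap i i') j) * (mm j : ℝ) = κ := by
      rw [← Finset.sum_sub_distrib]
      refine (Finset.sum_subset (Finset.subset_univ ({i, i'} : Finset (Fin n))) ?_).symm.trans
        ((Finset.sum_pair hii).trans ?_)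
      · intro j _ hj
        rw [Finset.mem_insert, Finset.mem_singleton, not_or] at hj
        rw [Equiv.Perm.mul_apply, Equiv.swap_apply_of_ne_of_ne hj.1 hj.2, sub_self]
      · rw [Equiv.Perm.mul_apply, Equiv.Perm.mul_apply, Equiv.swap_apply_left,
          Equiv.swap_apply_right]
        have hmd : (mm i' : ℝ) - (mm i : ℝ) = 1 := by
          have hai : a i' = a i := by
            simp only [ha]
            refine Finset.sum_congr rfl fun k hk => ?_
            rw [hS, Finset.mem_filter] at hk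
            have := hk.2.2
            by_cases h1 : k ≤ i.val
            · rw [if_pos h1, if_pos (by omega)]
            · rw [if_neg h1, if_neg (by omega)]
          have hbi : b i = 0 := by simp only [hb]; rw [if_neg (by omega)]
          have hbi' : b i' = 1 := by simp only [hb]; rw [if_pos le_rfl]
          have : mm i' - mm i = 1 := by
            simp only [hmm]
            rw [hai, hbi, hbi']
            ring
          exact_mod_cast this
        have e2 : (mm i' : ℝ) = mm i + 1 := by linarith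
        rw [e2, hκ]
        ring
    have hDm : ∑ j, ν (u j) * (mm j : ℝ) - ∑ j, ν (w j) * (mm j : ℝ) =
        (L : ℝ) * DD (c w) a + DD (c w) b := by
      rw [← DD_add, DD, ← Finset.sum_sub_distrib]
      refine Finset.sum_congr rfl fun j _ => ?_
      simp only [hcdef, hmm]
      ring
    have h1 := hL w hw
    have h2 : ∑ j, ν (w j) * (mm j : ℝ) ≤ ∑ j, ν ((u * Equiv.swap i i') j) * (mm j : ℝ) := by
      linarith
    have h3 : (0 : ℝ) ≤ n := Nat.cast_nonneg n
    have h4 := mul_le_mul_of_nonneg_left h2 h3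
    linarith
end Pool.Agent.Helper911
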