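import Mathlib
import Pool.Agent.Helper911_SL.Defs2

set_option autoImplicit false
set_option linter.unusedSectionVars false
set_option maxHeartbeats 1000000

noncomputable section

open Matrix Topology Filter

namespace Pool.Agent.Helper911


variable (p : ℕ) [Fact p.Prime] {n : ℕ} [NeZero n]

/-! ======= TARGETS ======= -/

/-- the matrix whose columns before `k` are replaced by the standard basis vectors -/
def minors_D (M : Matrix (Fin n) (Fin n) ℚ_[p]) (k : Fin n) : Matrix (Fin n) (Fin n) ℚ_[p] :=
  fun i j => if j < k then (1 : Matrix (Fin n) (Fin n) ℚ_[p]) i j else M i j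

omit [NeZero n] in
theorem minors_low (M : Matrix (Fin n) (Fin n) ℚ_[p]) (hM : ∀ i j, i < j → M i j = 0)
    (hM1 : ∀ i, M i i = 1) (k : Fin n) : (minors_D p M k).det = 1 := by
  rw [Matrix.det_of_isLowerTriangular]
  · refine Finset.prod_eq_one fun i _ => ?_
    unfold minors_D
    split_ifs
    · simp
    · exact hM1 i
  · intro i j hij
    have hij' : i < j := OrderDual.toDual_lt_toDual.1 hij
    unfold minors_D
    split_ifs
    · exact Matrix.one_apply_ne hij'.ne
    · exact hM i j hij'

omit [NeZero n] in
theorem minors_up (M : Matrix (Fin n) (Fin n) ℚ_[p]) (hM : ∀ i j, j < i → M i j = 0)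
    (k : Fin n) : (minors_D p M k).det = ∏ i ∈ Finset.univ.filter (fun i => k ≤ i), M i i := by
  rw [Matrix.det_of_isUpperTriangular]
  · rw [Finset.prod_filter]
    refine Finset.prod_congr rfl fun i _ => ?_
    unfold minors_D
    by_cases h : i < k
    · rw [if_pos h, if_neg (not_le.2 h), Matrix.one_apply_eq]
    · rw [if_neg h, if_pos (not_lt.1 h)]
  · intro i j hij
    have hij' : j < i := hij
    unfold minors_D
    split_ifs
    · exact Matrix.one_apply_ne hij'.ne'
    · exact hM i j hij'

omit [NeZero n] in
theorem minors_mul (M N : Matrix (Fin n) (Fin n) ℚ_[p]) (hN : ∀ i j, i < j → N i j = 0)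
    (k : Fin n) : minors_D p (M * N) k = minors_D p M k * minors_D p N k := by
  ext i j
  rw [Matrix.mul_apply]
  by_cases h : j < k
  · rw [Finset.sum_eq_single j]
    · simp [minors_D, h]
    · intro l _ hl
      simp only [minors_D, h, if_true]
      rw [Matrix.one_apply_ne hl, mul_zero]
    · intro h; exact absurd (Finset.mem_univ _) h
  · simp only [minors_D, h, if_false]
    rw [Matrix.mul_apply]
    refine Finset.sum_congr rfl fun l _ => ?_
    by_cases hl : l < k
    · rw [hN l j (lt_of_lt_of_le hl (not_lt.1 h)), mul_zero, mul_zero]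
    · rw [if_neg hl]

omit [NeZero n] in
theorem minors_NL {g : SLn p n} (hg : g ∈ NL p (1 : Equiv.Perm (Fin n))) :
    (∀ i j, i < j → g i j = 0) ∧ ∀ i, g i i = 1 := by
  refine ⟨fun i j hij => hg.1 i j ?_, hg.2⟩
  show Fin.rev j < Fin.rev i
  exact Fin.rev_lt_rev.2 hij

/-- TARGET.
Proof. For a matrix `M` and `k : Fin n` let `Δ_k(M)` be the determinant of the submatrix of rows and columns `≥ k`. If `b'` is upper triangular and `m` is lower unipotent then `Δ_k(b' m) = ∏_{i ≥ k} b' i i` (the submatrix of `b' m` is the product of the submatrices, since `b' i j = 0` for `i ≥ k > j`).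
`g * el a b t` is `g` with `t` times column `a` added to column `b`. If `k ≤ a`: `Δ_k = Δ_k(g) = 1` (both columns are in the range; adding a multiple of a column to another one). If `k > b`: column `b` is not in the range, `Δ_k = 1`. If `a < k ≤ b`: by multilinearity `Δ_k = 1 + t * d k` where `d k` is the determinant of the
matrix with rows and columns `≥ k` of `g` in which column `b` is replaced by column `a`; its entries have norm `≤ 1` so `‖d k‖ ≤ 1` (`norm_det_le_one` is for `Fin n`; reprove it for the index type you use). To avoid subtype index sets you can use, instead of the submatrix, the `n x n` matrix whose columns `j < k` (or rows) are replaced by the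
standard basis vectors: `Δ_k(M) = det (fun i j => if j < k then (1 : Matrix _ _ _) i j else M i j)`. -/
theorem minors (g : SLn p n) (hg : g ∈ NL p (1 : Equiv.Perm (Fin n))) (hgi : g ∈ Cong p n 0)
    (a b : Fin n) (hab : a < b) :
    ∃ d : Fin n → ℚ_[p], (∀ k, ‖d k‖ ≤ 1) ∧ (∀ k, ¬ (a < k ∧ k ≤ b) → d k = 0) ∧
      ∀ (t : ℚ_[p]) (b' m : SLn p n), b' ∈ Up p (1 : Equiv.Perm (Fin n)) →
        m ∈ NL p (1 : Equiv.Perm (Fin n)) → g * el p a b hab.ne t = b' * m →
        ∀ k : Fin n, ∏ i ∈ Finset.univ.filter (fun i => k ≤ i), b' i i = 1 + t * d k := by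
  obtain ⟨g0, g1⟩ := minors_NL p hg
  have gn : ∀ i j, ‖g i j‖ ≤ 1 := by
    intro i j
    have h2 : g i j = (g i j - (1 : Matrix (Fin n) (Fin n) ℚ_[p]) i j)
      + (1 : Matrix (Fin n) (Fin n) ℚ_[p]) i j := by ring
    rw [h2]
    refine (IsUltrametricDist.norm_add_le_max _ _).trans
      (max_le ((hgi i j).trans (pow_neg_le_one p 0)) ?_)
    rw [Matrix.one_apply]; split_ifs <;> simp
  let G : Fin n → Matrix (Fin n) (Fin n) ℚ_[p] := fun k =>
    minors_D p (g : Matrix (Fin n) (Fin n) ℚ_[p]) k
  let D : Fin n → ℚ_[p] := fun k => ((G k).updateCol b (fun i => g i a)).det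
  refine ⟨fun k => if a < k ∧ k ≤ b then D k else 0, ?_, ?_, ?_⟩
  · intro k
    dsimp only
    split_ifs
    · refine norm_det_le_one p fun i j => ?_
      rw [Matrix.updateCol_apply]
      split_ifs
      · exact gn i a
      · simp only [G, minors_D]
        split_ifs
        · rw [Matrix.one_apply]; split_ifs <;> simp
        · exact gn i j
    · simp
  · intro k hk
    exact if_neg hk
  · intro t b' m hb hm he k
    obtain ⟨m0, m1⟩ := minors_NL p hm
    have e1 : (minors_D p ((b' * m : SLn p n) : Matrix (Fin n) (Fin n) ℚ_[p]) k).det =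
        ∏ i ∈ Finset.univ.filter (fun i => k ≤ i), b' i i := by
      rw [Matrix.SpecialLinearGroup.coe_mul, minors_mul p _ _ m0, Matrix.det_mul,
        minors_low p _ m0 m1, mul_one, minors_up p _ hb]
    rw [← e1, ← he]
    have e2 : ∀ i j, (g * el p a b hab.ne t : SLn p n) i j =
        g i j + if j = b then t * g i a else 0 := by
      intro i j
      rw [Matrix.SpecialLinearGroup.coe_mul, Matrix.mul_apply]
      have : ∀ l, g i l * el p a b hab.ne t l j =
          (if l = j then g i l else 0) + (if l = a then (if j = b then t * g i a else 0) else 0) := by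
        intro l
        rw [el_apply]
        by_cases h1 : l = j
        · by_cases h2 : l = a
          · by_cases h3 : j = b
            · exact absurd (h2.symm.trans (h1.trans h3)) hab.ne
            · simp [h1, h3]
          · simp [h1, h1 ▸ h2]
        · by_cases h2 : l = a
          · by_cases h3 : j = b
            · simp [h2, h3, hab.ne, mul_comm]
            · simp [h1, h3]
          · simp [h1, h2]
      rw [Finset.sum_congr rfl fun l _ => this l, Finset.sum_add_distrib,
        Finset.sum_ite_eq' , Finset.sum_ite_eq']
      simp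
    by_cases hkb : k ≤ b
    · have e3 : minors_D p ((g * el p a b hab.ne t : SLn p n) : Matrix (Fin n) (Fin n) ℚ_[p]) k =
          (G k).updateCol b ((fun i => G k i b) + t • fun i => g i a) := by
        ext i j
        rw [Matrix.updateCol_apply]
        by_cases hj : j = b
        · subst hj
          simp only [minors_D, G, if_neg (not_lt.2 hkb), if_true, e2, Pi.add_apply, Pi.smul_apply,
            smul_eq_mul]
        · simp only [minors_D, G, e2, if_neg hj, add_zero]
      have e4 : (G k).updateCol b (fun i => G k i b) = G k := Matrix.updateCol_eq_self _ _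
      rw [e3, Matrix.det_updateCol_add, Matrix.det_updateCol_smul, e4,
        minors_low p _ g0 g1]
      show _ = 1 + t * (if a < k ∧ k ≤ b then D k else 0)
      by_cases hka : a < k
      · rw [if_pos ⟨hka, hkb⟩]
      · rw [if_neg (fun h => hka h.1)]
        congr 2
        refine Matrix.det_zero_of_column_eq hab.ne fun i => ?_
        rw [Matrix.updateCol_self, Matrix.updateCol_ne hab.ne]
        simp only [G, minors_D, if_neg hka]
    · have e3 : minors_D p ((g * el p a b hab.ne t : SLn p n) : Matrix (Fin n) (Fin n) ℚ_[p]) k =
          G k := by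
        ext i j
        simp only [minors_D, G, e2]
        by_cases hj : j < k
        · rw [if_pos hj, if_pos hj]
        · have : j ≠ b := by rintro rfl; exact hj (not_le.1 hkb)
          rw [if_neg hj, if_neg hj, if_neg this, add_zero]
      rw [e3, minors_low p _ g0 g1]
      show _ = 1 + t * (if a < k ∧ k ≤ b then D k else 0)
      rw [if_neg (fun h => hkb h.2), mul_zero, add_zero]
end Pool.Agent.Helper911
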