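import Mathlib
import Pool.Agent.Helper911_SL.Char

set_option autoImplicit false
set_option linter.unusedSectionVars false
set_option maxHeartbeats 1000000

noncomputable section

open Matrix Topology Filter

namespace Pool.Agent.Helper911


variable (p : ℕ) [Fact p.Prime] {n : ℕ} [NeZero n]

/-! ======= TARGETS ======= -/

/-- TARGET.
Proof. `D k` is the product of the diagonal entries `b' i i`, `i ≥ k`; `D 0 = 1` (determinant), so the entry `b' k k` is `D k / D (k+1)` (with `D n = 1`). The torus element `diagU b'` is the product over `k ≥ 1` of `corootU (k-1) k (D k)⁻¹`: the entry at place `k` of this product is `((D k)⁻¹)⁻¹ * (D (k+1))⁻¹` (with the first factor missing, that is equal to `D 0 = 1`, for `k = 0`, and the second one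
missing for `k = n - 1`). Then apply `χ` and `chiB_eq`. (`chiB χ b' = χ (diagU b')`, and `χ (corootU .. (D k)⁻¹) = (χ (corootU .. (D k)))⁻¹` since `corootU` is multiplicative in `x`.) -/
theorem chi_minors {C : Type*} [NormedField C] (χ : TorU p n →* Cˣ) (b' : SLn p n)
    (hb' : b' ∈ Up p (1 : Equiv.Perm (Fin n))) (D : Fin n → ℚ_[p]ˣ)
    (hD : ∀ k : Fin n, ∏ i ∈ Finset.univ.filter (fun i => k ≤ i), b' i i = (D k : ℚ_[p])) :
    chiB p χ b' = ∏ k : Fin n, if h : (k : ℕ) = 0 then 1 else
      ((χ (corootU p ⟨(k : ℕ) - 1, by omega⟩ k (by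
        intro hc; have := congrArg Fin.val hc; simp at this; omega) (D k))⁻¹ : Cˣ) : C) := by
  classical
  have hn0 : (D 0 : ℚ_[p]) = 1 := by
    rw [← hD 0]
    refine Eq.trans ?_ (up_prod_diag p b' hb')
    refine Finset.prod_congr ?_ fun _ _ => rfl
    ext i; simp
  have hD0 : D 0 = 1 := Units.ext (by rw [hn0]; rfl)
  have hstep : ∀ i : Fin n, (D i : ℚ_[p]) = b' i i *
      (if h : (i : ℕ) + 1 < n then (D ⟨(i : ℕ) + 1, h⟩ : ℚ_[p]) else 1) := by
    intro i
    have h1 : Finset.univ.filter (fun j : Fin n => i ≤ j)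
        = insert i (Finset.univ.filter (fun j : Fin n => i < j)) := by
      ext j
      simp only [Finset.mem_filter, Finset.mem_univ, true_and, Finset.mem_insert]
      constructor
      · intro h; rcases eq_or_lt_of_le h with h | h
        · exact Or.inl h.symm
        · exact Or.inr h
      · rintro (h | h)
        · exact h.symm.le
        · exact h.le
    rw [← hD i, h1, Finset.prod_insert (by simp)]
    congr 1
    split_ifs with h
    · rw [← hD ⟨(i : ℕ) + 1, h⟩]
      refine Finset.prod_congr ?_ fun _ _ => rfl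
      ext j
      simp only [Finset.mem_filter, Finset.mem_univ, true_and, Fin.lt_def, Fin.le_def]
      omega
    · refine Finset.prod_eq_one fun j hj => ?_
      simp only [Finset.mem_filter, Finset.mem_univ, true_and, Fin.lt_def] at hj
      omega
  let T : Fin n → TorU p n := fun k => if h : (k : ℕ) = 0 then 1 else
    corootU p ⟨(k : ℕ) - 1, by omega⟩ k (by
        intro hc; have := congrArg Fin.val hc; simp at this; omega) (D k)
  have hTval : ∀ k i : Fin n, ((T k : Fin n → ℚ_[p]ˣ)) i =
      (if (k : ℕ) = (i : ℕ) + 1 then D k else 1) * (if k = i then (D k)⁻¹ else 1) := by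
    intro k i
    by_cases h0 : (k : ℕ) = 0
    · have hk : k = 0 := Fin.ext h0
      have h1 : T k = 1 := by simp only [T, dif_pos h0]
      rw [h1, hk, hD0]
      simp
    · have h1 : T k = corootU p ⟨(k : ℕ) - 1, by omega⟩ k (by
        intro hc; have := congrArg Fin.val hc; simp at this; omega) (D k) := by
        simp only [T, dif_neg h0]
      rw [h1]
      show (if i = ⟨(k : ℕ) - 1, _⟩ then D k else if i = k then (D k)⁻¹ else 1) = _
      by_cases h2 : (k : ℕ) = (i : ℕ) + 1
      · have h3 : i = ⟨(k : ℕ) - 1, by omega⟩ := Fin.ext (by show (i : ℕ) = (k : ℕ) - 1; omega)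
        have h4 : k ≠ i := by rintro rfl; omega
        rw [if_pos h3, if_pos h2, if_neg h4, mul_one]
      · have h3 : i ≠ ⟨(k : ℕ) - 1, by omega⟩ := by
          intro h; have := congrArg Fin.val h; simp at this; omega
        rw [if_neg h3, if_neg h2, one_mul]
        by_cases h5 : k = i
        · rw [if_pos h5, if_pos h5.symm]
        · rw [if_neg h5, if_neg (fun h => h5 h.symm)]
  have hcoe : ∀ (s : Finset (Fin n)) (i : Fin n),
      ((∏ k ∈ s, T k : TorU p n) : Fin n → ℚ_[p]ˣ) i = ∏ k ∈ s, (T k : Fin n → ℚ_[p]ˣ) i := by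
    intro s i
    rw [Subgroup.val_finsetProd, Finset.prod_apply]
  have hprod : (∏ k, T k) * diagU p b' hb' = 1 := by
    apply Subtype.ext
    funext i
    show ((∏ k, T k : TorU p n) : Fin n → ℚ_[p]ˣ) i * (diagU p b' hb' : Fin n → ℚ_[p]ˣ) i = 1
    rw [hcoe]
    simp only [hTval, Finset.prod_mul_distrib, Finset.prod_ite_eq', Finset.mem_univ, if_true]
    have h1 : (∏ k : Fin n, if (k : ℕ) = (i : ℕ) + 1 then D k else 1)
        = (if h : (i : ℕ) + 1 < n then D ⟨(i : ℕ) + 1, h⟩ else 1) := by
      split_ifs with h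
      · rw [Finset.prod_eq_single ⟨(i : ℕ) + 1, h⟩]
        · simp
        · intro k _ hk
          rw [if_neg]
          intro h2; exact hk (Fin.ext h2)
        · intro h; exact absurd (Finset.mem_univ _) h
      · refine Finset.prod_eq_one fun k _ => ?_
        rw [if_neg]
        have := k.2
        omega
    rw [h1]
    apply Units.ext
    rw [Units.val_mul, Units.val_mul, diagU_val, Units.val_one]
    have h2 := hstep i
    have h3 : (((if h : (i : ℕ) + 1 < n then D ⟨(i : ℕ) + 1, h⟩ else 1 : ℚ_[p]ˣ)) : ℚ_[p])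
        = (if h : (i : ℕ) + 1 < n then (D ⟨(i : ℕ) + 1, h⟩ : ℚ_[p]) else 1) := by
      split_ifs <;> simp
    rw [h3]
    have h4 : ((D i)⁻¹ : ℚ_[p]ˣ).val * (D i : ℚ_[p]) = 1 := by
      rw [← Units.val_mul, inv_mul_cancel, Units.val_one]
    rw [h2] at h4
    linear_combination h4
  have hdiag : diagU p b' hb' = (∏ k, T k)⁻¹ := (inv_eq_of_mul_eq_one_right hprod).symm
  rw [chiB_eq p χ b' hb', hdiag, map_inv, map_prod, ← Finset.prod_inv_distrib, Units.coe_prod]
  refine Finset.prod_congr rfl fun k _ => ?_
  split_ifs with h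
  · have hT : T k = 1 := dif_pos h
    rw [hT, map_one, inv_one, Units.val_one]
  · have hT : T k = corootU p ⟨(k : ℕ) - 1, by omega⟩ k (by
        intro hc; have := congrArg Fin.val hc; simp at this; omega) (D k) := dif_neg h
    rw [hT, map_inv]
end Pool.Agent.Helper911
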