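import Mathlib
import Pool.Agent.Helper911_SL.Defs2
import Pool.Agent.Helper911_SL.JE

set_option autoImplicit false
set_option linter.unusedSectionVars false
set_option maxHeartbeats 1000000

noncomputable section

open Matrix Topology Filter

namespace Pool.Agent.Helper911


variable (p : ℕ) [Fact p.Prime] {n : ℕ} [NeZero n]

/-! ======= TARGETS ======= -/

/-! Small computations with signed permutation matrices. Hints: `wrep_apply`, `wrep_inv_apply`, `conj_wrep_apply`, `el_apply`.
For TARGETS 1 and 2: `wrep (u * swap i i')` is `t * wrep u * S` with `t` diagonal with entries `± 1` and `S` the matrix which is `[[0,1],[-1,0]]` in the rows and columns `i, i'` and the identity elsewhere (`S = el i i' 1 * el i' i (-1) * el i i' 1`). With 2x2 matrices in rows and columns `i, i'`: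
`[[1,a],[0,1]] = [[a,0],[1,a⁻¹]] [[0,1],[-1,0]] [[1,0],[a⁻¹,1]]` and `[[a,0],[1,a⁻¹]]` is lower triangular, and as `u i' < u i`, `wrep u * (lower triangular in rows i, i') * (wrep u)⁻¹` is upper triangular. For TARGET 2:
`[[0,1],[-1,0]] [[1,0],[v,1]] = [[v,1],[-1,0]] = [[v,0],[0,v⁻¹]] [[1,0],[-v,1]] [[1,v⁻¹],[0,1]]`. TARGET 5: `NU 1 ⊓ NL u` is trivial if `u` is monotone; a permutation with `u k < u (k+1)` for all `k` is the identity. -/

theorem aux_el_mul (i j : Fin n) (h : i ≠ j) (c : ℚ_[p]) (g : SLn p n) (k l : Fin n) :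
    (el p i j h c * g : SLn p n) k l = g k l + (if k = i then c * g j l else 0) := by
  rw [Matrix.SpecialLinearGroup.coe_mul, Matrix.mul_apply]
  simp only [el_apply, add_mul, Finset.sum_add_distrib, ite_mul, one_mul, zero_mul,
    Finset.sum_ite_eq, Finset.mem_univ, if_true]
  congr 1
  by_cases hk : k = i
  · simp [hk]
  · simp [hk]

theorem aux_mul_el (i j : Fin n) (h : i ≠ j) (c : ℚ_[p]) (g : SLn p n) (k l : Fin n) :
    (g * el p i j h c : SLn p n) k l = g k l + (if l = j then g k i * c else 0) := by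
  rw [Matrix.SpecialLinearGroup.coe_mul, Matrix.mul_apply]
  simp only [el_apply, mul_add, Finset.sum_add_distrib, mul_ite, mul_one, mul_zero,
    Finset.sum_ite_eq', Finset.mem_univ, if_true]
  congr 1
  by_cases hk : l = j
  · simp [hk]
  · simp [hk]

theorem aux_el_inv (i j : Fin n) (h : i ≠ j) (c : ℚ_[p]) :
    (el p i j h c)⁻¹ = el p i j h (-c) := by
  rw [inv_eq_iff_mul_eq_one]
  ext k l
  rw [aux_el_mul]
  simp only [el_apply, Matrix.SpecialLinearGroup.coe_one, Matrix.one_apply]
  by_cases h1 : k = i <;> by_cases h2 : l = j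
  · subst h1 h2; simp [h, h.symm]
  · subst h1; simp [h2, h.symm, Ne.symm h2]
  · simp [h1]
  · simp [h1]

theorem aux_wrep_conj (u u' : Equiv.Perm (Fin n)) (g : SLn p n) (i j : Fin n) :
    (wrep p u * g * (wrep p u')⁻¹ : SLn p n) i j
      = eps p u i * g (u.symm i) (u'.symm j) * eps p u' j := by
  rw [Matrix.SpecialLinearGroup.coe_mul, Matrix.mul_apply, Finset.sum_eq_single (u'.symm j)]
  · rw [wrep_inv_apply]
    simp only [Equiv.apply_symm_apply, if_true]
    rw [Matrix.SpecialLinearGroup.coe_mul, Matrix.mul_apply, Finset.sum_eq_single (u.symm i)]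
    · rw [wrep_apply]; simp only [Equiv.apply_symm_apply, if_true]
    · intro c _ hc
      rw [wrep_apply, if_neg, zero_mul]
      rintro rfl; exact hc (by simp)
    · intro h; exact absurd (Finset.mem_univ _) h
  · intro c _ hc
    rw [wrep_inv_apply, if_neg, mul_zero]
    rintro rfl; exact hc (by simp)
  · intro h; exact absurd (Finset.mem_univ _) h

theorem aux_el_NU (i i' : Fin n) (hlt : i < i') (c : ℚ_[p]) (h : i ≠ i') :
    el p i i' h c ∈ NU p (1 : Equiv.Perm (Fin n)) := by
  refine ⟨fun k l hkl => ?_, fun k => ?_⟩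
  · have hkl' : l < k := hkl
    rw [el_apply, if_neg hkl'.ne', if_neg, add_zero]
    rintro ⟨rfl, rfl⟩
    exact absurd hkl' (not_lt.2 hlt.le)
  · rw [el_apply, if_pos rfl, if_neg, add_zero]
    rintro ⟨rfl, h'⟩
    exact hlt.ne h'

theorem aux_coroot_apply (i j : Fin n) (h : i ≠ j) (x : ℚ_[p]ˣ) (k l : Fin n) :
    coroot p i j h x k l = if k = l then corootFun p i j x k else 0 := by
  unfold coroot
  rw [dg_apply]

theorem aux_el_NL (i i' : Fin n) (hlt : i < i') (c : ℚ_[p]) :
    el p i' i hlt.ne' c ∈ NL p (1 : Equiv.Perm (Fin n)) := by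
  refine ⟨fun k l hkl => ?_, fun k => ?_⟩
  · have hkl' : k < l := by
      simp only [rv, Equiv.trans_apply, Fin.revPerm_apply, Equiv.Perm.coe_one, id] at hkl
      exact Fin.rev_lt_rev.1 hkl
    rw [el_apply, if_neg hkl'.ne, if_neg, add_zero]
    rintro ⟨rfl, rfl⟩
    exact absurd hkl' (not_lt.2 hlt.le)
  · rw [el_apply, if_pos rfl, if_neg, add_zero]
    rintro ⟨rfl, h⟩
    exact hlt.ne h.symm

/-- TARGET 1. -/
theorem swap_idx (u : Equiv.Perm (Fin n)) (i i' : Fin n) (hi : (i : ℕ) + 1 = (i' : ℕ))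
    (hne : i ≠ i') (hu : u i' < u i) (a : ℚ_[p]) (ha : a ≠ 0) :
    ∃ b ∈ Up p (1 : Equiv.Perm (Fin n)), ∃ y ∈ NL p (1 : Equiv.Perm (Fin n)),
      wrep p u * el p i i' hne a = b * wrep p (u * Equiv.swap i i') * y := by
  have hlt : i < i' := by rw [Fin.lt_def]; omega
  refine ⟨wrep p u * (el p i i' hne a * (el p i' i hlt.ne' a⁻¹)⁻¹) * (wrep p (u * Equiv.swap i i'))⁻¹,
    ?_, el p i' i hlt.ne' a⁻¹, aux_el_NL p i i' hlt a⁻¹, by group⟩
  intro k l hkl
  have hkl' : l < k := hkl
  rw [aux_wrep_conj, aux_el_inv]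
  obtain ⟨c, rfl⟩ := u.surjective k
  obtain ⟨d, rfl⟩ := u.surjective l
  have e1 : (u * Equiv.swap i i').symm (u d) = Equiv.swap i i' d := by
    rw [Equiv.symm_apply_eq]; simp
  rw [e1, Equiv.symm_apply_apply, aux_el_mul]
  simp only [el_apply]
  have hcd : c ≠ d := by rintro rfl; exact lt_irrefl _ hkl'
  by_cases hd : d = i
  · subst hd
    rw [Equiv.swap_apply_left]
    have hc : c ≠ i' := by
      rintro rfl
      exact absurd hkl' (not_lt.2 hu.le)
    simp [hc, hcd]
  · by_cases hd' : d = i'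
    · subst hd'
      rw [Equiv.swap_apply_right]
      by_cases hc : c = i
      · subst hc
        simp [hne, hne.symm, ha]
      · simp [hc, hcd]
    · rw [Equiv.swap_apply_of_ne_of_ne hd hd']
      simp [hcd, hd, Ne.symm hd', Ne.symm hd]

/-- TARGET 2. -/
theorem swap_value (u : Equiv.Perm (Fin n)) (i i' : Fin n) (hi : (i : ℕ) + 1 = (i' : ℕ))
    (hne : i ≠ i') (hu : u i' < u i) :
    ∃ t0 ∈ Up p (1 : Equiv.Perm (Fin n)), ∀ v : ℚ_[p]ˣ,
      ∃ m ∈ NU p (1 : Equiv.Perm (Fin n)),
      wrep p (u * Equiv.swap i i') * el p i' i hne.symm (v : ℚ_[p])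
        = t0 * coroot p (u i) (u i') (fun h => hne (u.injective h)) v * m * wrep p u *
            el p i i' hne ((v⁻¹ : ℚ_[p]ˣ) : ℚ_[p]) := by
  have hlt : i < i' := by rw [Fin.lt_def]; omega
  have hune : u i ≠ u i' := fun h => hne (u.injective h)
  set S : SLn p n := el p i i' hne 1 * (el p i' i hne.symm (-1) * el p i i' hne 1) with hS
  set S' : SLn p n := el p i i' hne (-1) * (el p i' i hne.symm 1 * el p i i' hne (-1)) with hS'
  have hSS : S' = S⁻¹ := by
    rw [hS, hS', _root_.mul_inv_rev, _root_.mul_inv_rev, aux_el_inv, aux_el_inv, neg_neg, mul_assoc]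
  refine ⟨wrep p (u * Equiv.swap i i') * S' * (wrep p u)⁻¹, ?_, fun v => ?_⟩
  · intro k l hkl
    have hkl' : l < k := hkl
    rw [aux_wrep_conj]
    obtain ⟨c, rfl⟩ := u.surjective k
    obtain ⟨d, rfl⟩ := u.surjective l
    have e1 : (u * Equiv.swap i i').symm (u c) = Equiv.swap i i' c := by
      rw [Equiv.symm_apply_eq]; simp
    have hcd : c ≠ d := by rintro rfl; exact lt_irrefl _ hkl'
    rw [e1, Equiv.symm_apply_apply, hS', aux_el_mul, aux_el_mul, aux_el_mul]
    simp only [el_apply]
    by_cases hc : c = i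
    · subst hc
      rw [Equiv.swap_apply_left]
      by_cases hd : d = i'
      · subst hd; simp [hne, hne.symm]
      · simp [hd, hne, hne.symm, hcd, Ne.symm hd]
    · by_cases hc' : c = i'
      · subst hc'
        rw [Equiv.swap_apply_right]
        by_cases hd : d = i
        · subst hd; simp [hne, hne.symm]
        · simp [hd, hne, hne.symm, hcd, Ne.symm hd, Ne.symm hcd]
      · rw [Equiv.swap_apply_of_ne_of_ne hc hc']
        simp [hc, hc', hcd]
  · refine ⟨el p (u i') (u i) hune.symm (-(eps p u (u i) * eps p u (u i') * v)), ?_, ?_⟩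
    · exact aux_el_NU p (u i') (u i) hu _ _
    · have key : wrep p u * (S * (el p i' i hne.symm (v : ℚ_[p]) *
            el p i i' hne (-((v⁻¹ : ℚ_[p]ˣ) : ℚ_[p])))) * (wrep p u)⁻¹
          = coroot p (u i) (u i') hune v *
            el p (u i') (u i) hune.symm (-(eps p u (u i) * eps p u (u i') * v)) := by
        have hprod : S * (el p i' i hne.symm (v : ℚ_[p]) * el p i i' hne (-((v⁻¹ : ℚ_[p]ˣ) : ℚ_[p])))
            = el p i i' hne 1 * (el p i' i hne.symm (-1) * (el p i i' hne 1 *
              (el p i' i hne.symm (v : ℚ_[p]) * el p i i' hne (-((v⁻¹ : ℚ_[p]ˣ) : ℚ_[p]))))) := by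
          rw [hS]; simp only [mul_assoc]
        ext k l
        rw [conj_wrep_apply, aux_mul_el]
        obtain ⟨c, rfl⟩ := u.surjective k
        obtain ⟨d, rfl⟩ := u.surjective l
        rw [Equiv.symm_apply_apply, Equiv.symm_apply_apply, hprod]
        simp only [aux_el_mul, el_apply, aux_coroot_apply, corootFun, u.injective.eq_iff]
        have ee := eps_mul_self p u (u c)
        have hv : (v : ℚ_[p]) ≠ 0 := v.ne_zero
        by_cases hc : c = i
        · subst hc
          by_cases hd : d = c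
          · subst hd; simp [hne, hne.symm, ee]
          · by_cases hd' : d = i'
            · subst hd'; simp [hne, hne.symm]
            · simp [hne, hne.symm, hd, hd', Ne.symm hd, Ne.symm hd']
        · by_cases hc' : c = i'
          · subst hc'
            by_cases hd : d = i
            · subst hd; simp [hne, hne.symm]; field_simp
            · by_cases hd' : d = c
              · subst hd'; simp [hne, hne.symm, ee]
              · simp [hne, hne.symm, hd, hd', Ne.symm hd, Ne.symm hd']
          · by_cases hd : d = c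
            · subst hd; simp [hc, hc', ee]
            · simp [hc, hc', hd, Ne.symm hd, hne, hne.symm]
      have key2 : wrep p u * S * el p i' i hne.symm (v : ℚ_[p])
          = coroot p (u i) (u i') hune v *
            el p (u i') (u i) hune.symm (-(eps p u (u i) * eps p u (u i') * v)) * wrep p u *
            el p i i' hne ((v⁻¹ : ℚ_[p]ˣ) : ℚ_[p]) := by
        rw [← key, ← aux_el_inv]
        group
      rw [hSS]
      have e : wrep p (u * Equiv.swap i i') * el p i' i hne.symm (v : ℚ_[p])
          = wrep p (u * Equiv.swap i i') * S⁻¹ * (wrep p u)⁻¹ *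
            (wrep p u * S * el p i' i hne.symm (v : ℚ_[p])) := by group
      rw [e, key2]
      group

/-- TARGET 3. -/
theorem el_mem_pat (u : Equiv.Perm (Fin n)) (i i' : Fin n) (hlt : i < i') (hu : u i' < u i)
    (a : ℚ_[p]) : el p i i' hlt.ne a ∈ NU p (1 : Equiv.Perm (Fin n)) ⊓ NL p u := by
  have hd : ∀ k, el p i i' hlt.ne a k k = 1 := by
    intro k
    rw [el_apply, if_pos rfl, if_neg, add_zero]
    rintro ⟨rfl, h⟩
    exact hlt.ne h
  refine ⟨⟨fun k l hkl => ?_, hd⟩, ⟨fun k l hkl => ?_, hd⟩⟩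
  · have hkl' : l < k := hkl
    rw [el_apply, if_neg hkl'.ne', if_neg, add_zero]
    rintro ⟨rfl, rfl⟩
    exact absurd hkl' (not_lt.2 hlt.le)
  · have hkl' : u k < u l := by
      simp only [rv, Equiv.trans_apply, Fin.revPerm_apply] at hkl
      exact Fin.rev_lt_rev.1 hkl
    rw [el_apply, if_neg, if_neg, add_zero]
    · rintro ⟨rfl, rfl⟩
      exact absurd hkl' (not_lt.2 hu.le)
    · rintro rfl
      exact lt_irrefl _ hkl'

/-- TARGET 4. -/
theorem conj_el (u : Equiv.Perm (Fin n)) (i j : Fin n) (hij : i ≠ j) (a : ℚ_[p]) :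
    wrep p u * el p i j hij a * (wrep p u)⁻¹
      = el p (u i) (u j) (fun h => hij (u.injective h)) (eps p u (u i) * eps p u (u j) * a) := by
  ext k l
  rw [conj_wrep_apply, el_apply, el_apply]
  have e1 : (u.symm k = u.symm l) ↔ k = l := u.symm.injective.eq_iff
  have e2 : (u.symm k = i) ↔ k = u i := by rw [Equiv.symm_apply_eq]
  have e3 : (u.symm l = j) ↔ l = u j := by rw [Equiv.symm_apply_eq]
  simp only [e1, e2, e3]
  by_cases h1 : k = l
  · subst h1
    have h2 : ¬ (k = u i ∧ k = u j) := by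
      rintro ⟨h3, h4⟩
      exact hij (u.injective (h3.symm.trans h4))
    rw [if_pos rfl, if_neg h2, add_zero, mul_one, eps_mul_self]
    rw [if_neg h2, add_zero]
  · rw [if_neg h1, zero_add, zero_add]
    by_cases h2 : k = u i ∧ l = u j
    · rw [if_pos h2, if_pos h2, h2.1, h2.2]
    · rw [if_neg h2, if_neg h2, mul_zero]

/-- TARGET 5. -/
theorem exists_descent (u : Equiv.Perm (Fin n))
    (hu : ∃ x ∈ NU p (1 : Equiv.Perm (Fin n)) ⊓ NL p u, x ≠ 1) :
    ∃ i i' : Fin n, (i : ℕ) + 1 = (i' : ℕ) ∧ u i' < u i := by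
  by_contra hcon
  push Not at hcon
  have hmono : ∀ d : ℕ, ∀ i j : Fin n, (i : ℕ) + d + 1 = (j : ℕ) → u i < u j := by
    intro d
    induction d with
    | zero =>
      intro i j hij
      refine lt_of_le_of_ne (hcon i j (by simpa using hij)) ?_
      intro h
      have := u.injective h
      rw [this] at hij
      omega
    | succ d ih =>
      intro i j hij
      have hj : (j : ℕ) - 1 < n := by have := j.2; omega
      have h1 := ih i ⟨(j : ℕ) - 1, hj⟩ (by simp only; omega)
      refine lt_of_lt_of_le h1 (hcon ⟨(j : ℕ) - 1, hj⟩ j (by simp only; omega))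
  obtain ⟨x, ⟨hx1, hx2⟩, hne⟩ := hu
  apply hne
  ext k l
  rw [Matrix.SpecialLinearGroup.coe_one, Matrix.one_apply]
  by_cases hkl : k = l
  · subst hkl
    rw [if_pos rfl]
    exact hx1.2 k
  · rw [if_neg hkl]
    rcases lt_or_gt_of_ne hkl with h | h
    · refine hx2.1 k l ?_
      simp only [rv, Equiv.trans_apply, Fin.revPerm_apply]
      rw [Fin.rev_lt_rev]
      refine hmono ((l : ℕ) - (k : ℕ) - 1) k l ?_
      have : (k : ℕ) < (l : ℕ) := h
      omega
    · exact hx1.1 k l h
end Pool.Agent.Helper911
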