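import Mathlib
import Pool.Agent.Helper911_SL.Defs2
import Pool.Agent.Helper911_SL.JC
import Pool.Agent.Helper911_SL.JE
import Pool.Agent.Helper911_SL.JF

set_option autoImplicit false
set_option linter.unusedSectionVars false
set_option maxHeartbeats 1000000

noncomputable section

open Matrix Topology Filter

namespace Pool.Agent.Helper911


variable (p : ℕ) [Fact p.Prime] {n : ℕ} [NeZero n]

/-! ======= MORE GIVEN (proved elsewhere, you may use them) ======= -/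

/-! ======= TARGETS ======= -/

/-- conjugation by an integral matrix preserves the congruence subgroups -/
theorem gamU_sl_conj (m : ℕ) (k x : SLn p n) (hk : k ∈ Cong p n 0) (hx : x ∈ Cong p n m) :
    k * x * k⁻¹ ∈ Cong p n m := by
  have hk1 : ∀ a b, ‖k a b‖ ≤ 1 := by
    intro a b
    have h := hk a b
    simp only [Nat.cast_zero, neg_zero, _root_.zpow_zero] at h
    have h2 : k a b = (k a b - (1 : Matrix (Fin n) (Fin n) ℚ_[p]) a b)
      + (1 : Matrix (Fin n) (Fin n) ℚ_[p]) a b := by ring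
    rw [h2]
    refine (IsUltrametricDist.norm_add_le_max _ _).trans (max_le h ?_)
    rw [Matrix.one_apply]; split_ifs <;> simp
  have hk2 : ∀ a b, ‖(k⁻¹ : SLn p n) a b‖ ≤ 1 := norm_inv_le_one p hk1
  intro i j
  have h3 : (k * x * k⁻¹ : SLn p n) i j - (1 : Matrix (Fin n) (Fin n) ℚ_[p]) i j
      = ∑ b, (∑ a, k i a * (x a b - (1 : Matrix (Fin n) (Fin n) ℚ_[p]) a b)) *
          (k⁻¹ : SLn p n) b j := by
    have e1 : (k * x * k⁻¹ : SLn p n) i j
        = ∑ b, (∑ a, k i a * x a b) * (k⁻¹ : SLn p n) b j := by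
      simp only [Matrix.SpecialLinearGroup.coe_mul, Matrix.mul_apply]
    have e2 : (1 : Matrix (Fin n) (Fin n) ℚ_[p]) i j
        = ∑ b, (∑ a, k i a * (1 : Matrix (Fin n) (Fin n) ℚ_[p]) a b) *
          (k⁻¹ : SLn p n) b j := by
      have : ∀ b, ∑ a, k i a * (1 : Matrix (Fin n) (Fin n) ℚ_[p]) a b = k i b := by
        intro b
        rw [← Matrix.mul_apply, Matrix.mul_one]
      simp only [this]
      rw [← Matrix.mul_apply, ← Matrix.SpecialLinearGroup.coe_mul, mul_inv_cancel,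
        Matrix.SpecialLinearGroup.coe_one]
    rw [e1]
    conv_lhs => rw [e2]
    rw [← Finset.sum_sub_distrib]
    refine Finset.sum_congr rfl fun b _ => ?_
    rw [← sub_mul, ← Finset.sum_sub_distrib]
    simp only [mul_sub]
  show ‖(k * x * k⁻¹ : SLn p n) i j - (1 : Matrix (Fin n) (Fin n) ℚ_[p]) i j‖ ≤ _
  rw [h3]
  refine IsUltrametricDist.norm_sum_le_of_forall_le_of_nonneg (fact_pow_pos p _).le
    fun b _ => ?_
  rw [norm_mul]
  have h4 : ‖∑ a, k i a * (x a b - (1 : Matrix (Fin n) (Fin n) ℚ_[p]) a b)‖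
      ≤ (p : ℝ) ^ (-(m : ℤ)) := by
    refine IsUltrametricDist.norm_sum_le_of_forall_le_of_nonneg (fact_pow_pos p _).le
      fun a _ => ?_
    rw [norm_mul]
    calc _ ≤ 1 * (p : ℝ) ^ (-(m : ℤ)) :=
          mul_le_mul (hk1 i a) (hx a b) (norm_nonneg _) zero_le_one
      _ = _ := one_mul _
  calc _ ≤ (p : ℝ) ^ (-(m : ℤ)) * 1 :=
        mul_le_mul h4 (hk2 b j) (norm_nonneg _) (fact_pow_pos p _).le
    _ = _ := mul_one _

/-- TARGET.
Proof. `wrep w * g * (wrep w)⁻¹` is in `Cong p n 1` (it is normalised by `Cong p n 0`: `‖(k x k⁻¹ - 1) i j‖ ≤ p⁻¹` because `k x k⁻¹ - 1 = k (x - 1) k⁻¹` and the entries of `k`, `k⁻¹` are integral). By `iwahori` it is `b * y'` with `b ∈ Up p 1`, `y' ∈ NL p 1 ⊓ Cong p n 1`. `x = (wrep w)⁻¹ * y' * wrep w` is in `NL p w` (`conj_wrep_NL`) and in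
`Cong p n 1`. By `peel_low` `x = n' * y` with `n', y` in `Cong p n 1`. So `wrep w * g = b * y' * wrep w = b * wrep w * x`. -/
theorem gamU_sl (w : Equiv.Perm (Fin n)) (g : SLn p n) (hg : g ∈ Cong p n 1) :
    ∃ b ∈ Up p (1 : Equiv.Perm (Fin n)), ∃ n' ∈ NU p (1 : Equiv.Perm (Fin n)) ⊓ NL p w,
      ∃ y ∈ NL p (1 : Equiv.Perm (Fin n)) ⊓ NL p w, n' ∈ Cong p n 1 ∧ y ∈ Cong p n 1 ∧
        wrep p w * g = b * wrep p w * n' * y := by
  have hc := gamU_sl_conj p 1 (wrep p w) g (wrep_mem p w) hg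
  obtain ⟨b, hb, -, y', hy', hy'c, he⟩ := iwahori p 1 le_rfl _ hc
  have hinv : (wrep p w)⁻¹ ∈ Cong p n 0 := inv_mem (wrep_mem p w)
  have hxc : (wrep p w)⁻¹ * y' * wrep p w ∈ Cong p n 1 := by
    have := gamU_sl_conj p 1 (wrep p w)⁻¹ y' hinv hy'c
    rwa [inv_inv] at this
  have hxN : (wrep p w)⁻¹ * y' * wrep p w ∈ NL p w := by
    rw [← conj_wrep_NL]
    have : wrep p w * ((wrep p w)⁻¹ * y' * wrep p w) * (wrep p w)⁻¹ = y' := by group
    rw [this]
    exact hy'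
  obtain ⟨n', hn', y, hy, hxe, hm⟩ := peel_low p w _ hxN
  obtain ⟨h1, h2⟩ := hm 1 hxc
  refine ⟨b, hb, n', hn', y, hy, h1, h2, ?_⟩
  have h3 : wrep p w * g = (wrep p w * g * (wrep p w)⁻¹) * wrep p w := by group
  rw [h3, he, mul_assoc (b * wrep p w) n' y, ← hxe]
  group
end Pool.Agent.Helper911
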