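import Mathlib
import Pool.Agent.Helper911_SL.Defs2

set_option autoImplicit false
set_option linter.unusedSectionVars false
set_option maxHeartbeats 1000000

noncomputable section

open Matrix Topology Filter

namespace Pool.Agent.Helper911


variable (p : ℕ) [Fact p.Prime] {n : ℕ} [NeZero n]

/-! ======= TARGETS ======= -/

/-- The torus element `diag(p^(l i))`. -/
def zL (l : Fin n → ℤ) (hl : ∑ i, l i = 0) : SLn p n :=
  dg p (fun i => (p : ℚ_[p]) ^ l i) (by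
    have hp : (p : ℚ_[p]) ≠ 0 := by exact_mod_cast (Fact.out : p.Prime).ne_zero
    have : ∀ s : Finset (Fin n), ∏ i ∈ s, (p : ℚ_[p]) ^ l i = (p : ℚ_[p]) ^ (∑ i ∈ s, l i) := by
      intro s
      induction s using Finset.cons_induction with
      | empty => simp
      | cons a s ha ih => rw [Finset.prod_cons, Finset.sum_cons, ih, zpow_add₀ hp]
    rw [this, hl, _root_.zpow_zero])

variable (l : Fin n → ℤ) (hl : ∑ i, l i = 0) (hmono : StrictMono l)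

theorem zL_pow_apply (m : ℕ) (i j : Fin n) :
    ((zL p l hl) ^ m : SLn p n) i j = if i = j then (p : ℚ_[p]) ^ ((m : ℤ) * l i) else 0 := by
  have hp : (p : ℚ_[p]) ≠ 0 := by exact_mod_cast (Fact.out : p.Prime).ne_zero
  have h : (((zL p l hl) ^ m : SLn p n) : Matrix (Fin n) (Fin n) ℚ_[p])
      = Matrix.diagonal (fun i => ((p : ℚ_[p]) ^ l i) ^ m) := by
    rw [Matrix.SpecialLinearGroup.coe_pow]
    show (Matrix.diagonal (fun i => (p : ℚ_[p]) ^ l i)) ^ m = _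
    rw [Matrix.diagonal_pow]
    rfl
  rw [h, Matrix.diagonal_apply]
  congr 1
  rw [← _root_.zpow_natCast, ← _root_.zpow_mul, mul_comm]

/-- TARGET 0. -/
theorem zL_mem : zL p l hl ∈ Tor p n := by
  refine ⟨?_, ?_⟩
  · intro i j hij
    have hne : i ≠ j := by rintro rfl; exact lt_irrefl _ hij
    show (zL p l hl) i j = 0
    rw [zL, dg_apply, if_neg hne]
  · intro i j hij
    have hne : i ≠ j := by rintro rfl; exact lt_irrefl _ hij
    show (zL p l hl) i j = 0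
    rw [zL, dg_apply, if_neg hne]

theorem zL_pow_mul_apply (m : ℕ) (y : SLn p n) (i j : Fin n) :
    ((zL p l hl) ^ m * y : SLn p n) i j = (p : ℚ_[p]) ^ ((m : ℤ) * l i) * y i j := by
  rw [Matrix.SpecialLinearGroup.coe_mul, Matrix.mul_apply, Finset.sum_eq_single i]
  · rw [zL_pow_apply, if_pos rfl]
  · intro k _ hk
    rw [zL_pow_apply, if_neg (Ne.symm hk), zero_mul]
  · intro h; exact absurd (Finset.mem_univ _) h

theorem mul_zL_pow_apply (m : ℕ) (y : SLn p n) (i j : Fin n) :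
    (y * (zL p l hl) ^ m : SLn p n) i j = y i j * (p : ℚ_[p]) ^ ((m : ℤ) * l j) := by
  rw [Matrix.SpecialLinearGroup.coe_mul, Matrix.mul_apply, Finset.sum_eq_single j]
  · rw [zL_pow_apply, if_pos rfl]
  · intro k _ hk
    rw [zL_pow_apply, if_neg hk, mul_zero]
  · intro h; exact absurd (Finset.mem_univ _) h

/-- TARGET 1. -/
theorem zL_pow_conj (m : ℕ) (y : SLn p n) (i j : Fin n) :
    ((zL p l hl) ^ m * y * ((zL p l hl) ^ m)⁻¹ : SLn p n) i j
      = (p : ℚ_[p]) ^ ((m : ℤ) * (l i - l j)) * y i j := by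
  have hp : (p : ℚ_[p]) ≠ 0 := by exact_mod_cast (Fact.out : p.Prime).ne_zero
  set X : SLn p n := (zL p l hl) ^ m * y * ((zL p l hl) ^ m)⁻¹ with hX
  have h1 : X * (zL p l hl) ^ m = (zL p l hl) ^ m * y := by rw [hX]; group
  have h2 : (X * (zL p l hl) ^ m : SLn p n) i j = ((zL p l hl) ^ m * y : SLn p n) i j := by rw [h1]
  rw [mul_zL_pow_apply, zL_pow_mul_apply] at h2
  have h3 : (p : ℚ_[p]) ^ ((m : ℤ) * l j) ≠ 0 := zpow_ne_zero _ hp
  rw [mul_sub, zpow_sub₀ hp, div_mul_eq_mul_div, eq_div_iff h3]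
  exact h2

theorem zL_pow_conj' (m : ℕ) (y : SLn p n) (i j : Fin n) :
    (((zL p l hl) ^ m)⁻¹ * y * (zL p l hl) ^ m : SLn p n) i j
      = (p : ℚ_[p]) ^ ((m : ℤ) * (l j - l i)) * y i j := by
  have hp : (p : ℚ_[p]) ≠ 0 := by exact_mod_cast (Fact.out : p.Prime).ne_zero
  set X : SLn p n := ((zL p l hl) ^ m)⁻¹ * y * (zL p l hl) ^ m with hX
  have h1 : (zL p l hl) ^ m * X = y * (zL p l hl) ^ m := by rw [hX]; group
  have h2 : ((zL p l hl) ^ m * X : SLn p n) i j = (y * (zL p l hl) ^ m : SLn p n) i j := by rw [h1]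
  rw [mul_zL_pow_apply, zL_pow_mul_apply] at h2
  have h3 : (p : ℚ_[p]) ^ ((m : ℤ) * l i) ≠ 0 := zpow_ne_zero _ hp
  rw [mul_sub, zpow_sub₀ hp, div_mul_eq_mul_div, eq_div_iff h3, mul_comm]
  rw [h2, mul_comm]

theorem norm_zpow_le (k : ℕ) (d : ℤ) (hd : 1 ≤ d) :
    ‖(p : ℚ_[p]) ^ ((k : ℤ) * d)‖ ≤ (p : ℝ) ^ (-(k : ℤ)) := by
  have h1 : (1 : ℝ) ≤ p := by exact_mod_cast (Fact.out : p.Prime).one_le
  rw [Padic.norm_p_zpow]
  apply zpow_le_zpow_right₀ h1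
  nlinarith [Int.natCast_nonneg k]

theorem exists_small (R : ℝ) (M : ℕ) : ∃ k : ℕ, (p : ℝ) ^ (-(k : ℤ)) * R ≤ (p : ℝ) ^ (-(M : ℤ)) := by
  have h1 : (1 : ℝ) < p := by exact_mod_cast (Fact.out : p.Prime).one_lt
  have h0 : (0 : ℝ) < p := by linarith
  obtain ⟨k, hk⟩ := pow_unbounded_of_one_lt (R * (p : ℝ) ^ M) h1
  refine ⟨k, ?_⟩
  rw [_root_.zpow_neg, _root_.zpow_neg, _root_.zpow_natCast, _root_.zpow_natCast]
  rw [inv_mul_le_iff₀ (pow_pos h0 k), ← div_eq_mul_inv, le_div_iff₀ (pow_pos h0 M)]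
  exact hk.le

include hmono

theorem contract_NbL (y : SLn p n) (hy : y ∈ NL p (1 : Equiv.Perm (Fin n))) (k : ℕ) (R : ℝ)
    (hR : 0 ≤ R) (h : ∀ i j, j < i → ‖y i j‖ ≤ R) (i j : Fin n) :
    ‖((zL p l hl) ^ k * y * ((zL p l hl) ^ k)⁻¹ : SLn p n) i j
      - (1 : Matrix (Fin n) (Fin n) ℚ_[p]) i j‖ ≤ (p : ℝ) ^ (-(k : ℤ)) * R := by
  have hpos : 0 ≤ (p : ℝ) ^ (-(k : ℤ)) * R := mul_nonneg (fact_pow_pos p _).le hR
  rw [zL_pow_conj]
  rcases lt_trichotomy i j with hij | hij | hij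
  · have h0 : y i j = 0 := hy.1 i j (by
      show Fin.rev j < Fin.rev i
      exact Fin.rev_lt_rev.2 hij)
    rw [h0, Matrix.one_apply_ne hij.ne]; simpa using hpos
  · subst hij
    have h0 : y i i = 1 := hy.2 i
    rw [h0]; simpa using hpos
  · rw [Matrix.one_apply_ne hij.ne', sub_zero, norm_mul]
    have hd : 1 ≤ l i - l j := by have := hmono hij; omega
    exact mul_le_mul (norm_zpow_le p k _ hd) (h i j hij) (norm_nonneg _) (fact_pow_pos p _).le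

theorem contract_NL (y : SLn p n) (hy : y ∈ NU p (1 : Equiv.Perm (Fin n))) (k : ℕ) (R : ℝ)
    (hR : 0 ≤ R) (h : ∀ i j, i < j → ‖y i j‖ ≤ R) (i j : Fin n) :
    ‖(((zL p l hl) ^ k)⁻¹ * y * (zL p l hl) ^ k : SLn p n) i j
      - (1 : Matrix (Fin n) (Fin n) ℚ_[p]) i j‖ ≤ (p : ℝ) ^ (-(k : ℤ)) * R := by
  have hpos : 0 ≤ (p : ℝ) ^ (-(k : ℤ)) * R := mul_nonneg (fact_pow_pos p _).le hR
  rw [zL_pow_conj']
  rcases lt_trichotomy i j with hij | hij | hij
  · rw [Matrix.one_apply_ne hij.ne, sub_zero, norm_mul]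
    have hd : 1 ≤ l j - l i := by have := hmono hij; omega
    exact mul_le_mul (norm_zpow_le p k _ hd) (h i j hij) (norm_nonneg _) (fact_pow_pos p _).le
  · subst hij
    have h0 : y i i = 1 := hy.2 i
    rw [h0]; simpa using hpos
  · have h0 : y i j = 0 := hy.1 i j (by simpa using hij)
    rw [h0, Matrix.one_apply_ne hij.ne']; simpa using hpos

/-- TARGET 2. -/
theorem shrink_NbL (y : SLn p n) (hy : y ∈ NL p (1 : Equiv.Perm (Fin n))) (m : ℕ)
    (h : y ∈ Cong p n m) : zL p l hl * y * (zL p l hl)⁻¹ ∈ Cong p n m := by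
  intro i j
  have h1 := contract_NbL p l hl hmono y hy 1 ((p : ℝ) ^ (-(m : ℤ))) (fact_pow_pos p _).le
    (fun i j hij => by
      have := h i j
      rwa [Matrix.one_apply_ne hij.ne', sub_zero] at this) i j
  rw [pow_one] at h1
  refine h1.trans ?_
  have h2 := pow_neg_le_one p 1
  have h3 : 0 ≤ (p : ℝ) ^ (-(m : ℤ)) := (fact_pow_pos p _).le
  calc _ ≤ 1 * (p : ℝ) ^ (-(m : ℤ)) := mul_le_mul_of_nonneg_right h2 h3
    _ = _ := one_mul _

/-- TARGET 3. -/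
theorem absorb_NbL (y : SLn p n) (hy : y ∈ NL p (1 : Equiv.Perm (Fin n))) (M : ℕ) : ∃ m : ℕ,
    (zL p l hl) ^ m * y * ((zL p l hl) ^ m)⁻¹ ∈ Cong p n M := by
  obtain ⟨k, hk⟩ := exists_small p (∑ i, ∑ j, ‖y i j‖) M
  refine ⟨k, fun i j => ?_⟩
  refine (contract_NbL p l hl hmono y hy k (∑ i, ∑ j, ‖y i j‖)
    (Finset.sum_nonneg fun _ _ => Finset.sum_nonneg fun _ _ => norm_nonneg _) ?_ i j).trans hk
  intro i j _
  calc ‖y i j‖ ≤ ∑ j, ‖y i j‖ :=
        Finset.single_le_sum (f := fun j => ‖y i j‖) (fun _ _ => norm_nonneg _) (Finset.mem_univ j)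
    _ ≤ ∑ i, ∑ j, ‖y i j‖ :=
        Finset.single_le_sum (f := fun i => ∑ j, ‖y i j‖)
          (fun _ _ => Finset.sum_nonneg fun _ _ => norm_nonneg _) (Finset.mem_univ i)

/-- TARGET 4. -/
theorem unif_NbL (M : ℕ) : ∃ m : ℕ, ∀ y ∈ NL p (1 : Equiv.Perm (Fin n)), y ∈ Cong p n 0 →
    (zL p l hl) ^ m * y * ((zL p l hl) ^ m)⁻¹ ∈ Cong p n M := by
  refine ⟨M, fun y hy h i j => ?_⟩
  have h1 := contract_NbL p l hl hmono y hy M 1 zero_le_one
    (fun i j hij => by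
      have := h i j
      rw [Matrix.one_apply_ne hij.ne', sub_zero] at this
      simpa using this) i j
  rwa [mul_one] at h1

/-- TARGET 5. -/
theorem shrink_NL (y : SLn p n) (hy : y ∈ NU p (1 : Equiv.Perm (Fin n))) (m : ℕ)
    (h : y ∈ Cong p n m) : (zL p l hl)⁻¹ * y * (zL p l hl) ∈ Cong p n m := by
  intro i j
  have h1 := contract_NL p l hl hmono y hy 1 ((p : ℝ) ^ (-(m : ℤ))) (fact_pow_pos p _).le
    (fun i j hij => by
      have := h i j
      rwa [Matrix.one_apply_ne hij.ne, sub_zero] at this) i j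
  rw [pow_one] at h1
  refine h1.trans ?_
  have h2 := pow_neg_le_one p 1
  have h3 : 0 ≤ (p : ℝ) ^ (-(m : ℤ)) := (fact_pow_pos p _).le
  calc _ ≤ 1 * (p : ℝ) ^ (-(m : ℤ)) := mul_le_mul_of_nonneg_right h2 h3
    _ = _ := one_mul _

/-- TARGET 6. -/
theorem absorb_NL (y : SLn p n) (hy : y ∈ NU p (1 : Equiv.Perm (Fin n))) (M : ℕ) : ∃ m : ℕ,
    ((zL p l hl) ^ m)⁻¹ * y * (zL p l hl) ^ m ∈ Cong p n M := by
  obtain ⟨k, hk⟩ := exists_small p (∑ i, ∑ j, ‖y i j‖) M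
  refine ⟨k, fun i j => ?_⟩
  refine (contract_NL p l hl hmono y hy k (∑ i, ∑ j, ‖y i j‖)
    (Finset.sum_nonneg fun _ _ => Finset.sum_nonneg fun _ _ => norm_nonneg _) ?_ i j).trans hk
  intro i j _
  calc ‖y i j‖ ≤ ∑ j, ‖y i j‖ :=
        Finset.single_le_sum (f := fun j => ‖y i j‖) (fun _ _ => norm_nonneg _) (Finset.mem_univ j)
    _ ≤ ∑ i, ∑ j, ‖y i j‖ :=
        Finset.single_le_sum (f := fun i => ∑ j, ‖y i j‖)
          (fun _ _ => Finset.sum_nonneg fun _ _ => norm_nonneg _) (Finset.mem_univ i)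

/-- TARGET 7. -/
theorem unif_NL (M : ℕ) : ∃ m : ℕ, ∀ y ∈ NU p (1 : Equiv.Perm (Fin n)), y ∈ Cong p n 0 →
    ((zL p l hl) ^ m)⁻¹ * y * (zL p l hl) ^ m ∈ Cong p n M := by
  refine ⟨M, fun y hy h i j => ?_⟩
  have h1 := contract_NL p l hl hmono y hy M 1 zero_le_one
    (fun i j hij => by
      have := h i j
      rw [Matrix.one_apply_ne hij.ne, sub_zero] at this
      simpa using this) i j
  rwa [mul_one] at h1
end Pool.Agent.Helper911
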