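import Mathlib
import Pool.Agent.Helper911_SL.Char
import Pool.Agent.Helper911_T3.PJ

set_option autoImplicit false
set_option linter.unusedSectionVars false
set_option maxHeartbeats 1000000

noncomputable section

open Matrix Topology Filter

namespace Pool.Agent.Helper911


variable (p : ℕ) [Fact p.Prime] {n : ℕ} [NeZero n]

/-! ======= TARGETS ======= -/

namespace Slopes

/-- the torus element with `x` at place `i` and `x⁻¹` at place `0` (trivial for `i = 0`) -/
def cc (i : Fin n) (x : ℚ_[p]ˣ) : TorU p n :=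
  ⟨fun k => (if k = i then x else 1) * (if k = 0 then x⁻¹ else 1), by
    show ∏ k, _ = 1
    simp only [Finset.prod_mul_distrib, Finset.prod_ite_eq', Finset.mem_univ, if_true,
      mul_inv_cancel]⟩

theorem prod_zpow' {G : Type} [CommGroup G] {ι : Type} {s : Finset ι} {t : ι → ℤ} (x : G) :
    ∏ i ∈ s, x ^ t i = x ^ (∑ i ∈ s, t i) := by
  induction s using Finset.cons_induction with
  | empty => simp
  | cons a s ha ih => rw [Finset.prod_cons, Finset.sum_cons, ih, _root_.zpow_add]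

/-- the torus element `p ^ t i` -/
def DD (pu : ℚ_[p]ˣ) (t : Fin n → ℤ) (ht : ∑ i, t i = 0) : TorU p n :=
  ⟨fun i => pu ^ t i, by
    show ∏ i, pu ^ t i = 1
    rw [prod_zpow' pu, ht, _root_.zpow_zero]⟩

theorem DD_eq (pu : ℚ_[p]ˣ) (t : Fin n → ℤ) (ht : ∑ i, t i = 0) :
    DD p pu t ht = ∏ i, (cc p i pu) ^ t i := by
  apply Subtype.ext
  funext k
  rw [Subgroup.val_finsetProd, Finset.prod_apply]
  have h : ∀ i : Fin n, (((cc p i pu) ^ t i : TorU p n) : Fin n → ℚ_[p]ˣ) k =
      (if k = i then pu ^ t i else 1) * (if k = 0 then (pu⁻¹) ^ t i else 1) := by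
    intro i
    have h1 : (((cc p i pu) ^ t i : TorU p n) : Fin n → ℚ_[p]ˣ) k =
      ((if k = i then pu else 1) * (if k = 0 then pu⁻¹ else 1)) ^ t i := rfl
    rw [h1, mul_zpow]
    split_ifs <;> simp
  rw [Finset.prod_congr rfl fun i _ => h i, Finset.prod_mul_distrib, Finset.prod_ite_eq,
    if_pos (Finset.mem_univ _)]
  have h2 : ∏ i, (if k = 0 then (pu⁻¹) ^ t i else 1) = (1 : ℚ_[p]ˣ) := by
    by_cases hk : k = 0
    · simp only [hk, if_true]
      rw [prod_zpow', ht, _root_.zpow_zero]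
    · simp only [hk, if_false, Finset.prod_const_one]
  rw [h2, mul_one]
  rfl

theorem norm_DD {C : Type*} [NormedField C] (χ : TorU p n →* Cˣ) (pu : ℚ_[p]ˣ) (t : Fin n → ℤ)
    (ht : ∑ i, t i = 0) : ‖((χ (DD p pu t ht) : Cˣ) : C)‖ =
      Real.exp (∑ i, Real.log ‖((χ (cc p i pu) : Cˣ) : C)‖ * (t i : ℝ)) := by
  rw [DD_eq, map_prod, Units.coe_prod, norm_prod, Real.exp_sum]
  refine Finset.prod_congr rfl fun i _ => ?_
  rw [map_zpow, Units.val_zpow_eq_zpow_val, norm_zpow, ← Real.rpow_intCast,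
    Real.rpow_def_of_pos (norm_pos_iff.2 (Units.ne_zero _))]

end Slopes

/-- TARGET (slopes).
Proof. For `i : Fin n` let `last = Fin.last`-like index (the largest one, exists since `NeZero n`) and `ν i = log ‖χ (corootU i last p)‖` for `i ≠ last`, `ν last = 0`. For `l` with sum `0`, `diag(p^(l i)) = ∏_{i ≠ last} corootU i last (p^(l i))` in the torus, so `‖χ‖ = exp (∑ ν i l i)`. `wrep w * zL l * (wrep w)⁻¹` is the diagonal matrix
with entry `p^(l (w.symm i))` at `i` (`conj_wrep_apply`, `eps_mul_self`), so the norm is `exp (∑_i ν i * l (w.symm i)) = exp (∑_j ν (w j) * l j)`. -/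
theorem slopes_exist {C : Type*} [NormedField C] (χ : TorU p n →* Cˣ) :
    ∃ ν : Fin n → ℝ, ∀ (l : Fin n → ℤ) (hl : ∑ i, l i = 0) (w : Equiv.Perm (Fin n)),
      ‖chiB p χ (wrep p w * zL p l hl * (wrep p w)⁻¹)‖
        = Real.exp (∑ j, ν (w j) * (l j : ℝ)) := by
  have hp : (p : ℚ_[p]) ≠ 0 := by exact_mod_cast (Fact.out : p.Prime).ne_zero
  refine ⟨fun i => Real.log ‖((χ (Slopes.cc p i (Units.mk0 (p : ℚ_[p]) hp)) : Cˣ) : C)‖, ?_⟩
  intro l hl w
  have hent : ∀ i j, (wrep p w * zL p l hl * (wrep p w)⁻¹ : SLn p n) i j =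
      if i = j then (p : ℚ_[p]) ^ l (w.symm i) else 0 := by
    intro i j
    rw [conj_wrep_apply, zL, dg_apply]
    by_cases hij : i = j
    · subst hij
      rw [if_pos rfl, if_pos rfl, eps_mul_self, one_mul]
    · rw [if_neg hij, if_neg, mul_zero]
      intro h
      exact hij (w.symm.injective h)
  have hup : (wrep p w * zL p l hl * (wrep p w)⁻¹ : SLn p n) ∈ Up p (1 : Equiv.Perm (Fin n)) := by
    intro i j hij
    rw [hent, if_neg]
    rintro rfl
    exact lt_irrefl _ hij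
  have hsum : ∑ i, l (w.symm i) = 0 := by
    rw [Equiv.sum_comp w.symm l, hl]
  have hd : diagU p _ hup = Slopes.DD p (Units.mk0 (p : ℚ_[p]) hp) (fun i => l (w.symm i)) hsum := by
    apply Subtype.ext
    funext i
    apply Units.ext
    rw [diagU_val, hent, if_pos rfl]
    change _ = ((Units.mk0 (p : ℚ_[p]) hp ^ l (w.symm i) : ℚ_[p]ˣ) : ℚ_[p])
    rw [Units.val_zpow_eq_zpow_val, Units.val_mk0]
  rw [chiB_eq p χ _ hup, hd, Slopes.norm_DD]
  congr 1
  rw [← Equiv.sum_comp w]
  refine Finset.sum_congr rfl fun j _ => ?_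
  rw [Equiv.symm_apply_apply]
end Pool.Agent.Helper911
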