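import Mathlib
import Pool.Agent.Helper911_Abs.Multi
import Pool.Agent.Helper911_SL.Char
import Pool.Agent.Helper911_SL.Field
import Pool.Agent.Helper911_T3.PC
import Pool.Agent.Helper911_T3.PD
import Pool.Agent.Helper911_T3.PE
import Pool.Agent.Helper911_T3.PF
import Pool.Agent.Helper911_T3.PG
import Pool.Agent.Helper911_T3.PH
import Pool.Agent.Helper911_T3.PI
import Pool.Agent.Helper911_T3.PJ
import Pool.Agent.Helper911_T3.PK

/-! Assembly: reducibility for continuous characters of the torus of SL_n(Q_p). -/

set_option autoImplicit false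
set_option linter.unusedSectionVars false
set_option maxHeartbeats 1000000

noncomputable section

open Matrix Topology Filter

namespace Pool.Agent.Helper911

variable (p : ℕ) [Fact p.Prime] {n : ℕ} [NeZero n]

theorem cong_one_le {g : SLn p n} (h : g ∈ Cong p n 1) : g ∈ Cong p n 0 := fun i j =>
  (h i j).trans (by simpa using pow_neg_le_one p 1)

theorem zL_ok (l : Fin n → ℤ) (hl : ∑ i, l i = 0) (hmono : StrictMono l) :
    ZOK (slFlag p (n := n)) (zL p l hl) where
  mem := zL_mem p l hl
  shrink_Nb y hy h := shrink_NbL p l hl hmono y hy 1 h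
  absorb_Nb y hy := absorb_NbL p l hl hmono y hy 1
  unif_Nb := by
    intro U hU
    obtain ⟨M, _, hM⟩ := cong_small p n U hU
    obtain ⟨m, hm⟩ := unif_NbL p l hl hmono M
    exact ⟨m, fun y hy h => hM (hm y hy (cong_one_le p h))⟩
  shrink_N y hy h := shrink_NL p l hl hmono y hy 1 h
  absorb_N y hy := absorb_NL p l hl hmono y hy 1
  unif_N := by
    intro U hU
    obtain ⟨M, _, hM⟩ := cong_small p n U hU
    obtain ⟨m, hm⟩ := unif_NL p l hl hmono M
    exact ⟨m, fun y hy h => hM (hm y hy (cong_one_le p h))⟩

theorem sl_gamU : GamU (slFlag p (n := n)) := by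
  intro w g hg
  obtain ⟨b, hb, n', hn', y, hy, h1, h2, h⟩ := gamU_sl p w g hg
  exact ⟨b, hb, n', hn', y, hy, h1, h2, h⟩

theorem tor_comm (s t : SLn p n) (hs : s ∈ Tor p n) (ht : t ∈ Tor p n) : s * t = t * s := by
  rw [mem_Tor_iff] at hs ht
  ext i j
  rw [Matrix.SpecialLinearGroup.coe_mul, Matrix.SpecialLinearGroup.coe_mul, Matrix.mul_apply,
    Matrix.mul_apply, Finset.sum_eq_single i, Finset.sum_eq_single i]
  · by_cases hij : i = j
    · subst hij; ring
    · rw [hs i j hij, ht i j hij]; ring
  · intro k _ hk; rw [ht i k (Ne.symm hk)]; ring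
  · intro h; exact absurd (Finset.mem_univ _) h
  · intro k _ hk; rw [hs i k (Ne.symm hk)]; ring
  · intro h; exact absurd (Finset.mem_univ _) h

/-- The coroot as a homomorphism. -/
def corootHom (i j : Fin n) (h : i ≠ j) : ℚ_[p]ˣ →* TorU p n where
  toFun x := corootU p i j h x
  map_one' := by
    apply Subtype.ext
    funext k
    show (if k = i then (1 : ℚ_[p]ˣ) else if k = j then 1⁻¹ else 1) = 1
    split_ifs <;> simp
  map_mul' x y := by
    apply Subtype.ext
    funext k
    show (if k = i then x * y else if k = j then (x * y)⁻¹ else 1)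
      = (if k = i then x else if k = j then x⁻¹ else 1) *
        (if k = i then y else if k = j then y⁻¹ else 1)
    split_ifs
    · rfl
    · rw [_root_.mul_inv]
    · rw [one_mul]

theorem corootHom_continuous (i j : Fin n) (h : i ≠ j) : Continuous (corootHom p i j h) := by
  refine continuous_induced_rng.2 (continuous_pi fun k => ?_)
  show Continuous fun x : ℚ_[p]ˣ => (if k = i then x else if k = j then x⁻¹ else 1)
  split_ifs
  · exact continuous_id
  · exact continuous_inv
  · exact continuous_const

theorem corootU_swap (i j : Fin n) (h : i ≠ j) (x : ℚ_[p]ˣ) :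
    corootU p i j h x = (corootU p j i h.symm x)⁻¹ := by
  apply Subtype.ext
  funext k
  show (if k = i then x else if k = j then x⁻¹ else 1)
    = (if k = j then x else if k = i then x⁻¹ else 1)⁻¹
  by_cases h1 : k = i
  · have h2 : k ≠ j := by rw [h1]; exact h
    simp [h1, h]
  · by_cases h2 : k = j
    · simp [h2, h.symm]
    · simp [h1, h2]

variable {C : Type*} [NormedField C]

/-- `w1 = u s` lies below `u`. -/
theorem swap_wle (u : Equiv.Perm (Fin n)) (i i' : Fin n) (hi : (i : ℕ) + 1 = (i' : ℕ))
    (hne : i ≠ i') (hu : u i' < u i) :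
    wle (slFlag p (n := n)) (u * Equiv.swap i i') u := by
  obtain ⟨b, hb, y, hy, h⟩ := swap_idx p u i i' hi hne hu 1 one_ne_zero
  have hlt : i < i' := by rw [Fin.lt_def]; omega
  refine wle_of_N (slFlag p (n := n)) u _ (el p i i' hne 1) (el_mem_pat p u i i' hlt hu 1).1 ?_
  exact cellIdx_eq p _ _ b y hb hy h

end Pool.Agent.Helper911
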