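import Mathlib
import Pool.Agent.Helper911_T3.Main

/-! The estimate for SL_n. -/

set_option autoImplicit false
set_option linter.unusedSectionVars false
set_option maxHeartbeats 1000000

noncomputable section

open Matrix Topology Filter

namespace Pool.Agent.Helper911

variable (p : ℕ) [Fact p.Prime] {n : ℕ} [NeZero n] {C : Type*} [NormedField C]

/-- The characters attached to the principal minors. -/
def xiK (χ : TorU p n →* Cˣ) (k : Fin n) : ℚ_[p]ˣ →* Cˣ :=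
  if h : (k : ℕ) = 0 then 1 else
    (χ.comp (corootHom p ⟨(k : ℕ) - 1, by omega⟩ k (by
      intro hc; have := congrArg Fin.val hc; simp at this; omega)))⁻¹

theorem xiK_continuous (χ : TorU p n →* Cˣ) (hχ : Continuous χ) (k : Fin n) :
    Continuous (xiK p χ k) := by
  unfold xiK
  split_ifs
  · exact continuous_const
  · exact (hχ.comp (corootHom_continuous p _ _ _)).inv

theorem chi_xi (χ : TorU p n →* Cˣ) (b' : SLn p n)
    (hb' : b' ∈ Up p (1 : Equiv.Perm (Fin n))) (D : Fin n → ℚ_[p]ˣ)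
    (hD : ∀ k : Fin n, ∏ i ∈ Finset.univ.filter (fun i => k ≤ i), b' i i = (D k : ℚ_[p])) :
    chiB p χ b' = ∏ k : Fin n, ((xiK p χ k (D k) : Cˣ) : C) := by
  rw [chi_minors p χ b' hb' D hD]
  refine Finset.prod_congr rfl fun k _ => ?_
  unfold xiK
  split_ifs with h
  · rfl
  · rw [map_inv]
    rfl

theorem zL_conj_el (l : Fin n → ℤ) (hl : ∑ i, l i = 0) (i j : Fin n) (h : i ≠ j) (v : ℚ_[p])
    (m : ℕ) : (zL p l hl) ^ m * el p i j h v * ((zL p l hl) ^ m)⁻¹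
      = el p i j h ((p : ℚ_[p]) ^ ((m : ℤ) * (l i - l j)) * v) := by
  ext a b
  rw [zL_pow_conj, el_apply, el_apply]
  by_cases h1 : a = b
  · subst h1
    have h2 : ¬ (a = i ∧ a = j) := by rintro ⟨rfl, h3⟩; exact h h3
    simp [h2]
  · by_cases h2 : a = i ∧ b = j
    · obtain ⟨rfl, rfl⟩ := h2
      simp [h1]
    · simp [h1, h2]

theorem el_inj (i j : Fin n) (h : i ≠ j) : Function.Injective (fun v : ℚ_[p]ˣ => el p i j h v) := by
  intro v w hvw
  have := congrArg (fun g : SLn p n => g i j) hvw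
  simp only [el_apply, h, if_false, and_self, if_true, zero_add] at this
  exact Units.ext this

/-- Extension of a function on the units by zero. -/
def ext0 (a : ℚ_[p]ˣ → C) (x : ℚ_[p]) : C := by
  classical
  exact if h : x ≠ 0 then a (Units.mk0 x h) else 0

theorem ext0_unit (a : ℚ_[p]ˣ → C) (v : ℚ_[p]ˣ) : ext0 p a (v : ℚ_[p]) = a v := by
  unfold ext0
  rw [dif_pos v.ne_zero]
  congr 1
  exact Units.mk0_val v v.ne_zero

variable [NormedAlgebra ℚ_[p] C] [CompleteSpace C]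

theorem sl_est (χ : TorU p n →* Cˣ) (hχ : Continuous χ) (u : Equiv.Perm (Fin n)) (i i' : Fin n)
    (hne : i ≠ i') (hlt : i < i') (hu : u i' < u i) (l : Fin n → ℤ) (hl : ∑ i, l i = 0)
    (hmono : StrictMono l) (I : ℕ) :
    ∃ M0 : ℕ, 1 ≤ M0 ∧ ∀ (J : Finset ℚ_[p]ˣ) (a : ℚ_[p]ˣ → C),
      (∀ v ∈ J, ‖(v : ℚ_[p])‖ ≤ (p : ℝ) ^ (-(M0 : ℤ))) →
      (∀ k ≤ I, ∑ v ∈ J, a v * (algebraMap ℚ_[p] C (v : ℚ_[p])) ^ k = 0) →
      ∃ A : ℝ, ∀ m : ℕ, ∀ g ∈ NL p (1 : Equiv.Perm (Fin n)), g ∈ Cong p n 0 →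
        ∀ b : ℚ_[p]ˣ → SLn p n, (∀ v ∈ J, b v ∈ Up p (1 : Equiv.Perm (Fin n)) ∧
          ∃ m' ∈ NL p (1 : Equiv.Perm (Fin n)),
          g * (wrep p u * ((zL p l hl) ^ m * el p i' i hne.symm v * ((zL p l hl) ^ m)⁻¹) *
            (wrep p u)⁻¹) = b v * m') →
        ‖∑ v ∈ J, a v * chiB p χ (b v)‖ ≤
          A * (((p : ℝ) ^ (-(l i' - l i))) ^ (I + 1)) ^ m := by
  obtain ⟨M0, A, hA, H⟩ := moment_bound (S := Fin n) (xiK p χ)
    (xiK_continuous p χ hχ) I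
  refine ⟨max M0 1, le_max_right _ _, fun J a hJ hmom => ?_⟩
  set B : ℝ := ∑ v ∈ J, ‖a v‖ with hB
  have hB0 : 0 ≤ B := Finset.sum_nonneg fun v _ => norm_nonneg _
  refine ⟨B * A, fun m g hg hgi b hb => ?_⟩
  obtain ⟨d, hd1, -, hd3⟩ := minors p g hg hgi (u i') (u i) hu
  set ε : ℚ_[p] := eps p u (u i') * eps p u (u i) with hε
  have heps : ∀ k, ‖eps p u k‖ = 1 := by
    intro k
    have h1 := congrArg norm (eps_mul_self p u k)
    rw [norm_mul, norm_one] at h1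
    nlinarith [norm_nonneg (eps p u k)]
  have hεn : ‖ε‖ = 1 := by rw [hε, norm_mul, heps, heps, one_mul]
  set t : ℚ_[p] := ε * (p : ℚ_[p]) ^ ((m : ℤ) * (l i' - l i)) with ht
  have hD : ∀ v ∈ J, ∀ k : Fin n,
      ∏ i ∈ Finset.univ.filter (fun i => k ≤ i), b v i i = 1 + t * v * d k := by
    intro v hv k
    obtain ⟨hbv, m', hm', hEq⟩ := hb v hv
    rw [zL_conj_el, conj_el] at hEq
    have := hd3 _ (b v) m' hbv hm' hEq k
    rw [this, ht, hε]
    ring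
  have hD0 : ∀ v ∈ J, ∀ k : Fin n, 1 + t * v * d k ≠ 0 := by
    intro v hv k
    rw [← hD v hv k]
    exact Finset.prod_ne_zero_iff.2 fun i _ => up_diag_ne p (b v) (hb v hv).1 i
  classical
  let uu : Fin n → ℚ_[p] → ℚ_[p]ˣ := fun k x =>
    if h : 1 + t * x * d k ≠ 0 then Units.mk0 _ h else 1
  have huu : ∀ k, ∀ v ∈ J, (uu k (v : ℚ_[p]) : ℚ_[p]) = 1 + t * v * d k := by
    intro k v hv
    show ((if h : 1 + t * (v : ℚ_[p]) * d k ≠ 0 then Units.mk0 _ h else 1 : ℚ_[p]ˣ) : ℚ_[p]) = _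
    rw [dif_pos (hD0 v hv k)]
    rfl
  let emb : ℚ_[p]ˣ ↪ ℚ_[p] := ⟨Units.val, Units.val_injective⟩
  have hpR : (1 : ℝ) < p := by exact_mod_cast (Fact.out : p.Prime).one_lt
  have htn : ‖t‖ = ((p : ℝ) ^ (-(l i' - l i))) ^ m := by
    rw [ht, norm_mul, hεn, one_mul, norm_zpow, Padic.norm_p, ← _root_.zpow_natCast,
      ← _root_.zpow_mul, _root_.inv_zpow', mul_comm (m : ℤ), neg_mul]
  have hgap : 0 < l i' - l i := sub_pos.2 (hmono hlt)
  have hrle : (p : ℝ) ^ (-(l i' - l i)) ≤ 1 := by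
    apply zpow_le_one_of_nonpos₀ hpR.le
    omega
  have hr0 : 0 ≤ (p : ℝ) ^ (-(l i' - l i)) := by positivity
  have h1 := H (J.map emb) (ext0 p a) B (by
      intro v hv
      obtain ⟨w, hw, rfl⟩ := Finset.mem_map.1 hv
      refine (hJ w hw).trans ?_
      apply zpow_le_zpow_right₀ hpR.le
      have : (M0 : ℤ) ≤ ((max M0 1 : ℕ) : ℤ) := by exact_mod_cast le_max_left _ _
      omega) (by
      intro v hv
      obtain ⟨w, hw, rfl⟩ := Finset.mem_map.1 hv
      show ‖ext0 p a (w : ℚ_[p])‖ ≤ B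
      rw [ext0_unit]
      exact Finset.single_le_sum (f := fun v => ‖a v‖) (fun v _ => norm_nonneg _) hw) hB0 (by
      intro k hk
      rw [Finset.sum_map]
      rw [← hmom k hk]
      refine Finset.sum_congr rfl fun v _ => ?_
      show ext0 p a (v : ℚ_[p]) * _ = _
      rw [ext0_unit]; rfl) d t hd1 (by
      rw [htn]; exact pow_le_one₀ hr0 hrle) uu (by
      intro k v hv
      obtain ⟨w, hw, rfl⟩ := Finset.mem_map.1 hv
      exact huu k w hw)
  rw [Finset.sum_map] at h1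
  have h2 : ∑ v ∈ J, a v * chiB p χ (b v)
      = ∑ v ∈ J, ext0 p a (emb v) * ∏ s, ((xiK p χ s (uu s (emb v)) : Cˣ) : C) := by
    refine Finset.sum_congr rfl fun v hv => ?_
    show _ = ext0 p a (v : ℚ_[p]) * _
    rw [ext0_unit, chi_xi p χ (b v) (hb v hv).1 (fun k => uu k (v : ℚ_[p])) (fun k => by
      rw [hD v hv k, huu k v hv])]
    rfl
  rw [h2]
  refine h1.trans (le_of_eq ?_)
  rw [htn, ← pow_mul, ← pow_mul, mul_comm m]

end Pool.Agent.Helper911
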