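import Mathlib
import Pool.Agent.Helper911_T3.Est

/-! The main theorem for continuous characters of the torus of SL_n. -/

set_option autoImplicit false
set_option linter.unusedSectionVars false
set_option maxHeartbeats 1000000

noncomputable section

open Matrix Topology Filter

namespace Pool.Agent.Helper911

variable (p : ℕ) [Fact p.Prime] {n : ℕ} [NeZero n] {C : Type*} [NormedField C]
  [NormedAlgebra ℚ_[p] C] [CompleteSpace C] [IsUltrametricDist C]

/-- The key step at a descent. -/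
theorem sl_descent {rho : ℝ} (hd : Disc p C rho) (χ : TorU p n →* Cˣ) (hχ : Continuous χ)
    (tie : TieHyp (slChar p χ hχ)) (R : SubRep (slChar p χ hχ)) (u : Equiv.Perm (Fin n))
    (Om : Finset (Equiv.Perm (Fin n))) (hm : MinOm R Om)
    (hOm : ∀ w, w ∈ Om ↔ wle (slFlag p (n := n)) w u)
    (hslope : ∀ z', ZOK (slFlag p (n := n)) z' → ∀ w ∈ Om, w ≠ u →
      cwz (slChar p χ hχ) z' w < cwz (slChar p χ hχ) z' u)
    (hop : IsOpen (cell (slFlag p (n := n)) (Om.erase u))) (Φ : SLn p n → C) (hΦR : Φ ∈ R.V)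
    (hΦ : IsPhi (slChar p χ hχ) u Φ)
    (hS : ∃ S, IsClosed S ∧ LInv (slFlag p (n := n)) S ∧ S ⊆ cell (slFlag p (n := n)) Om ∧
      ∀ x ∉ S, Φ x = 0)
    (i i' : Fin n) (hi : (i : ℕ) + 1 = (i' : ℕ)) (hu : u i' < u i) :
    ∃ j : ℕ, ∀ x : ℚ_[p]ˣ,
      ((χ (corootU p (u i) (u i') hu.ne' x) : Cˣ) : C)
        = (algebraMap ℚ_[p] C (x : ℚ_[p])) ^ j := by
  have hlt : i < i' := by rw [Fin.lt_def]; omega
  have hne : i ≠ i' := hlt.ne
  set w1 := u * Equiv.swap i i' with hw1def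
  have hw1u : w1 ≠ u := by
    intro h
    have h1 : w1 i = u i := by rw [h]
    have h2 : w1 i = u i' := by simp [hw1def]
    exact hne (u.injective (h1.symm.trans h2))
  have hw1 : w1 ∈ Om := (hOm w1).2 (swap_wle p u i i' hi hne hu)
  obtain ⟨ν, hν⟩ := slopes_exist p χ
  have hcw : ∀ (l : Fin n → ℤ) (hl : ∑ i, l i = 0) (w : Equiv.Perm (Fin n)),
      cwz (slChar p χ hχ) (zL p l hl) w = Real.exp (∑ j, ν (w j) * (l j : ℝ)) :=
    fun l hl w => hν l hl w
  obtain ⟨l, hmono, hl, hlE⟩ := near_wall ν u i i' hi (Om.erase u) (by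
    intro l hmono hl w hw
    rw [Finset.mem_erase] at hw
    have := hslope _ (zL_ok p l hl hmono) w hw.2 hw.1
    rw [hcw, hcw] at this
    exact Real.exp_lt_exp.1 this)
  have hpR : (1 : ℝ) < p := by exact_mod_cast (Fact.out : p.Prime).one_lt
  have hgap : 0 < l i' - l i := sub_pos.2 (hmono hlt)
  set q : ℝ := (p : ℝ) ^ (-(l i' - l i)) with hq
  have hq0 : 0 < q := by positivity
  have hq1 : q < 1 := by
    rw [hq]
    exact zpow_lt_one_of_neg₀ hpR (by omega)
  have hpos : ∀ w, 0 < cwz (slChar p χ hχ) (zL p l hl) w := by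
    intro w; rw [hcw]; exact Real.exp_pos _
  obtain ⟨I, hI⟩ : ∃ I : ℕ, q ^ (I + 1) * cwz (slChar p χ hχ) (zL p l hl) u
      < cwz (slChar p χ hχ) (zL p l hl) w1 := by
    have h1 : 0 < cwz (slChar p χ hχ) (zL p l hl) w1 / cwz (slChar p χ hχ) (zL p l hl) u :=
      div_pos (hpos _) (hpos _)
    obtain ⟨I, hI⟩ := exists_pow_lt_of_lt_one h1 hq1
    refine ⟨I, ?_⟩
    rw [lt_div_iff₀ (hpos _)] at hI
    refine lt_of_le_of_lt ?_ hI
    apply mul_le_mul_of_nonneg_right _ (hpos _).le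
    exact pow_le_pow_of_le_one hq0.le hq1.le (Nat.le_succ I)
  obtain ⟨M0, hM0, hest⟩ := sl_est p χ hχ u i i' hne hlt hu l hl hmono I
  refine moment_exists ((χ.comp (corootHom p (u i) (u i') hu.ne'))) I M0 ?_
  intro J a hJ hmom
  obtain ⟨A, hA⟩ := hest J a hJ hmom
  let emb : ℚ_[p]ˣ ↪ SLn p n := ⟨fun v => el p i' i hne.symm v, el_inj p i' i hne.symm⟩
  let a' : SLn p n → C := fun h => ext0 p a (h i' i)
  have ha' : ∀ v : ℚ_[p]ˣ, a' (emb v) = a v := by
    intro v
    show ext0 p a ((el p i' i hne.symm (v : ℚ_[p])) i' i) = a v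
    rw [el_apply]
    simp only [hne.symm, if_false, and_self, if_true, zero_add]
    exact ext0_unit p a v
  have hfin := level2_any (R := R) hd tie (sl_gamU p)
    (fun s hs t ht => tor_comm p s t hs ht) hm hOm hop hΦR hΦ hS
    (zL p l hl) (zL_ok p l hl hmono) hw1 hw1u (by
      intro w hw hwu
      rw [hcw, hcw]
      exact Real.exp_le_exp.2 (hlE w (Finset.mem_erase.2 ⟨hwu, hw⟩)))
    (r := q ^ (I + 1)) (by positivity) (pow_lt_one₀ hq0.le hq1 (Nat.succ_ne_zero I)) hI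
    (J.map emb) a' (by
      intro h hh
      obtain ⟨v, hv, rfl⟩ := Finset.mem_map.1 hh
      refine ⟨?_, ?_⟩
      · show el p i' i hne.symm (v : ℚ_[p]) ∈ Cong p n 1
        intro s t
        rw [el_apply, Matrix.one_apply]
        have h1 : ‖(v : ℚ_[p])‖ ≤ (p : ℝ) ^ (-((1 : ℕ) : ℤ)) := by
          refine (hJ v hv).trans (zpow_le_zpow_right₀ hpR.le ?_)
          have : ((1 : ℕ) : ℤ) ≤ (M0 : ℤ) := by exact_mod_cast hM0
          omega
        by_cases h2 : s = i' ∧ t = i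
        · rw [if_pos h2, add_sub_cancel_left]
          exact h1
        · rw [if_neg h2, add_zero, sub_self, norm_zero]
          exact (norm_nonneg _).trans h1
      · exact aux_el_NL p i i' hlt (v : ℚ_[p])) ⟨A, ?_⟩
  · rw [Finset.sum_map] at hfin
    obtain ⟨t0, ht0, hval⟩ := swap_value p u i i' hi hne hu
    have h1 : ∀ v ∈ J, a' (emb v) * Φ (wrep p w1 * emb v)
        = chiB p χ t0 * (a v * ((χ (corootU p (u i) (u i') hu.ne' v) : Cˣ) : C)) := by
      intro v _
      rw [ha']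
      obtain ⟨m, hm', hEq⟩ := hval v
      have h2 : Φ (wrep p w1 * emb v) = chiB p χ (t0 * coroot p (u i) (u i') hu.ne' v * m) := by
        have h3 := hΦ.1 (t0 * coroot p (u i) (u i') hu.ne' v * m)
          (mul_mem (mul_mem ht0 (coroot_mem_up p _ _ _ v)) ((slFlag p (n := n)).N_le hm'))
          (el p i i' hne ((v⁻¹ : ℚ_[p]ˣ) : ℚ_[p])) (el_mem_pat p u i i' hlt hu _) 1 (one_mem _)
          (one_mem _)
        rw [mul_one] at h3
        refine Eq.trans (congrArg Φ ?_) h3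
        exact hEq
      rw [h2, chiB_mul p χ _ _ (mul_mem ht0 (coroot_mem_up p _ _ _ v))
        ((slFlag p (n := n)).N_le hm'), chiB_mul p χ _ _ ht0 (coroot_mem_up p _ _ _ v),
        chiB_N p χ m hm', chiB_coroot]
      ring
    have h4 : ∑ v ∈ J, a' (emb v) * Φ (wrep p w1 * emb v)
        = chiB p χ t0 * ∑ v ∈ J, a v * ((χ (corootU p (u i) (u i') hu.ne' v) : Cˣ) : C) := by
      rw [Finset.mul_sum]
      exact Finset.sum_congr rfl h1
    have h5 : chiB p χ t0 * ∑ v ∈ J, a v * ((χ (corootU p (u i) (u i') hu.ne' v) : Cˣ) : C) = 0 :=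
      h4.symm.trans hfin
    exact (mul_eq_zero.1 h5).resolve_left (chiB_ne p χ t0 ht0)
  · intro m n0 hn0 hn0G y hy hyG b hb
    rw [Finset.sum_map]
    have hg1 : wrep p u * n0 * y * (wrep p u)⁻¹ ∈ NL p (1 : Equiv.Perm (Fin n)) := by
      have : wrep p u * n0 * y * (wrep p u)⁻¹ = wrep p u * (n0 * y) * (wrep p u)⁻¹ := by group
      rw [this]
      exact (conj_wrep_NL p u _).2 (mul_mem hn0.2 hy.2)
    have hg2 : wrep p u * n0 * y * (wrep p u)⁻¹ ∈ Cong p n 0 :=
      mul_mem (mul_mem (mul_mem (wrep_mem p u) (cong_one_le p hn0G)) (cong_one_le p hyG))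
        (inv_mem (wrep_mem p u))
    have h1 := hA m _ hg1 hg2 (fun v => b (emb v)) (by
      intro v hv
      obtain ⟨hbB, n', hn', hn'G, y', hy', hy'G, hEq⟩ := hb (emb v) (Finset.mem_map_of_mem _ hv)
      refine ⟨hbB, wrep p u * n' * y' * (wrep p u)⁻¹, ?_, ?_⟩
      · have : wrep p u * n' * y' * (wrep p u)⁻¹ = wrep p u * (n' * y') * (wrep p u)⁻¹ := by group
        rw [this]
        exact (conj_wrep_NL p u _).2 (mul_mem hn'.2 hy'.2)
      · have h2 : wrep p u * n0 * y * (zL p l hl ^ m * emb v * (zL p l hl ^ m)⁻¹)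
            = b (emb v) * wrep p u * n' * y' := hEq
        calc wrep p u * n0 * y * (wrep p u)⁻¹ *
              (wrep p u * (zL p l hl ^ m * el p i' i hne.symm v * (zL p l hl ^ m)⁻¹) *
                (wrep p u)⁻¹)
            = (wrep p u * n0 * y * (zL p l hl ^ m * emb v * (zL p l hl ^ m)⁻¹)) *
                (wrep p u)⁻¹ := by
              show _ = (wrep p u * n0 * y * (zL p l hl ^ m * el p i' i hne.symm v *
                (zL p l hl ^ m)⁻¹)) * (wrep p u)⁻¹
              group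
          _ = (b (emb v) * wrep p u * n' * y') * (wrep p u)⁻¹ := by rw [h2]
          _ = _ := by group)
    refine le_trans (le_of_eq ?_) h1
    congr 1
    refine Finset.sum_congr rfl fun v _ => ?_
    rw [ha']
    rfl

/-- If the principal series of a continuous character is reducible, then the character is
`x ↦ x^(-m)` on some positive coroot. -/
theorem sl_main {rho : ℝ} (hd : Disc p C rho) (χ : TorU p n →* Cˣ) (hχ : Continuous χ)
    (R : SubRep (slChar p χ hχ)) (hne : R.V ≠ ⊥)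
    (hnt : ∃ f, IsSec (slChar p χ hχ) f ∧ f ∉ R.V) :
    ∃ (i j : Fin n) (h : i < j) (m : ℕ), ∀ x : ℚ_[p]ˣ,
      ((χ (corootU p i j h.ne x) : Cˣ) : C) = ((algebraMap ℚ_[p] C (x : ℚ_[p])) ^ m)⁻¹ := by
  by_cases hs : ∀ (i j : Fin n) (h : i ≠ j), (i : ℕ) + 1 = (j : ℕ) → ∃ x, χ (corootU p i j h x) ≠ 1
  · have tie := sl_tie p χ hχ hs
    obtain ⟨u, Om, hm, hOm, hslope, hop, Φ, hΦR, hΦ, hS⟩ := mainB hd tie R hne
    by_cases hP : ∀ x ∈ (slFlag p (n := n)).P u, x = 1
    · obtain ⟨f, hf, hfV⟩ := hnt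
      exact absurd (all_of_phi R hΦR hΦ hP f hf) hfV
    · push Not at hP
      obtain ⟨i, i', hi, hu⟩ := exists_descent p u hP
      obtain ⟨m, hm'⟩ := sl_descent p hd χ hχ tie R u Om hm hOm hslope hop Φ hΦR hΦ hS i i' hi hu
      refine ⟨u i', u i, hu, m, fun x => ?_⟩
      rw [corootU_swap, map_inv, Units.val_inv_eq_inv_val, hm' x]
  · push Not at hs
    obtain ⟨i, j, h, hij, hx⟩ := hs
    have hlt : i < j := by rw [Fin.lt_def]; omega
    refine ⟨i, j, hlt, 0, fun x => ?_⟩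
    rw [hx x]
    simp

end Pool.Agent.Helper911
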